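import Pool.Agent.Lib.MP_a52643_an.NE.Tent

/-!
A change of horoball gives a gain.
-/

open MeasureTheory Set Filter Topology Metric UpperHalfPlane
open scoped ENNReal MatrixGroups Real FourierTransform ComplexConjugate

noncomputable section

namespace Pool.Agent.Lib.MP_a52643_an.NE

open NS hiding nr Zt Zs isOpen_Zt isOpen_Zs

variable {Λ C : Set SL2} {η : ℍ → ℝ}

theorem greedy (E : Finset (ℕ × ℕ)) (h1 : ∀ p ∈ E, p.1 < p.2)
    (h2 : ∀ p ∈ E, ∀ p' ∈ E, p ≠ p' → 2 * p.2 < p'.1 + p.1 ∨ 2 * p'.2 < p.1 + p'.1) :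
    ∃ F ⊆ E, (∀ p ∈ F, ∀ p' ∈ F, p ≠ p' → p.2 + mm p' ≤ p'.1 ∨ p'.2 + mm p ≤ p.1) ∧
      ∑ p ∈ E, (p.2 - p.1) ≤ 2 * ∑ p ∈ F, (p.2 - p.1) := by
  classical
  induction E using Finset.strongInduction with
  | H E ih =>
  rcases E.eq_empty_or_nonempty with rfl | hne
  · exact ⟨∅, Finset.Subset.refl _, by simp, by simp⟩
  obtain ⟨p, hp, hmax⟩ := E.exists_max_image (fun p => p.1) hne
  have hp1 := h1 p hp
  set R := E.filter fun p' => p'.2 + mm p ≤ p.1 with hR
  have hpR : p ∉ R := fun h => by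
    have := (Finset.mem_filter.1 h).2
    omega
  have hRE : R ⊆ E := Finset.filter_subset _ _
  obtain ⟨F, f1, f2, f3⟩ := ih R ⟨hRE, fun h => hpR (h hp)⟩ (fun a ha => h1 a (hRE ha))
    fun a ha b hb => h2 a (hRE ha) b (hRE hb)
  have hpF : p ∉ F := fun h => hpR (f1 h)
  refine ⟨insert p F, Finset.insert_subset hp (f1.trans hRE), fun a ha b hb hab => ?_, ?_⟩
  · rcases Finset.mem_insert.1 ha with rfl | ha' <;> rcases Finset.mem_insert.1 hb with rfl | hb'
    · exact absurd rfl hab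
    · exact Or.inr (Finset.mem_filter.1 (f1 hb')).2
    · exact Or.inl (Finset.mem_filter.1 (f1 ha')).2
    · exact f2 a ha' b hb' hab
  · set Q := (E.filter fun p' => ¬p'.2 + mm p ≤ p.1) with hQ
    have hpQ : p ∈ Q := Finset.mem_filter.2 ⟨hp, by omega⟩
    have hq : ∀ a ∈ Q.erase p, a ∈ E ∧ p.1 < a.2 + mm p ∧ 2 * a.2 < p.1 + a.1 := fun a ha => by
      obtain ⟨a1, a2⟩ := Finset.mem_erase.1 ha
      obtain ⟨a3, a4⟩ := Finset.mem_filter.1 a2
      have a5 := h2 a a3 p hp a1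
      have a6 := hmax a a3
      exact ⟨a3, by omega, by omega⟩
    have s1 : ∑ a ∈ Q.erase p, (a.2 - a.1) ≤ mm p := by
      have e1 : ∑ a ∈ Q.erase p, (a.2 - a.1)
          = ((Q.erase p).biUnion fun a => Finset.Ico a.2 (2 * a.2 - a.1)).card := by
        rw [Finset.card_biUnion]
        · refine Finset.sum_congr rfl fun a ha => ?_
          have := h1 a (hq a ha).1
          rw [Nat.card_Ico]; omega
        · intro a ha b hb hab
          have a1 := h1 a (hq a ha).1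
          have a2 := h1 b (hq b hb).1
          have a3 := h2 a (hq a ha).1 b (hq b hb).1 hab
          rw [Function.onFun, Finset.disjoint_left]
          intro x hx hx'
          simp only [Finset.mem_Ico] at hx hx'
          omega
      rw [e1]
      refine (Finset.card_le_card (t := Finset.Ico (p.1 - mm p) p.1) fun x hx => ?_).trans
        (by rw [Nat.card_Ico]; omega)
      obtain ⟨a, ha, hx⟩ := Finset.mem_biUnion.1 hx
      obtain ⟨-, a2, a3⟩ := hq a ha
      simp only [Finset.mem_Ico] at hx ⊢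
      omega
    have s2 := Finset.sum_filter_add_sum_filter_not E (fun p' => p'.2 + mm p ≤ p.1)
      fun a => a.2 - a.1
    have s3 := Finset.add_sum_erase Q (fun a => a.2 - a.1) hpQ
    have s4 : mm p ≤ p.2 - p.1 := Nat.div_le_self _ _
    rw [Finset.sum_insert hpF]
    rw [← hR, ← hQ] at s2
    omega

variable {ℓ Y R : ℝ} {S : Set (ℕ → ℝ)} {H : ℕ → ℝ}

private lemma chain_inc {f : ℕ → ℝ} {s : Finset ℕ} {i k : ℕ} (hℓ : 1000 ≤ ℓ) (hik : i ≤ k)
    (h1 : ∀ j, -ℓ ≤ f (j + 1) - f j) (h2 : ∀ j < k, j ∉ s → ℓ - 1 ≤ f (j + 1) - f j)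
    (h3 : f k - f i ≤ ℓ + 37) : 49 / 100 * ((k : ℝ) - i) - 1 ≤ cd s i k := by
  have key : (ℓ - 1) * ((k : ℝ) - i) - (2 * ℓ - 1) * cd s i k ≤ f k - f i := by
    clear h3
    induction k, hik using Nat.le_induction with
    | base => simp [cd]
    | succ k hk ih =>
      have ih := ih fun j hj => h2 j (by omega)
      unfold cd at ih ⊢
      rw [← Finset.insert_Ico_right_eq_Ico_add_one hk]
      by_cases hs : k ∈ s
      · rw [Finset.inter_insert_of_mem hs, Finset.card_insert_of_notMem (by simp)]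
        push_cast
        linarith [h1 k]
      · rw [Finset.inter_insert_of_notMem hs]
        push_cast
        linarith [h2 k (by omega) hs]
  have h0 : (0 : ℝ) ≤ (k : ℝ) - i := sub_nonneg.2 (by exact_mod_cast hik)
  refine le_of_mul_le_mul_left ?_ (show 0 < 2 * ℓ - 1 by linarith)
  nlinarith [mul_le_mul_of_nonneg_right hℓ h0]

/-- ascending up to the index `e` -/
private def asc (ℓ : ℝ) (β : ℕ → ℝ) (e : ℕ) : Prop :=
  ∀ i : ℕ, i ≤ e → ((e : ℝ) - i) * ℓ - 1 < β e - β i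

private lemma chain_exc (T : Ten ℓ S H) (hℓ : 1000 ≤ ℓ) (hY : (10 ^ 9 + 2) * ℓ + 40 ≤ Y) {n : ℕ}
    (hL : ¬Lng ℓ n H) {β : ℕ → ℝ} (hβ : β ∈ S) {q j e : ℕ} (q1 : n < q) (q2 : q ≤ j)
    (q3 : j < 8 * n) (b1 : 40 < β q) (b2 : β (q - 1) ≤ 40) (b3 : Y < β j) (e1 : j ≤ e)
    (e2 : e ≤ q + 30 * n) (e3 : asc ℓ β e) (e4 : e < q + 30 * n → ¬asc ℓ β (e + 1)) :
    Exc ℓ H (q, e) ∧ q + 10 ^ 9 < j ∧ ∀ k, q ≤ k → k + q ≤ 2 * e → 39 < β k := by
  have l0 : 0 ≤ ℓ := by linarith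
  have c1 : β q ≤ ℓ + 40 := by
    have := (T.low hβ (Nat.sub_le q 1)).2
    rw [Nat.cast_sub (by omega)] at this
    push_cast at this
    linarith
  have c2 : q + 10 ^ 9 < j := by
    by_contra h
    have h' : (j : ℝ) ≤ q + 10 ^ 9 := by exact_mod_cast not_lt.1 h
    have := (T.low hβ q2).2
    nlinarith
  have c3 := e3 q (by omega)
  have c4 : ∀ k, q ≤ k → k + q ≤ 2 * e → 39 < β k := fun k k1 k2 => by
    rcases le_total k e with h | h
    · have a1 := (T.low hβ h).2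
      have a2 : (q : ℝ) * ℓ ≤ k * ℓ := mul_le_mul_of_nonneg_right (by exact_mod_cast k1) l0
      linarith
    · have a1 := (T.low hβ h).1
      have a2 : ((k : ℝ) + q) * ℓ ≤ 2 * e * ℓ :=
        mul_le_mul_of_nonneg_right (by exact_mod_cast k2) l0
      linarith
  have c5 : ∀ k, q ≤ k → k + q ≤ 2 * e → H k = β k := fun k k1 k2 =>
    T.eq hβ (by linarith [c4 k k1 k2])
  have c6 := c5 q le_rfl (by omega)
  refine ⟨⟨by omega, by simp only [mm]; omega, by rwa [c6], by rwa [c6], ?_, ?_⟩, c2, c4⟩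
  · rwa [c6, c5 e (by omega) (by omega)]
  · simp only
    rw [c6, c5 _ (by omega) (by omega)]
    obtain ⟨t, t1, t2, t3⟩ : ∃ t, q ≤ t ∧ t + 3 ≤ q + 11 * (e - q) / 6 ∧ ¬asc ℓ β t := by
      rcases e2.eq_or_lt with h | h
      · refine ⟨q + 54 * n, by omega, by omega, fun h' => hL ⟨q, by omega, by rwa [c6], ?_⟩⟩
        have a1 := h' q (by omega)
        have a2 := T.le β hβ (q + 54 * n)
        push_cast at a1
        rw [c6]
        linarith
      · exact ⟨e + 1, by omega, by omega, e4 h⟩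
    have a1 := (T.tent β hβ t).resolve_left t3 (q + 11 * (e - q) / 6) (by omega)
    have a2 := (T.low hβ t1).2
    have a3 : ((t : ℝ) + 3) * ℓ ≤ (q + (11 * (e - q) / 6 : ℕ)) * ℓ :=
      mul_le_mul_of_nonneg_right (by exact_mod_cast t2) l0
    rw [Nat.cast_add] at a1
    linarith

private lemma chain_score (T : Ten ℓ S H) (hℓ : 1000 ≤ ℓ) {N : ℕ} {F : Finset (ℕ × ℕ)}
    (hF : Chn N F) (h1 : ∀ p ∈ F, Exc ℓ H p) (h2 : ∀ p ∈ F, p.1 + 10 ^ 9 < p.2) :
    ((∑ p ∈ F, (p.2 - p.1) : ℕ) : ℝ) / 62 - (ot ℓ Y R N H).card ≤ sc (pa ℓ N H) F := by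
  classical
  have s1 : ∑ p ∈ F, cd (ot ℓ Y R N H) (p.1 - mm p) p.1 ≤ (ot ℓ Y R N H).card := by
    unfold cd
    rw [← Nat.cast_sum, Nat.cast_le, ← Finset.card_biUnion]
    · exact Finset.card_le_card (Finset.biUnion_subset.2 fun _ _ => Finset.inter_subset_left)
    · intro a ha b hb hab
      have a1 := (hF.1 a ha).1
      have a2 := (hF.1 b hb).1
      have a3 := hF.2 a ha b hb hab
      rw [Function.onFun, Finset.disjoint_left]
      intro x hx hx'
      simp only [Finset.mem_inter, Finset.mem_Ico] at hx hx'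
      omega
  refine le_trans (sub_le_sub_left s1 _) ?_
  rw [Nat.cast_sum, Finset.sum_div, ← Finset.sum_sub_distrib]
  refine Finset.sum_le_sum fun p hp => ?_
  obtain ⟨a1, a2, a3, a4, a5, -⟩ := h1 p hp
  have a6 := hF.1 p hp
  have b1 : cd (pa ℓ N H) p.1 p.2 = 0 := by
    rw [cd, Nat.cast_eq_zero, Finset.card_eq_zero, Finset.eq_empty_iff_forall_notMem]
    intro j hj
    rw [Finset.mem_inter, mem_pa, Finset.mem_Ico] at hj
    exact T.nodn hℓ a5 hj.2.1 hj.2.2 hj.1.2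
  have b2 := chain_inc (f := H) (s := pa ℓ N H ∪ ot ℓ Y R N H) hℓ (Nat.sub_le p.1 (mm p))
    (fun j => (abs_le.1 (T.one j)).1) (fun j hj hs => by
      rw [Finset.mem_union, mem_pa, mem_ot, not_or] at hs
      have c1 := not_not.1 fun h => hs.2 ⟨by omega, h⟩
      exact (c1.2.2.resolve_left fun h => hs.1 ⟨by omega, h⟩).2.le)
    (by linarith [T.three (p.1 - mm p)])
  have b3 : cd (pa ℓ N H ∪ ot ℓ Y R N H) (p.1 - mm p) p.1
      ≤ cd (pa ℓ N H) (p.1 - mm p) p.1 + cd (ot ℓ Y R N H) (p.1 - mm p) p.1 := by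
    unfold cd
    rw [Finset.union_inter_distrib_right]
    exact_mod_cast Finset.card_union_le _ _
  have b4 : ((p.2 - p.1 : ℕ) : ℝ) ≤ 30 * mm p + 29 := by
    have : p.2 - p.1 ≤ 30 * mm p + 29 := by simp only [mm]; omega
    exact_mod_cast this
  have b5 : (10 ^ 9 : ℝ) ≤ (p.2 - p.1 : ℕ) := by
    have : 10 ^ 9 ≤ p.2 - p.1 := by have := h2 p hp; omega
    exact_mod_cast this
  rw [Nat.cast_sub a2] at b2
  linarith

theorem Ten.chain (T : Ten ℓ S H) (hℓ : 1000 ≤ ℓ) (hY : (10 ^ 9 + 2) * ℓ + 40 ≤ Y) {n : ℕ}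
    (hn : 10 ^ 6 ≤ n) {β : ℕ → ℝ} (hβ : β ∈ S) (h1 : β n < 3) (h2 : Y < β (7 * n))
    (ho : ((ot ℓ Y R (38 * n) H).card : ℝ) ≤ n / 2000) : Bv ℓ n H := by
  classical
  by_cases hL : Lng ℓ n H
  · exact Or.inl hL
  have l0 : 0 ≤ ℓ := by linarith
  have y0 : 40 < Y := by linarith
  have mn : ∀ (γ : ℕ → ℝ) (j : ℕ), 40 < γ j → 40 < γ (sInf {i | 40 < γ i}) ∧
      sInf {i | 40 < γ i} ≤ j ∧ ∀ i < sInf {i | 40 < γ i}, γ i ≤ 40 := fun γ j hj =>
    ⟨Nat.sInf_mem (s := {i | 40 < γ i}) ⟨j, hj⟩, Nat.sInf_le hj,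
      fun i hi => not_lt.1 (Nat.notMem_of_lt_sInf hi)⟩
  obtain ⟨q1, q2, q3⟩ := mn β (7 * n) (by linarith)
  set q := sInf {i | 40 < β i} with hq
  have q4 : n < q := by
    by_contra h
    rcases T.tent β hβ n with k | k
    · have a1 := k q (not_lt.1 h)
      have a2 : (q : ℝ) * ℓ ≤ n * ℓ :=
        mul_le_mul_of_nonneg_right (by exact_mod_cast not_lt.1 h) l0
      linarith
    · have a1 := k (7 * n) (by omega)
      have a2 : 0 ≤ (n : ℝ) * ℓ := by positivity
      push_cast at a1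
      linarith
  have q5 : H q ≤ ℓ + 40 := by
    have := (T.low hβ (Nat.sub_le q 1)).2
    rw [Nat.cast_sub (by omega)] at this
    push_cast at this
    rw [T.eq hβ (by linarith)]
    linarith [q3 (q - 1) (by omega)]
  set U := (Finset.Ico q (8 * n)).filter
    fun j => j ∉ ot ℓ Y R (38 * n) H ∧ j ∉ pa ℓ (38 * n) H with hU
  have u1 : 49 / 100 * (n : ℝ) - 1 - n / 2000 ≤ U.card := by
    have a2 := chain_inc (f := fun j => -H j)
      (s := Finset.range (38 * n) \ pa ℓ (38 * n) H) hℓ (show q ≤ 8 * n by omega)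
      (fun j => by linarith [(abs_le.1 (T.one j)).2]) (fun j hj hs => by
        rw [Finset.mem_sdiff, Finset.mem_range, mem_pa] at hs
        have c1 := not_not.1 fun h => hs ⟨by omega, h⟩
        linarith [c1.2.2]) (by linarith [T.three (8 * n)])
    have a3 : cd (Finset.range (38 * n) \ pa ℓ (38 * n) H) q (8 * n)
        ≤ U.card + (ot ℓ Y R (38 * n) H).card := by
      unfold cd
      rw [← Nat.cast_add, Nat.cast_le]
      refine (Finset.card_le_card fun j hj => ?_).trans (Finset.card_union_le _ _)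
      rw [Finset.mem_inter, Finset.mem_sdiff] at hj
      rw [Finset.mem_union, hU, Finset.mem_filter]
      tauto
    have a4 : (q : ℝ) ≤ 7 * n := by exact_mod_cast q2
    push_cast at a2
    linarith
  have ch : ∀ j : ℕ, ∃ γ : ℕ → ℝ, 3 < H j → γ ∈ S ∧ γ j = H j := fun j => by
    by_cases h : 3 < H j
    · obtain ⟨γ, a, b⟩ := T.ex j h
      exact ⟨γ, fun _ => ⟨a, b⟩⟩
    · exact ⟨β, fun h' => absurd h' h⟩
  choose B hB using ch
  set Q : (ℕ → ℝ) → ℕ × ℕ := fun γ =>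
    (sInf {i | 40 < γ i}, Nat.findGreatest (asc ℓ γ) (sInf {i | 40 < γ i} + 30 * n)) with hQ
  have main : ∀ j ∈ U, B j ∈ S ∧ 40 < B j (Q (B j)).1 ∧ j ≤ (Q (B j)).2 ∧ (Q (B j)).2 ≤ 38 * n ∧
      Exc ℓ H (Q (B j)) ∧ (Q (B j)).1 + 10 ^ 9 < j ∧
      ∀ k, (Q (B j)).1 ≤ k → k + (Q (B j)).1 ≤ 2 * (Q (B j)).2 → 39 < B j k := fun j hj => by
    rw [hU, Finset.mem_filter, Finset.mem_Ico, mem_ot, mem_pa] at hj
    obtain ⟨⟨j1, j2⟩, j3, j4⟩ := hj
    obtain ⟨j5, -, j6⟩ := not_not.1 fun h => j3 ⟨by omega, h⟩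
    have j7 := (j6.resolve_left fun h => j4 ⟨by omega, h⟩).2
    obtain ⟨g1, g2⟩ := hB j (by linarith)
    generalize B j = γ at g1 g2 ⊢
    obtain ⟨r1, r2, r3⟩ := mn γ j (by linarith)
    simp only [hQ]
    set r := sInf {i | 40 < γ i} with hr
    have r4 : q ≤ r := by
      by_contra h
      have a1 : 3 ≤ γ q := by
        rcases T.tent γ g1 q with k | k
        · have a1 := k r (by omega)
          have a2 : (r : ℝ) * ℓ ≤ q * ℓ :=
            mul_le_mul_of_nonneg_right (by exact_mod_cast (by omega : r ≤ q)) l0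
          linarith
        · have a1 := k j j1
          have a2 : (q : ℝ) * ℓ ≤ j * ℓ := mul_le_mul_of_nonneg_right (by exact_mod_cast j1) l0
          linarith
      have a2 := T.sep γ g1 β hβ q a1 (by linarith)
      exact h (by rw [hr, a2])
    have as : asc ℓ γ j := (T.tent γ g1 j).resolve_right fun k => by
      have a1 := k (j + 1) (by omega)
      have a2 := (T.low g1 (Nat.le_succ j)).1
      simp only [Nat.succ_eq_add_one] at a2
      push_cast at a1 a2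
      rw [T.eq g1 (j := j + 1) (by linarith)] at j7
      linarith
    have e1 : j ≤ Nat.findGreatest (asc ℓ γ) (r + 30 * n) := Nat.le_findGreatest (by omega) as
    have e2 := Nat.findGreatest_le (P := asc ℓ γ) (r + 30 * n)
    exact ⟨g1, r1, e1, by omega, chain_exc T hℓ hY hL g1 (by omega) r2 j2 r1
      (r3 _ (by omega)) (by linarith) e1 e2 (Nat.findGreatest_spec (m := j) (by omega) as)
      fun h => Nat.findGreatest_is_greatest (Nat.lt_succ_self _) h⟩
  obtain ⟨F, f1, f2, f3⟩ := greedy (U.image fun j => Q (B j)) (fun p hp => by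
      obtain ⟨j, hj, rfl⟩ := Finset.mem_image.1 hp
      obtain ⟨-, -, a, -, -, b, -⟩ := main j hj
      omega) (fun p hp p' hp' hne => by
      obtain ⟨j, hj, rfl⟩ := Finset.mem_image.1 hp
      obtain ⟨k, hk, rfl⟩ := Finset.mem_image.1 hp'
      obtain ⟨a1, a2, -, -, -, -, a3⟩ := main j hj
      obtain ⟨b1, b2, -, -, -, -, b3⟩ := main k hk
      by_contra h
      refine hne (congrArg Q ?_)
      rcases le_total (Q (B j)).1 (Q (B k)).1 with c | c
      · exact T.sep _ a1 _ b1 (Q (B k)).1 (by linarith [a3 _ c (by omega)]) (by linarith)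
      · exact T.sep _ a1 _ b1 (Q (B j)).1 (by linarith) (by linarith [b3 _ c (by omega)]))
  have hF : ∀ p ∈ F, Exc ℓ H p ∧ p.1 + 10 ^ 9 < p.2 ∧ p.2 ≤ 38 * n := fun p hp => by
    obtain ⟨j, hj, rfl⟩ := Finset.mem_image.1 (f1 hp)
    obtain ⟨-, -, a, b, c, d, -⟩ := main j hj
    exact ⟨c, by omega, b⟩
  have hC : Chn (38 * n) F := ⟨fun p hp => by have := hF p hp; omega, f2⟩
  refine Or.inr ⟨F, hC, fun p hp => (hF p hp).1, le_trans ?_
    (chain_score (Y := Y) (R := R) T hℓ hC (fun p hp => (hF p hp).1) fun p hp => (hF p hp).2.1)⟩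
  have u2 : U.card ≤ ∑ p ∈ U.image fun j => Q (B j), (p.2 - p.1) := by
    refine (Finset.card_le_card (t := (U.image fun j => Q (B j)).biUnion
      fun p => Finset.Ioc p.1 p.2) fun j hj => ?_).trans (Finset.card_biUnion_le.trans ?_)
    · obtain ⟨-, -, a, -, -, b, -⟩ := main j hj
      exact Finset.mem_biUnion.2 ⟨_, Finset.mem_image_of_mem _ hj,
        Finset.mem_Ioc.2 ⟨by omega, a⟩⟩
    · simp
  have u3 : (U.card : ℝ) ≤ 2 * (∑ p ∈ F, (p.2 - p.1) : ℕ) := by exact_mod_cast u2.trans f3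
  have n0 : (10 ^ 6 : ℝ) ≤ n := by exact_mod_cast hn
  linarith

end Pool.Agent.Lib.MP_a52643_an.NE
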