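import Pool.Agent.Lib.MP_a52643_an.NE.Defs

/-!
The measure of the sets of descents.
-/

open MeasureTheory Set Filter Topology Metric UpperHalfPlane
open scoped ENNReal MatrixGroups Real FourierTransform ComplexConjugate

noncomputable section

namespace Pool.Agent.Lib.MP_a52643_an.NE

open NS hiding nr Zt Zs isOpen_Zt isOpen_Zs

lemma neVol_grid (p : ℝ) {y : ℝ} (hy : 0 < y) (u : ℝ) : ∃ s : Finset ℝ,
    s.card ≤ ⌊u⌋₊ + 1 ∧ ∀ x ∈ Icc p (p + u * y), ∃ z ∈ s, x ∈ Icc z (z + y) := by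
  refine ⟨(Finset.range (⌊u⌋₊ + 1)).image fun i : ℕ => p + i * y,
    Finset.card_image_le.trans (Finset.card_range _).le, fun x hx => ?_⟩
  have h0 : 0 ≤ (x - p) / y := div_nonneg (sub_nonneg.2 hx.1) hy.le
  have h1 : (x - p) / y ≤ u := by rw [div_le_iff₀ hy]; linarith [hx.2]
  have h2 := Nat.floor_le h0
  have h3 := Nat.lt_floor_add_one ((x - p) / y)
  rw [le_div_iff₀ hy] at h2
  rw [div_lt_iff₀ hy] at h3
  exact ⟨_, Finset.mem_image.2 ⟨⌊(x - p) / y⌋₊,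
    Finset.mem_range.2 (Nat.lt_succ_of_le (Nat.floor_le_floor h1)), rfl⟩, by linarith, by linarith⟩

lemma neVol_step {A B : Set ℝ} {y v K : ℝ} (hv : 0 ≤ v)
    (h : ∀ z, volume (A ∩ Icc z (z + y)) ≤ ENNReal.ofReal v) (s : Finset ℝ) (hs : (s.card : ℝ) ≤ K)
    (hc : ∀ x ∈ A ∩ B, ∃ z ∈ s, x ∈ Icc z (z + y)) : volume (A ∩ B) ≤ ENNReal.ofReal (K * v) :=
  calc volume (A ∩ B) ≤ volume (⋃ z ∈ s, A ∩ Icc z (z + y)) := measure_mono fun x hx => by
        obtain ⟨z, hz, h⟩ := hc x hx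
        exact mem_biUnion hz ⟨hx.1, h⟩
    _ ≤ ∑ z ∈ s, volume (A ∩ Icc z (z + y)) := measure_biUnion_finset_le _ _
    _ ≤ s.card • ENNReal.ofReal v := Finset.sum_le_card_nsmul _ _ _ fun z _ => h z
    _ ≤ ENNReal.ofReal (K * v) := by
        rw [nsmul_eq_mul, ← ENNReal.ofReal_natCast, ← ENNReal.ofReal_mul (Nat.cast_nonneg _)]
        exact ENNReal.ofReal_le_ofReal (mul_le_mul_of_nonneg_right hs hv)

lemma neVol_cd_top (a : Finset ℕ) {m k : ℕ} (h : m ≤ k) :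
    cd a m (k + 1) = cd a m k + if k ∈ a then 1 else 0 := by
  unfold cd
  rw [← Finset.insert_Ico_right_eq_Ico_add_one h]
  split_ifs with hk
  · rw [Finset.inter_insert_of_mem hk, Finset.card_insert_of_notMem (by simp)]
    push_cast; rfl
  · rw [Finset.inter_insert_of_notMem hk, add_zero]

lemma neVol_cd_bot (a : Finset ℕ) {m k : ℕ} (h : m < k) :
    cd a m k = cd a (m + 1) k + if m ∈ a then 1 else 0 := by
  unfold cd
  rw [← Finset.insert_Ico_add_one_left_eq_Ico h]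
  split_ifs with hk
  · rw [Finset.inter_insert_of_mem hk, Finset.card_insert_of_notMem (by simp)]
    push_cast; rfl
  · rw [Finset.inter_insert_of_notMem hk, add_zero]

variable {Λ C : Set SL2} {η : ℍ → ℝ}

theorem Cu.cover (H : Cu Λ C η) : ∃ K : ℝ, ∀ t ≤ (12 : ℝ), ∀ ℓ ≥ (10 : ℝ),
    ∀ (g : SL2) (τ x₀ : ℝ), ∃ s : Finset ℝ, (s.card : ℝ) ≤ K ∧
      ∀ x ∈ Icc x₀ (x₀ + Real.exp (τ + ℓ)), nr η t ℓ g τ x →
        ∃ y ∈ s, x ∈ Icc y (y + Real.exp τ) := by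
  refine ⟨(⌊4 * Real.exp 6⌋₊ + 1 : ℕ), fun t htt ℓ hℓ g τ x₀ => ?_⟩
  by_cases h : ∃ x ∈ Icc x₀ (x₀ + Real.exp (τ + ℓ)), nr η t ℓ g τ x
  swap
  · exact ⟨∅, by simp only [Finset.card_empty]; exact_mod_cast Nat.zero_le _,
      fun x hx hn => absurd ⟨x, hx, hn⟩ h⟩
  obtain ⟨x₁, hx₁, n₁⟩ := h
  obtain ⟨M, hM, e₁⟩ := H.ex (g • pt x₁ (τ + ℓ)) (by linarith [n₁.1])
  obtain ⟨s, s1, s2⟩ := neVol_grid (-(ed (M * g) / ec (M * g)) - 2 * Real.exp 6 * Real.exp τ)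
    (Real.exp_pos τ) (4 * Real.exp 6)
  refine ⟨s, by exact_mod_cast s1, fun x hx hn => s2 x ?_⟩
  have d1 : dist (g • pt x (τ + ℓ)) (g • pt x₁ (τ + ℓ)) ≤ 1 := by
    rw [dist_smul]
    refine (dist_pt_le _ _ _).trans ?_
    rw [Real.exp_neg, ← div_eq_mul_inv, div_le_one (Real.exp_pos _), abs_le]
    exact ⟨by linarith [hx.1, hx₁.2], by linarith [hx.2, hx₁.1]⟩
  have u1 : 3 ≤ ht M (g • pt x (τ + ℓ)) := by
    linarith [abs_le.1 ((ht_lip M _ _).trans d1), n₁.1]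
  have u2 := H.eq hM u1
  obtain ⟨M', hM', e₂⟩ := H.ex (g • pt x τ) (by linarith [hn.1, hn.2])
  have d2 : dist (g • pt x (τ + ℓ)) (g • pt x τ) = ℓ := by
    rw [dist_smul, dist_pt_eq, add_sub_cancel_left, abs_of_nonneg (by linarith)]
  have u3 : 3 ≤ ht M' (g • pt x (τ + ℓ)) := by
    linarith [abs_le.1 ((ht_lip M' _ _).trans d2.le), hn.1, hn.2]
  have u4 := hn.2
  rw [u2, ← e₂, ← H.sep M hM M' hM' _ u1 u3, ht_pt, ht_pt] at u4
  have hA := den_pos (M * g) x τ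
  have hB := den_pos (M * g) x (τ + ℓ)
  generalize ec (M * g) = c at *
  generalize ed (M * g) = d at *
  have u5 : ((c * x + d) ^ 2 + c ^ 2 * Real.exp τ ^ 2) * Real.exp (2 * ℓ - 12) <
      (c * x + d) ^ 2 + c ^ 2 * Real.exp (τ + ℓ) ^ 2 := by
    rw [← Real.log_lt_log_iff (by positivity) hB, Real.log_mul hA.ne' (Real.exp_pos _).ne',
      Real.log_exp]
    linarith
  have e3 : Real.exp (τ + ℓ) ^ 2 = (Real.exp 6 * Real.exp τ) ^ 2 * Real.exp (2 * ℓ - 12) := by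
    rw [← Real.exp_add, sq, sq, ← Real.exp_add, ← Real.exp_add, ← Real.exp_add]
    congr 1
    ring
  have e4 : 2 ≤ Real.exp (2 * ℓ - 12) := by linarith [Real.add_one_le_exp (2 * ℓ - 12)]
  rw [e3] at u5
  have r0 : 0 < Real.exp 6 * Real.exp τ := by positivity
  rw [mul_assoc 2, mul_assoc 4]
  generalize Real.exp 6 * Real.exp τ = r at *
  generalize Real.exp (2 * ℓ - 12) = E at *
  have u6 : (c * x + d) ^ 2 < 2 * (c ^ 2 * r ^ 2) := by
    have b1 : 0 ≤ c ^ 2 * Real.exp τ ^ 2 * E := by positivity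
    have b2 : (c * x + d) ^ 2 * E < 2 * (c ^ 2 * r ^ 2) * E := by
      nlinarith [mul_le_mul_of_nonneg_left e4 (sq_nonneg (c * x + d))]
    exact lt_of_mul_lt_mul_right b2 (by linarith)
  have c0 : c ≠ 0 := by
    rintro rfl
    nlinarith [sq_nonneg (0 * x + d)]
  have u7 : (x + d / c) ^ 2 ≤ (2 * r) ^ 2 := by
    have b1 : (c * x + d) ^ 2 = c ^ 2 * (x + d / c) ^ 2 := by field_simp
    have b2 : 0 < c ^ 2 := by positivity
    refine le_of_mul_le_mul_left ?_ b2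
    nlinarith [mul_pos b2 (pow_pos r0 2)]
  have u8 := abs_le_of_sq_le_sq' u7 (by linarith)
  exact ⟨by linarith [u8.1], by linarith [u8.2]⟩

theorem Cu.vol (H : Cu Λ C η) : ∃ K : ℝ, 1 ≤ K ∧ ∀ t ≤ (12 : ℝ), ∀ ℓ ≥ (10 : ℝ),
    ∀ (g : SL2) (τ : ℝ) (a : Finset ℕ) (m k : ℕ) (x₀ : ℝ), m ≤ k →
      volume (Zt η t ℓ g τ a ∩ Icc x₀ (x₀ + Real.exp (τ + k * ℓ)))
        ≤ ENNReal.ofReal (K ^ (k - m) * Real.exp (τ + k * ℓ - ℓ * cd a m k)) ∧
      volume (Zs η t ℓ g τ a ∩ Icc x₀ (x₀ + Real.exp (-τ - m * ℓ)))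
        ≤ ENNReal.ofReal (K ^ (k - m) * Real.exp (-τ - m * ℓ - ℓ * cd a m k)) := by
  obtain ⟨C, H⟩ := H.cover
  refine ⟨max C 2, (by norm_num : (1 : ℝ) ≤ 2).trans (le_max_right _ _),
    fun t ht ℓ hℓ g τ a m k x₀ hmk => ?_⟩
  have l0 : 0 ≤ ℓ := by linarith
  have k1 : C ≤ max C 2 := le_max_left _ _
  have k2 : 2 ≤ max C 2 := le_max_right _ _
  replace H := H t ht ℓ hℓ g
  generalize max C 2 = K at k1 k2
  have one : ∀ (A : Set ℝ) (σ c : ℝ) (n j : ℕ), (j ∈ a → ∀ x ∈ A, nr η t ℓ g σ x) →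
      (∀ z, volume (A ∩ Icc z (z + Real.exp σ)) ≤ ENNReal.ofReal (K ^ n * Real.exp (σ - ℓ * c))) →
      ∀ z, volume (A ∩ Icc z (z + Real.exp (σ + ℓ))) ≤ ENNReal.ofReal
        (K ^ (n + 1) * Real.exp (σ + ℓ - ℓ * (c + if j ∈ a then 1 else 0))) := by
    intro A σ c n j hj h z
    split_ifs with hja
    · obtain ⟨s, s1, s2⟩ := H σ z
      refine (neVol_step (by positivity) h s (s1.trans k1)
        fun x hx => s2 x hx.2 (hj hja x hx.1)).trans (le_of_eq ?_)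
      congr 1
      rw [show σ + ℓ - ℓ * (c + 1) = σ - ℓ * c by ring]
      ring
    · obtain ⟨s, s1, s2⟩ := neVol_grid z (Real.exp_pos σ) (Real.exp ℓ)
      have s3 : (s.card : ℝ) ≤ K * Real.exp ℓ := by
        have h1 : (s.card : ℝ) ≤ ⌊Real.exp ℓ⌋₊ + 1 := by exact_mod_cast s1
        nlinarith [Nat.floor_le (Real.exp_pos ℓ).le, Real.one_le_exp l0]
      refine (neVol_step (by positivity) h s s3 fun x hx => s2 x ?_).trans (le_of_eq ?_)
      · rw [← Real.exp_add, add_comm ℓ]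
        exact hx.2
      · congr 1
        rw [show σ + ℓ - ℓ * (c + 0) = ℓ + (σ - ℓ * c) by ring, Real.exp_add ℓ]
        ring
  have base : ∀ (A : Set ℝ) (σ z : ℝ) (m : ℕ), volume (A ∩ Icc z (z + Real.exp σ)) ≤
      ENNReal.ofReal (K ^ 0 * Real.exp (σ - ℓ * cd a m m)) := fun A σ z m => by
    refine (measure_mono inter_subset_right).trans (le_of_eq ?_)
    simp [cd]
  constructor
  · induction k, hmk using Nat.le_induction generalizing x₀ with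
    | base => rw [Nat.sub_self]; exact base _ _ _ _
    | succ k hk ih =>
      have := one (Zt η t ℓ g τ a) (τ + k * ℓ) (cd a m k) (k - m) k (fun h x hx => hx k h) ih x₀
      rwa [← neVol_cd_top a hk, ← Nat.sub_add_comm hk,
        show τ + k * ℓ + ℓ = τ + (k + 1 : ℕ) * ℓ by push_cast; ring] at this
  · obtain ⟨n, rfl⟩ := Nat.exists_eq_add_of_le hmk
    rw [Nat.add_sub_cancel_left]
    clear hmk
    induction n generalizing m x₀ with
    | zero => exact base _ _ _ _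
    | succ n ih =>
      have := one (Zs η t ℓ g τ a) (-τ - (m + 1 : ℕ) * ℓ) (cd a (m + 1) (m + 1 + n)) n m
        (fun h x hx => by push_cast; exact hx m h) (ih (m + 1)) x₀
      rwa [← neVol_cd_bot a (by omega), show m + 1 + n = m + (n + 1) by omega,
        show -τ - (m + 1 : ℕ) * ℓ + ℓ = -τ - m * ℓ by push_cast; ring] at this

end Pool.Agent.Lib.MP_a52643_an.NE
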