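import Pool.Agent.Lib.MP_a52643_an.NE.Maj
import Pool.Agent.Lib.MP_a52643_an.NE.Vol
import Pool.Agent.Lib.MP_a52643_an.NS.Step

/-!
The majorant at the bottom of an excursion.
-/

open MeasureTheory Set Filter Topology Metric UpperHalfPlane
open scoped ENNReal MatrixGroups Real FourierTransform ComplexConjugate

noncomputable section

namespace Pool.Agent.Lib.MP_a52643_an.NE

open NS hiding nr Zt Zs isOpen_Zt isOpen_Zs

variable {Λ C : Set SL2} {η : ℍ → ℝ}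

private lemma curv_v (s u : ℝ) : dist (vG s • pt 0 u) (pt 0 u) ≤ |s| * Real.exp u := by
  have e : ∀ s : ℝ, vG s • pt 0 u = wG • pt (-s) (-u) := fun s => by
    have := bp_vG_aG 1 (-s) (-u)
    rwa [neg_neg, one_mul, one_mul, bp_mul, bp_aG, neg_neg] at this
  have e0 := e 0
  rw [vG_zero, one_smul] at e0
  have := dist_pt_le (-s) (-0) (-u)
  rw [← dist_smul wG, ← e, ← e0] at this
  simpa using this

private lemma curv_shadow (G : SL2) (x u : ℝ) (h : ec G * x + ed G ≠ 0) :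
    dist (G • pt x u) (pt (mob G x) (u - Real.log ((ec G * x + ed G) ^ 2)))
      ≤ |ec G / (ec G * x + ed G)| * Real.exp u := by
  have hd := det_eq G
  set D := ec G * x + ed G with hD
  set T : SL2 := mkG D⁻¹ 0 0 D (by simp [h]) with hT
  have e1 : G * uG x = uG (mob G x) * T * vG (ec G / D) := by
    apply SL2_ext <;> simp [uG, vG, hT, mob, ← hD]
    · field_simp
      rw [hD]; linear_combination hd
    all_goals field_simp
  have e2 : T • pt 0 u = pt 0 (u - Real.log (D ^ 2)) := by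
    apply UpperHalfPlane.ext
    have h0 : (D : ℂ) ≠ 0 := by exact_mod_cast h
    rw [coe_act, coe_pt, coe_pt, Real.exp_sub, Real.exp_log (by positivity)]
    simp only [hT, ea_mkG, eb_mkG, ec_mkG, ed_mkG]
    push_cast [-Complex.ofReal_exp]
    simp only [zero_mul, zero_add, add_zero]
    field_simp
  have e3 : G • pt x u = (uG (mob G x) * T) • vG (ec G / D) • pt 0 u := by
    rw [← mul_smul, ← e1, mul_smul, uG_pt, zero_add]
  have e4 : pt (mob G x) (u - Real.log (D ^ 2)) = (uG (mob G x) * T) • pt 0 u := by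
    rw [mul_smul, e2, uG_pt, zero_add]
  rw [e3, e4, dist_smul]
  exact curv_v _ _

private lemma curv_near (G : SL2) {x u δ : ℝ} (hδ : 0 < δ)
    (h1 : 9 / 10 * δ ≤ |ec G * x + ed G|) (h2 : |ec G * x + ed G| ≤ 11 / 10 * δ)
    (h3 : 20 * (|ec G| * Real.exp u) ≤ δ) :
    dist (pt (mob G x) (u - Real.log (δ ^ 2))) (G • pt x u) ≤ 1 := by
  have h0 : 0 < |ec G * x + ed G| := by linarith
  have a1 := curv_shadow G x u (abs_pos.1 h0)
  have a2 := dist_pt_eq (mob G x) (u - Real.log (δ ^ 2)) (u - Real.log ((ec G * x + ed G) ^ 2))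
  have a3 := dist_triangle (pt (mob G x) (u - Real.log (δ ^ 2)))
    (pt (mob G x) (u - Real.log ((ec G * x + ed G) ^ 2))) (G • pt x u)
  rw [dist_comm] at a1
  rw [abs_div, div_mul_eq_mul_div] at a1
  rw [← sq_abs (ec G * x + ed G)] at a1 a2 a3
  generalize |ec G * x + ed G| = D at *
  have b1 : |ec G| * Real.exp u / D ≤ 1 / 2 := by
    rw [div_le_iff₀ h0]; linarith
  have b2 : Real.log (D ^ 2) - Real.log (δ ^ 2) ≤ 1 / 2 := by
    rw [← Real.log_div (by positivity) (by positivity)]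
    refine (Real.log_le_sub_one_of_pos (by positivity)).trans ?_
    rw [sub_le_iff_le_add, div_le_iff₀ (by positivity)]
    nlinarith
  have b3 : Real.log (δ ^ 2) - Real.log (D ^ 2) ≤ 1 / 2 := by
    rw [← Real.log_div (by positivity) (by positivity)]
    refine (Real.log_le_sub_one_of_pos (by positivity)).trans ?_
    rw [sub_le_iff_le_add, div_le_iff₀ (by positivity)]
    nlinarith
  have b4 : |u - Real.log (δ ^ 2) - (u - Real.log (D ^ 2))| ≤ 1 / 2 := abs_le.2 ⟨by linarith, by linarith⟩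
  linarith

/-- the chart of an excursion -/
private lemma curv_chart (H : Cu Λ C η) (g : SL2) {xb u v w ℓ : ℝ} (hℓ : 100 ≤ ℓ)
    (huv : u + ℓ ≤ v) (h3 : 40 < η (g • pt xb u)) (h4 : η (g • pt xb u) ≤ ℓ + 40)
    (h5 : v - u - 1 < η (g • pt xb v) - η (g • pt xb u))
    (h6 : η (g • pt xb w) - η (g • pt xb u) ≤ w - u - 1) :
    ∃ M ∈ C, ∃ δ : ℝ, 0 < δ ∧ δ = |ec (M * g) * xb + ed (M * g)| ∧
      20 * (|ec (M * g)| * Real.exp (v - ℓ)) ≤ δ ∧ δ ≤ |ec (M * g)| * Real.exp w ∧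
      40 ≤ u - Real.log (δ ^ 2) ∧ u - Real.log (δ ^ 2) ≤ ℓ + 41 := by
  obtain ⟨M, hM, e1⟩ := H.ex (g • pt xb v) (by linarith)
  have l1 := ht_lip M (g • pt xb v) (g • pt xb u)
  rw [dist_smul, dist_pt_eq, abs_of_nonneg (show 0 ≤ v - u by linarith)] at l1
  have e2 := H.eq hM (z := g • pt xb u) (by linarith [(abs_le.1 l1).2])
  have e3 := H.le M hM (g • pt xb w)
  have p1 := den_pos (M * g) xb u
  have p2 := den_pos (M * g) xb v
  have p3 := den_pos (M * g) xb w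
  rw [ht_pt] at e1 e2 e3
  refine ⟨M, hM, |ec (M * g) * xb + ed (M * g)|, ?_⟩
  rw [← sq_abs (ec (M * g) * xb + ed (M * g)), ← sq_abs (ec (M * g)), ← mul_pow]
    at e1 e2 e3 p1 p2 p3
  have c0 := abs_nonneg (ec (M * g))
  have d0 := abs_nonneg (ec (M * g) * xb + ed (M * g))
  generalize |ec (M * g) * xb + ed (M * g)| = δ at *
  generalize |ec (M * g)| = c at *
  have x1 : Real.exp 1 ≤ 3 := Real.exp_one_lt_three.le
  have x2 : 2 ≤ Real.exp 1 := by linarith [Real.add_one_le_exp (1 : ℝ)]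
  have x3 : 40 ≤ Real.exp ℓ := by linarith [Real.add_one_le_exp ℓ]
  have y1 : Real.exp v = Real.exp (v - ℓ) * Real.exp ℓ := by rw [← Real.exp_add]; ring_nf
  have y2 : c * Real.exp u ≤ c * Real.exp (v - ℓ) :=
    mul_le_mul_of_nonneg_left (Real.exp_le_exp.2 (by linarith)) c0
  have y3 : 40 * (c * Real.exp (v - ℓ)) ≤ c * Real.exp v := by
    rw [y1]; nlinarith [mul_nonneg c0 (Real.exp_pos (v - ℓ)).le]
  have y4 : 0 ≤ c * Real.exp u := mul_nonneg c0 (Real.exp_pos _).le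
  have y5 : 0 ≤ c * Real.exp w := mul_nonneg c0 (Real.exp_pos _).le
  generalize c * Real.exp u = A at *
  generalize c * Real.exp v = B at *
  generalize c * Real.exp w = E at *
  generalize c * Real.exp (v - ℓ) = B' at *
  have k1 : δ ^ 2 + B ^ 2 ≤ 3 * (δ ^ 2 + A ^ 2) := by
    have : Real.log (δ ^ 2 + B ^ 2) ≤ Real.log (Real.exp 1 * (δ ^ 2 + A ^ 2)) := by
      rw [Real.log_mul (Real.exp_pos _).ne' p1.ne', Real.log_exp]; linarith
    have := (Real.log_le_log_iff p2 (by positivity)).1 this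
    nlinarith
  have k2 : 2 * (δ ^ 2 + A ^ 2) ≤ δ ^ 2 + E ^ 2 := by
    have : Real.log (Real.exp 1 * (δ ^ 2 + A ^ 2)) ≤ Real.log (δ ^ 2 + E ^ 2) := by
      rw [Real.log_mul (Real.exp_pos _).ne' p1.ne', Real.log_exp]; linarith
    have := (Real.log_le_log_iff (by positivity) p3).1 this
    nlinarith
  have k3 : B ≤ 2 * δ := by
    refine abs_le_of_sq_le_sq' ?_ (by linarith) |>.2
    nlinarith
  have k4 : 0 < δ := by
    rcases d0.eq_or_lt with h | h
    · exfalso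
      have hA : A = 0 := by linarith
      rw [← h, hA] at p1
      simp at p1
    · exact h
  refine ⟨k4, rfl, by linarith, ?_, ?_, ?_⟩
  · refine abs_le_of_sq_le_sq' ?_ y5 |>.2
    nlinarith
  · have : Real.log (δ ^ 2) ≤ Real.log (δ ^ 2 + A ^ 2) :=
      Real.log_le_log (by positivity) (by nlinarith)
    linarith
  · have : Real.log (δ ^ 2 + A ^ 2) ≤ Real.log (Real.exp 1 * δ ^ 2) :=
      Real.log_le_log p1 (by nlinarith)
    rw [Real.log_mul (Real.exp_pos _).ne' (by positivity), Real.log_exp] at this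
    linarith

theorem Cu.cmaj (H : Cu Λ C η) : ∃ K : ℝ, 1 ≤ K ∧ ∀ ℓ ≥ (100 : ℝ),
    ∀ (g : SL2) (τ : ℝ) (a : Finset ℕ) (p : ℕ × ℕ) (xb : ℝ), Exc ℓ (hv η ℓ g τ xb) p →
      ∃ ψ : ℝ → ℝ, Measurable ψ ∧ (∀ x, 0 ≤ ψ x) ∧ Integrable ψ ∧
        (∀ x ∈ Zt η 5 ℓ g τ (a ∩ Finset.Ico (p.1 - mm p) p.1),
          |x - xb| ≤ 2 * Real.exp (τ + (p.2 - 1 : ℕ) * ℓ) → 1 ≤ ψ x) ∧
        ∫ x, ψ x ≤ K ^ (mm p + 1) * Real.exp (τ + p.2 * ℓ - ℓ * cd a (p.1 - mm p) p.1) ∧
        ∀ ξ, Real.exp (-τ - p.1 * ℓ) ≤ |ξ| → ‖𝓕 (fun x => (ψ x : ℂ)) ξ‖ ≤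
          K ^ (mm p + 1) * Real.exp (τ + (p.2 - mm p) * ℓ - ℓ * cd a (p.1 - mm p) p.1) := by
  obtain ⟨Km, hKm, Hm⟩ := curved_maj
  obtain ⟨Kv, hKv, Hv⟩ := H.vol
  have x41 : 1 ≤ Real.exp 41 := Real.one_le_exp (by norm_num)
  have hK : 1 ≤ Km * 5 * Real.exp 41 := by nlinarith
  refine ⟨Kv * (Km * 5 * Real.exp 41), one_le_mul_of_one_le_of_one_le hKv hK, ?_⟩
  rintro ℓ hℓ g τ a ⟨q, e⟩ xb ⟨h1, h2, h3, h4, h5, h6⟩
  simp only [hv] at h1 h2 h3 h4 h5 h6 ⊢
  have l0 : (0 : ℝ) ≤ ℓ := by linarith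
  set m := mm (q, e) with hm
  set κ := 11 * (e - q) / 6 with hκ
  have m1 : 4 ≤ m := by simp only [hm, mm]; omega
  have m2 : 4 * m + κ + 2 + 2 * q ≤ 2 * e := by simp only [hm, mm, hκ]; omega
  have m1' : (4 : ℝ) ≤ m := by exact_mod_cast m1
  have m2' : (4 : ℝ) * m + κ + 2 + 2 * q ≤ 2 * e := by exact_mod_cast m2
  have k0 : (0 : ℝ) ≤ κ * ℓ := by positivity
  have n1 := mul_le_mul_of_nonneg_right m1' l0
  have n2 := mul_le_mul_of_nonneg_right m2' l0
  have c1 : ((e - 1 : ℕ) : ℝ) = e - 1 := by rw [Nat.cast_sub (by omega)]; simp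
  have c2 : ((q - m : ℕ) : ℝ) = q - m := Nat.cast_sub h2
  obtain ⟨M, hM, δ, d0, d1, d2, d3, d4, d5⟩ := curv_chart H g (xb := xb) (u := τ + q * ℓ)
    (v := τ + e * ℓ) (w := τ + (q + κ : ℕ) * ℓ) hℓ (by linarith) h3 h4 (by linarith)
    (by push_cast at h6 ⊢; linarith)
  set G := M * g with hG
  set w := Real.log (δ ^ 2) with hw
  set ρ₁ := Real.exp (τ + e * ℓ - ℓ) with hρ₁
  have hρ₁' : Real.exp (τ + (e - 1 : ℕ) * ℓ) = ρ₁ := by rw [c1, hρ₁]; ring_nf
  have r0 : 0 < ρ₁ := Real.exp_pos _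
  have c0 : 0 < |ec G| := by
    rcases (abs_nonneg (ec G)).eq_or_lt with h | h
    · rw [← h, zero_mul] at d3; linarith
    · exact h
  have hD : ∀ x, |x - xb| ≤ 2 * ρ₁ →
      9 / 10 * δ ≤ |ec G * x + ed G| ∧ |ec G * x + ed G| ≤ 11 / 10 * δ := fun x hx => by
    have a1 : |(ec G * x + ed G) - (ec G * xb + ed G)| ≤ δ / 10 := by
      rw [show ec G * x + ed G - (ec G * xb + ed G) = ec G * (x - xb) by ring, abs_mul]
      nlinarith
    have a2 := abs_le.1 ((abs_abs_sub_abs_le_abs_sub _ _).trans a1)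
    rw [← d1] at a2
    constructor <;> linarith [a2.1, a2.2]
  set A := cd a (q - m) q with hA
  set v := Kv ^ m * Real.exp (ℓ + 41 - ℓ * A) with hv
  have v0 : 0 ≤ v := by positivity
  set ρ := Real.exp (τ - w + (q - m : ℕ) * ℓ) with hρ
  have vol : volume (Zt η 9 ℓ M⁻¹ (τ - w) (a ∩ Finset.Ico (q - m) q) ∩ Icc 0 1)
      ≤ ENNReal.ofReal v := by
    have a1 := (Hv 9 (by norm_num) ℓ (by linarith) M⁻¹ (τ - w) (a ∩ Finset.Ico (q - m) q) (q - m) q
      0 (Nat.sub_le _ _)).1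
    rw [step_cd a le_rfl, Nat.sub_sub_self h2] at a1
    refine le_trans (measure_mono (inter_subset_inter_right _ (Icc_subset_Icc_right ?_)))
      (a1.trans (ENNReal.ofReal_le_ofReal ?_))
    · rw [zero_add]
      exact Real.one_le_exp (by linarith)
    · exact mul_le_mul_of_nonneg_left (Real.exp_le_exp.2 (by linarith)) (by positivity)
  obtain ⟨ψ, p1, p2, p3, p4, p5, p6⟩ := Hm _ ρ v G (xb - 2 * ρ₁) (4 * ρ₁) δ
    (H.isOpen_Zt 9 ℓ M⁻¹ (τ - w) (a ∩ Finset.Ico (q - m) q)).measurableSet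
    (fun s => by simp only [Zt, nr, mem_ofPred_eq, H.per M hM]) (Real.exp_pos _)
    (Real.exp_le_one_iff.2 (by rw [c2]; linarith)) v0 vol (by positivity) d0 (abs_pos.1 c0)
    (fun x hx => by
      have := hD x (abs_le.2 ⟨by linarith [hx.1], by linarith [hx.2]⟩)
      constructor <;> linarith [this.1, this.2])
  have hE : √(δ ^ 3 / |ec G|) / ρ ≤ Real.exp (τ + q * ℓ + (m + κ / 2) * ℓ) := by
    have a1 : δ = Real.exp (w / 2) := by
      rw [hw, Real.log_pow]; push_cast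
      rw [mul_div_cancel_left₀ _ (by norm_num), Real.exp_log d0]
    have a2 : √(δ ^ 3 / |ec G|) ≤ δ * Real.exp ((τ + (q + κ : ℕ) * ℓ) / 2) := by
      rw [Real.sqrt_le_left (by positivity), div_le_iff₀ c0, mul_pow, sq (Real.exp _), exp_half]
      nlinarith [mul_le_mul_of_nonneg_left d3 (sq_nonneg δ)]
    rw [div_le_iff₀ (Real.exp_pos _)]
    refine a2.trans ?_
    rw [a1, ← Real.exp_add, ← Real.exp_add, Real.exp_le_exp, c2]
    push_cast
    have a3 : τ + q * ℓ - w ≥ 0 := by linarith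
    linarith
  have hKp : Km * 5 * Real.exp 41 * Kv ^ m ≤ (Kv * (Km * 5 * Real.exp 41)) ^ (m + 1) := by
    rw [mul_pow, mul_comm]
    exact mul_le_mul (pow_le_pow_right₀ hKv (Nat.le_succ m)) (le_self_pow₀ hK (by omega))
      (by positivity) (by positivity)
  have fin : ∀ s y : ℝ, y ≤ 5 * Real.exp (s - ℓ) → Km * v * y ≤
      (Kv * (Km * 5 * Real.exp 41)) ^ (m + 1) * Real.exp (s - ℓ * A) := fun s y hy => by
    have a1 : Real.exp (ℓ + 41 - ℓ * A) * Real.exp (s - ℓ)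
        = Real.exp 41 * Real.exp (s - ℓ * A) := by
      rw [← Real.exp_add, ← Real.exp_add]; ring_nf
    calc Km * v * y ≤ Km * v * (5 * Real.exp (s - ℓ)) := by gcongr
      _ = Km * 5 * Kv ^ m * (Real.exp (ℓ + 41 - ℓ * A) * Real.exp (s - ℓ)) := by rw [hv]; ring
      _ = Km * 5 * Real.exp 41 * Kv ^ m * Real.exp (s - ℓ * A) := by rw [a1]; ring
      _ ≤ _ := by gcongr
  refine ⟨ψ, p1, p2, p3, fun x hx hx' => ?_, p5.trans (fin _ _ ?_), fun ξ hξ => ?_⟩
  · rw [hρ₁'] at hx'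
    obtain ⟨b1, b2⟩ := hD x hx'
    refine p4 x ⟨by linarith [(abs_le.1 hx').1], by linarith [(abs_le.1 hx').2]⟩ fun s hs j hj => ?_
    have hj' := Finset.mem_Ico.1 (Finset.mem_inter.1 hj).2
    have j1 : ((q - m : ℕ) : ℝ) ≤ j := by exact_mod_cast hj'.1
    have j2 : (j : ℝ) + 1 ≤ q := by exact_mod_cast hj'.2
    have j3 := mul_le_mul_of_nonneg_right j1 l0
    have j4 := mul_le_mul_of_nonneg_right j2 l0
    have k : ∀ u, u ≤ τ + q * ℓ → |η (M⁻¹ • pt (mob G x) (u - w)) - η (g • pt x u)| ≤ 1 :=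
      fun u hu => by
        refine (H.lip _ _).trans ?_
        rw [← dist_smul M, smul_inv_smul, ← mul_smul]
        refine curv_near G d0 b1 b2 (le_trans ?_ d2)
        have : Real.exp u ≤ ρ₁ := Real.exp_le_exp.2 (by linarith)
        gcongr
    have n7 : nr η (5 + 2 * 1) ℓ M⁻¹ (τ - w + j * ℓ) (mob G x) := by
      refine dn.move (hx j hj) ?_ ?_
      · rw [show τ - w + j * ℓ = τ + j * ℓ - w by ring]
        exact k _ (by linarith)
      · rw [show τ - w + j * ℓ + ℓ = τ + j * ℓ + ℓ - w by ring]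
        exact k _ (by linarith)
    have n9 := H.nr_move (x' := s) (ρ := 1) n7 l0 (by
      rw [one_mul]
      exact hs.trans (Real.exp_le_exp.2 (by linarith)))
    exact dn.mono n9 (by norm_num)
  · have : Real.exp (τ + q * ℓ + (m + κ / 2) * ℓ) ≤ ρ₁ := Real.exp_le_exp.2 (by linarith)
    linarith
  · have x0 : 0 < |ξ| := (Real.exp_pos _).trans_le hξ
    refine (p6 ξ (abs_pos.1 x0)).trans (fin _ _ ?_)
    have a1 : 1 / |ξ| ≤ Real.exp (τ + q * ℓ) := by
      rw [div_le_iff₀ x0]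
      refine le_trans (le_of_eq ?_) (mul_le_mul_of_nonneg_left hξ (Real.exp_pos _).le)
      rw [← Real.exp_add, show τ + q * ℓ + (-τ - q * ℓ) = 0 by ring, Real.exp_zero]
    have a2 : Real.exp (τ + q * ℓ) ≤ Real.exp (τ + (e - m) * ℓ - ℓ) :=
      Real.exp_le_exp.2 (by linarith)
    have a3 : Real.exp (τ + q * ℓ + (m + κ / 2) * ℓ) ≤ Real.exp (τ + (e - m) * ℓ - ℓ) :=
      Real.exp_le_exp.2 (by linarith)
    linarith [Real.exp_pos (τ + (e - m) * ℓ - ℓ)]

end Pool.Agent.Lib.MP_a52643_an.NE
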