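import Pool.Agent.Lib.MP_a52643_an.NE.Defs
import Pool.Agent.Lib.MP_a52643_an.H6CAll

/-!
The height of a finite area quotient.
-/

open MeasureTheory Set Filter Topology Metric UpperHalfPlane
open scoped ENNReal MatrixGroups Real FourierTransform ComplexConjugate

noncomputable section

namespace Pool.Agent.Lib.MP_a52643_an.NE

open NS hiding nr Zt Zs isOpen_Zt isOpen_Zs

variable {Λ C : Set SL2} {η : ℍ → ℝ}

open scoped ContDiff Laplacian

variable {Γ : Type} [Group Γ] [Countable Γ] [MulAction Γ ℍ] {l : Γ → SL2} {D : Set ℍ}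

private lemma cusp_high {A lam t : ℝ} {f : ℂ → ℝ} (h : H6C.Cusp A lam f)
    (ht : t ^ 2 = lam - 1 / 4) (ht1 : 1 ≤ t) {u : ℝ} (h2 : A + 5 ≤ u) (h3 : Real.log t + 3 ≤ u)
    (x : ℝ) : |f (H6C.pt x u)| ≤ √6 * Real.exp (3 / 2) := by
  have hW : f (H6C.pt x u) = Real.exp (u / 2) * H6C.Wf f u x := by
    unfold H6C.Wf
    rw [← mul_assoc, ← Real.exp_add, show u / 2 + -u / 2 = 0 by ring, Real.exp_zero, one_mul]
  rw [hW]
  have h4 : t ≤ Real.exp (u - 3) := by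
    rw [← Real.log_le_iff_le_exp (by linarith)]
    linarith
  have h5 : ∀ n : ℤ, ¬H6C.Low t (u - 3) n := by
    rintro n ⟨hn, hle⟩
    have a1 : (1 : ℝ) ≤ (n : ℝ) ^ 2 := by
      have : (1 : ℤ) ≤ n ^ 2 := by have := sq_pos_of_ne_zero hn; omega
      exact_mod_cast this
    have a2 : t ^ 2 ≤ Real.exp (2 * (u - 3)) := by
      rw [show 2 * (u - 3) = (u - 3) + (u - 3) by ring, Real.exp_add, sq]
      exact mul_le_mul h4 h4 (by linarith) (Real.exp_pos _).le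
    have a3 : (1 : ℝ) ≤ (2 * π * n) ^ 2 := by
      have := Real.pi_gt_three
      rw [mul_pow]
      nlinarith
    have a4 : t ^ 2 ≤ (2 * π * n) ^ 2 * Real.exp (2 * (u - 3)) :=
      a2.trans (le_mul_of_one_le_left (Real.exp_pos _).le a3)
    nlinarith
  have h6 := H6C.sup_le (H6C.cont_W_high h u) (fun x => by rw [h.Wf_per]) ∅
    (σ := √(6 / (u - 3 - A - 1)) * Real.exp (-(u - 3) / 2))
    (fun s _ => h.sigma ht ht1 (by linarith) (by linarith) s fun n _ => h5 n) x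
  rw [Finset.sum_empty, sub_zero, Complex.norm_real, Real.norm_eq_abs] at h6
  have h7 : √(6 / (u - 3 - A - 1)) ≤ √6 :=
    Real.sqrt_le_sqrt (div_le_self (by norm_num) (by linarith))
  rw [abs_mul, abs_of_pos (Real.exp_pos _)]
  calc Real.exp (u / 2) * |H6C.Wf f u x| ≤ Real.exp (u / 2) * (√6 * Real.exp (-(u - 3) / 2)) := by
        gcongr
        exact h6.trans (by gcongr)
    _ = √6 * (Real.exp (u / 2) * Real.exp (-(u - 3) / 2)) := by ring
    _ = _ := by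
        rw [← Real.exp_add]
        congr 2
        ring

private lemma cusp_mk (hD : FD l D) {S : Finset SL2} (hS : H6C.Cusps Γ S) {φ : ℍ → ℝ} {lam : ℝ}
    (φi : ∀ (γ : Γ) (z : ℍ), φ (γ • z) = φ z)
    (φs : ContDiffOn ℝ ∞ (fun w : ℂ => φ (ofComplex w)) UH)
    (φe : ∀ z : ℍ, z.im ^ 2 * Δ (fun w : ℂ => φ (ofComplex w)) z = -lam * φ z)
    (φn : ∫ z in D, φ z ^ 2 = 1) {s : SL2} (hs : s ∈ S) :
    H6C.Cusp 3 lam fun w => φ (s • ofComplex w) := by
  have cφ : Continuous φ := H60.cont_glob φs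
  have mm : Measurable fun z : ℍ => ENNReal.ofReal (φ z ^ 2) := (cφ.pow 2).measurable.ennreal_ofReal
  have tot : ∫⁻ z in D, ENNReal.ofReal (φ z ^ 2) = 1 := by
    have hI : IntegrableOn (fun z => φ z ^ 2) D := by
      by_contra h
      rw [integral_undef h] at φn
      exact zero_ne_one φn
    rw [← ofReal_integral_eq_lintegral_ofReal hI (Eventually.of_forall fun z => sq_nonneg _), φn,
      ENNReal.ofReal_one]
  obtain ⟨δ, hδ⟩ := hS.per s hs
  obtain ⟨k1, k2⟩ := H6C.mass_St 3 (H6C.pull_smooth φs s) (by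
    simp only [ofComplex_apply]
    exact (H6C.mass_le hD hS le_rfl mm (fun γ z => by simp only [φi]) hs).trans tot.le)
  refine ⟨H6C.pull_smooth φs s, fun z hz => ?_, fun z hz => ?_, k1, k2⟩
  · have e1 : ofComplex (z + 1) = (1 : ℝ) +ᵥ ofComplex z := by
      have hz1 : z + 1 ∈ UH := by simpa [UH] using hz
      apply UpperHalfPlane.ext
      rw [coe_vadd, H60.coe_of_cut hz, H60.coe_of_cut hz1]
      simp [add_comm]
    rw [e1, ← hδ, φi]
  · have hz' : 0 < z.im := (Real.exp_pos 3).trans hz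
    have e1 := H6C.pull_lap φs s ⟨z, hz'⟩
    rw [φe] at e1
    simp only [ofComplex_apply_of_im_pos hz']
    exact e1

omit [Countable Γ] in
private lemma cusp_ht (hD : FD l D) (s : SL2) (γ : Γ) (z : ℍ) :
    ht (s⁻¹ * l γ) z = Real.log (s⁻¹ • γ • z).im := by
  rw [ht, mul_smul, ← hD.act]

omit [Countable Γ] in
private lemma cusp_cu (hD : FD l D) {S : Finset SL2} (hS : H6C.Cusps Γ S) :
    ∃ η : ℍ → ℝ, Cu (range l) {M | ∃ s ∈ S, ∃ γ : Γ, M = s⁻¹ * l γ} η := by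
  set C : Set SL2 := {M | ∃ s ∈ S, ∃ γ : Γ, M = s⁻¹ * l γ} with hC
  have sep : ∀ M ∈ C, ∀ M' ∈ C, ∀ z, 3 ≤ ht M z → 3 ≤ ht M' z → ∀ w, ht M w = ht M' w := by
    rintro _ ⟨s, hs, γ, rfl⟩ _ ⟨s', hs', γ', rfl⟩ z h1 h2 w
    simp only [cusp_ht hD] at h1 h2 ⊢
    have k1 := H6C.ten_dec h1
    have k2 := H6C.ten_dec h2
    rw [Real.exp_log (im_pos _)] at k1 k2
    obtain ⟨rfl, n, hn⟩ := hS.sep s hs s' hs' (γ' * γ⁻¹) _ _ k1 k2
      (by rw [smul_inv_smul, smul_inv_smul, mul_smul, inv_smul_smul])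
    have e := hn (s⁻¹ • γ • w)
    rw [smul_inv_smul, mul_smul, inv_smul_smul] at e
    rw [e, inv_smul_smul, vadd_im]
  obtain ⟨η, h1, h2⟩ : ∃ η : ℍ → ℝ, (∀ z, ∀ M ∈ C, 3 ≤ ht M z → η z = ht M z) ∧
      ∀ z, (¬∃ M ∈ C, 3 ≤ ht M z) → η z = 3 := by
    classical
    refine ⟨fun z => if h : ∃ M ∈ C, 3 ≤ ht M z then ht h.choose z else 3, fun z M hM h => ?_,
      fun z h => dif_neg h⟩
    have h' : ∃ M ∈ C, 3 ≤ ht M z := ⟨M, hM, h⟩
    exact (dif_pos h').trans (sep _ h'.choose_spec.1 M hM z h'.choose_spec.2 h z)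
  have three : ∀ z, 3 ≤ η z := fun z => by
    by_cases h : ∃ M ∈ C, 3 ≤ ht M z
    · obtain ⟨M, hM, h⟩ := h
      rwa [h1 z M hM h]
    · rw [h2 z h]
  have le : ∀ M ∈ C, ∀ z, ht M z ≤ η z := fun M hM z => by
    rcases le_total 3 (ht M z) with h | h
    · rw [h1 z M hM h]
    · exact h.trans (three z)
  have ex : ∀ z, 3 < η z → ∃ M ∈ C, ht M z = η z := fun z hz => by
    by_cases h : ∃ M ∈ C, 3 ≤ ht M z
    · obtain ⟨M, hM, h⟩ := h
      exact ⟨M, hM, (h1 z M hM h).symm⟩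
    · exact absurd (h2 z h) hz.ne'
  have lip : ∀ z z', η z - η z' ≤ dist z z' := fun z z' => by
    rcases lt_or_ge 3 (η z) with h | h
    · obtain ⟨M, hM, e⟩ := ex z h
      linarith [(abs_le.1 (ht_lip M z z')).2, le M hM z']
    · linarith [three z', dist_nonneg (x := z) (y := z')]
  have inv1 : ∀ (δ : Γ) z, η (δ • z) ≤ η z := fun δ z => by
    rcases lt_or_ge 3 (η (δ • z)) with h | h
    · obtain ⟨_, ⟨s, hs, γ, rfl⟩, e⟩ := ex _ h
      rw [← e, cusp_ht hD, ← mul_smul γ, ← cusp_ht hD]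
      exact le _ ⟨s, hs, _, rfl⟩ z
    · exact h.trans (three z)
  have inv : ∀ (δ : Γ) z, η (δ • z) = η z := fun δ z =>
    le_antisymm (inv1 δ z) (by simpa using inv1 δ⁻¹ (δ • z))
  refine ⟨η, ?_, fun z z' => abs_sub_le_iff.2 ⟨lip z z', dist_comm z z' ▸ lip z' z⟩, three, le, ex,
    sep, ?_⟩
  · rintro _ ⟨δ, rfl⟩ z
    rw [← hD.act, inv]
  · rintro _ ⟨s, hs, γ, rfl⟩ x u
    obtain ⟨δ, hδ⟩ := hS.per s hs
    have k : ∀ w : ℍ, η ((s⁻¹ * l γ)⁻¹ • w) = η (s • w) := fun w => by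
      rw [← inv γ, hD.act, mul_inv_rev, inv_inv, mul_smul, smul_inv_smul]
    have e : pt (x + 1) u = (1 : ℝ) +ᵥ pt x u := by
      apply UpperHalfPlane.ext
      rw [coe_vadd, coe_pt, coe_pt]
      push_cast
      ring
    rw [k, k, e, ← hδ, inv]

theorem exists_cu (hD : FD l D) : ∃ (C : Set SL2) (η : ℍ → ℝ), Cu (range l) C η ∧
    (∀ Y : ℝ, ∃ K : Set ℍ, IsCompact K ∧ ∀ z, η z ≤ Y → ∃ γ : Γ, γ • z ∈ K) ∧
    ∀ δ > (0 : ℝ), ∃ r₀ : ℝ, ∀ r ≥ r₀, ∀ φ : ℍ → ℝ, (∀ (γ : Γ) (z : ℍ), φ (γ • z) = φ z) →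
      ContDiffOn ℝ ∞ (fun w : ℂ => φ (ofComplex w)) {w | 0 < w.im} →
      (∀ z : ℍ, z.im ^ 2 * Δ (fun w : ℂ => φ (ofComplex w)) z = -(1 / 4 + r ^ 2) * φ z) →
      ∫ z in D, φ z ^ 2 = 1 →
      (∃ B : ℝ, ∀ z, |φ z| ≤ B) ∧ ∫ z in D ∩ {z | Real.log r + 5 ≤ η z}, φ z ^ 2 ≤ δ := by
  obtain ⟨S, hS⟩ := H6C.exists_cusps hD
  obtain ⟨η, H⟩ := cusp_cu hD hS
  refine ⟨_, η, H, fun Y => ?_, fun δ hδ => ?_⟩
  · obtain ⟨K, hK, h⟩ := hS.cov (Real.exp Y)
    refine ⟨K, hK, fun z hz => (h z).resolve_right ?_⟩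
    rintro ⟨γ, s, hs, w, hw, e⟩
    have h1 := H.le _ ⟨s, hs, γ, rfl⟩ z
    rw [cusp_ht hD, e, inv_smul_smul] at h1
    exact absurd ((Real.lt_log_iff_exp_lt w.im_pos).2 hw) (not_lt.2 (h1.trans hz))
  set c : ℝ := (√6 * Real.exp (3 / 2)) ^ 2 with hc
  have c0 : 0 < c := by positivity
  have fin : ∀ E : Set ℍ, volume (D ∩ E) ≠ ⊤ := fun E =>
    ne_top_of_le_ne_top hD.fin (measure_mono inter_subset_left)
  obtain ⟨N, hN⟩ : ∃ N : ℕ, volume.real (D ∩ {z | (N : ℝ) ≤ η z}) ≤ δ / c := by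
    have h1 := tendsto_measure_iInter_atTop (μ := volume)
      (s := fun N : ℕ => D ∩ {z | (N : ℝ) ≤ η z})
      (fun N => (hD.meas.inter
        (measurableSet_le measurable_const H.cont.measurable)).nullMeasurableSet)
      (fun a b hab z hz => ⟨hz.1, le_trans (α := ℝ) (b := b) (Nat.cast_le.2 hab) hz.2⟩) ⟨0, fin _⟩
    have h2 : ⋂ N : ℕ, D ∩ {z | (N : ℝ) ≤ η z} = ∅ := by
      refine eq_empty_of_forall_notMem fun z hz => ?_
      obtain ⟨N, hN⟩ := exists_nat_gt (η z)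
      exact absurd (mem_iInter.1 hz N).2 (not_le.2 hN)
    rw [h2, measure_empty] at h1
    obtain ⟨N, hN⟩ := (h1.eventually (ge_mem_nhds (ENNReal.ofReal_pos.2 (div_pos hδ c0)))).exists
    exact ⟨N, ENNReal.toReal_le_of_le_ofReal (div_pos hδ c0).le hN⟩
  refine ⟨Real.exp (N + 3), fun r hr φ φi φs φe φn => ?_⟩
  have N0 : (0 : ℝ) ≤ N := Nat.cast_nonneg N
  have r1 : 2 ≤ r := by linarith [Real.add_one_le_exp ((N : ℝ) + 3)]
  have r2 : (N : ℝ) + 3 ≤ Real.log r := (Real.le_log_iff_exp_le (by linarith)).2 hr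
  have cφ : Continuous φ := H60.cont_glob φs
  have hcu := fun s hs => cusp_mk hD hS φi φs φe φn (s := s) hs
  have hpt : ∀ (s : SL2) (w : ℍ),
      φ (s • ofComplex (H6C.pt w.re (Real.log w.im))) = φ (s • w) := fun s w => by
    rw [H6C.pt_log_cusp2, ofComplex_apply]
  constructor
  · obtain ⟨K, hK, h⟩ := hS.cov (Real.exp 3)
    obtain ⟨B, hB⟩ := hK.exists_bound_of_continuousOn cφ.continuousOn
    choose! b hb using fun s hs => (hcu s hs).bdd (by nlinarith)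
    refine ⟨|B| + ∑ s ∈ S, |b s|, fun z => ?_⟩
    have h0 : 0 ≤ ∑ s ∈ S, |b s| := Finset.sum_nonneg fun _ _ => abs_nonneg _
    rcases h z with ⟨γ, hγ⟩ | ⟨γ, s, hs, w, hw, e⟩
    · have h1 : |φ (γ • z)| ≤ B := hB _ hγ
      rw [φi] at h1
      linarith [le_abs_self B]
    · have h1 := hb s hs (Real.log w.im) w.re ((Real.lt_log_iff_exp_lt w.im_pos).2 hw).le
      rw [hpt, ← e, φi] at h1
      have h2 := Finset.single_le_sum (f := fun s => |b s|) (fun _ _ => abs_nonneg _) hs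
      linarith [le_abs_self (b s), abs_nonneg B]
  · have h1 := norm_setIntegral_le_of_norm_le_const (μ := volume) (f := fun z => φ z ^ 2) (C := c)
      (fin {z | Real.log r + 5 ≤ η z}).lt_top fun z hz => by
        have h2 : Real.log r + 5 ≤ η z := hz.2
        obtain ⟨_, ⟨s, hs, γ, rfl⟩, e⟩ := H.ex z (by linarith)
        rw [cusp_ht hD] at e
        have h3 := cusp_high (hcu s hs) (t := r) (by ring) (by linarith)
          (u := Real.log (s⁻¹ • γ • z).im) (by linarith) (by linarith) (s⁻¹ • γ • z).re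
        rw [hpt, smul_inv_smul, φi] at h3
        rw [Real.norm_eq_abs, abs_pow]
        exact pow_le_pow_left₀ (abs_nonneg _) h3 2
    have h4 : volume.real (D ∩ {z | Real.log r + 5 ≤ η z}) ≤ δ / c :=
      le_trans (measureReal_mono (inter_subset_inter_right D fun z hz => by
        have h2 : Real.log r + 5 ≤ η z := hz
        show (N : ℝ) ≤ η z
        linarith) (fin _)) hN
    rw [le_div_iff₀' c0] at h4
    exact (le_abs_self _).trans (h1.trans h4)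

end Pool.Agent.Lib.MP_a52643_an.NE
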