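import Pool.Agent.Lib.MP_a52643_an.NS.Defs

/-!
Heights, tents, patterns and chains for the bound on the mass in the cusps.
-/

open MeasureTheory Set Filter Topology Metric UpperHalfPlane
open scoped ENNReal MatrixGroups Real FourierTransform ComplexConjugate

noncomputable section

namespace Pool.Agent.Lib.MP_a52643_an.NE

open NS hiding nr Zt Zs isOpen_Zt isOpen_Zs

/-! ### heights -/

/-- height of `z` in the chart `M` -/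
def ht (M : SL2) (z : ℍ) : ℝ := Real.log (M • z).im

/-- `C` is the family of cusp charts and `η` the invariant height -/
structure Cu (Λ C : Set SL2) (η : ℍ → ℝ) : Prop where
  inv : ∀ γ ∈ Λ, ∀ z : ℍ, η (γ • z) = η z
  lip : ∀ z z' : ℍ, |η z - η z'| ≤ dist z z'
  three : ∀ z, 3 ≤ η z
  le : ∀ M ∈ C, ∀ z, ht M z ≤ η z
  ex : ∀ z, 3 < η z → ∃ M ∈ C, ht M z = η z
  sep : ∀ M ∈ C, ∀ M' ∈ C, ∀ z, 3 ≤ ht M z → 3 ≤ ht M' z → ∀ w, ht M w = ht M' w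
  per : ∀ M ∈ C, ∀ x u : ℝ, η (M⁻¹ • pt (x + 1) u) = η (M⁻¹ • pt x u)

lemma ht_lip (M : SL2) (z z' : ℍ) : |ht M z - ht M z'| ≤ dist z z' := by
  have := UpperHalfPlane.dist_log_im_le (M • z) (M • z')
  rwa [Real.dist_eq, dist_smul] at this

lemma im_act (G : SL2) (x u : ℝ) : (G • pt x u).im
    = Real.exp u / ((ec G * x + ed G) ^ 2 + ec G ^ 2 * Real.exp u ^ 2) := by
  have hd := det_eq G
  rw [← coe_im, coe_act, coe_pt]
  simp only [Complex.div_im, Complex.normSq_apply, Complex.add_re, Complex.add_im, Complex.mul_re,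
    Complex.mul_im, Complex.ofReal_re, Complex.ofReal_im, Complex.I_re, Complex.I_im]
  rw [← sub_div]
  congr 1
  · linear_combination Real.exp u * hd
  · ring

lemma den_pos (G : SL2) (x u : ℝ) : 0 < (ec G * x + ed G) ^ 2 + ec G ^ 2 * Real.exp u ^ 2 := by
  have h := (G • pt x u).im_pos
  rw [im_act] at h
  exact (div_pos_iff_of_pos_left (Real.exp_pos u)).1 h

/-- the height along the vertical lines of a chart -/
lemma ht_pt (M g : SL2) (x u : ℝ) : ht M (g • pt x u) = u - Real.log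
    ((ec (M * g) * x + ed (M * g)) ^ 2 + ec (M * g) ^ 2 * Real.exp u ^ 2) := by
  rw [ht, ← mul_smul, im_act, Real.log_div (Real.exp_pos u).ne' (den_pos _ x u).ne', Real.log_exp]

variable {Λ C : Set SL2} {η : ℍ → ℝ}

lemma Cu.eq (H : Cu Λ C η) {M : SL2} (hM : M ∈ C) {z : ℍ} (h : 3 ≤ ht M z) : η z = ht M z := by
  rcases (H.three z).eq_or_lt with e | e
  · exact le_antisymm (e ▸ h) (H.le M hM z)
  · obtain ⟨M', hM', e'⟩ := H.ex z e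
    rw [← e']
    exact H.sep M' hM' M hM z (e' ▸ e.le) h z

lemma Cu.cont (H : Cu Λ C η) : Continuous η :=
  (LipschitzWith.of_dist_le_mul (K := 1) fun z z' => by
    rw [NNReal.coe_one, one_mul, Real.dist_eq]; exact H.lip z z').continuous

/-! ### sequences of heights -/

/-- heights at the times `j * ℓ` -/
def hs (η : ℍ → ℝ) (ℓ : ℝ) (g : SL2) (j : ℕ) : ℝ := η (bp (g * aG (j * ℓ)))

/-- heights along a vertical line of a chart -/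
def hv (η : ℍ → ℝ) (ℓ : ℝ) (g : SL2) (τ x : ℝ) (j : ℕ) : ℝ := η (g • pt x (τ + j * ℓ))

lemma hs_add (η : ℍ → ℝ) (ℓ : ℝ) (g : SL2) (i j : ℕ) :
    hs η ℓ (g * aG (i * ℓ)) j = hs η ℓ g (i + j) := by
  rw [hs, hs, mul_assoc, ← aG_add]; push_cast; ring_nf

lemma Cu.hs_inv (H : Cu Λ C η) (ℓ : ℝ) {γ : SL2} (hγ : γ ∈ Λ) (g : SL2) :
    hs η ℓ (γ * g) = hs η ℓ g := by
  funext j
  rw [hs, hs, mul_assoc, bp_mul γ, H.inv γ hγ]

lemma Cu.meas_hs (H : Cu Λ C η) (ℓ : ℝ) : Measurable (hs η ℓ) :=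
  measurable_pi_lambda _ fun j =>
    H.cont.measurable.comp (measurable_bp.comp (measurable_mul_const (aG (j * ℓ))))

lemma Cu.cont_hv (H : Cu Λ C η) (ℓ : ℝ) (g : SL2) (τ : ℝ) (j : ℕ) :
    Continuous fun x => hv η ℓ g τ x j :=
  H.cont.comp ((continuous_pt.comp (continuous_id.prodMk continuous_const)).const_smul g)

/-- `H` is the maximum of `3` and of the tent shaped sequences of `S` -/
structure Ten (ℓ : ℝ) (S : Set (ℕ → ℝ)) (H : ℕ → ℝ) : Prop where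
  three : ∀ j, 3 ≤ H j
  lip : ∀ i j : ℕ, i ≤ j → |H j - H i| ≤ (j - i) * ℓ
  le : ∀ β ∈ S, ∀ j, β j ≤ H j
  ex : ∀ j, 3 < H j → ∃ β ∈ S, β j = H j
  sep : ∀ β ∈ S, ∀ β' ∈ S, ∀ j, 3 ≤ β j → 3 ≤ β' j → β = β'
  blip : ∀ β ∈ S, ∀ i j : ℕ, i ≤ j → |β j - β i| ≤ (j - i) * ℓ
  tent : ∀ β ∈ S, ∀ j : ℕ, (∀ i : ℕ, i ≤ j → (j - i) * ℓ - 1 < β j - β i) ∨
    ∀ k : ℕ, j ≤ k → (k - j) * ℓ - 1 < β j - β k

lemma Ten.eq {ℓ : ℝ} {S : Set (ℕ → ℝ)} {H : ℕ → ℝ} (T : Ten ℓ S H) {β : ℕ → ℝ} (hβ : β ∈ S)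
    {j : ℕ} (h : 3 ≤ β j) : H j = β j := by
  rcases (T.three j).eq_or_lt with e | e
  · exact le_antisymm (e ▸ h) (T.le β hβ j)
  · obtain ⟨β', h', e'⟩ := T.ex j e
    rw [← e', T.sep β' h' β hβ j (e' ▸ e.le) h]

/-- a full descent from the height `y` to the height `y'` -/
def dn (t ℓ y y' : ℝ) : Prop := 30 - t < y' ∧ ℓ - t < y - y'

lemma dn.move {t ℓ y y' w w' ρ : ℝ} (h : dn t ℓ y y') (h1 : |w - y| ≤ ρ) (h2 : |w' - y'| ≤ ρ) :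
    dn (t + 2 * ρ) ℓ w w' := by
  obtain ⟨a, b⟩ := h
  have := abs_le.1 h1
  have := abs_le.1 h2
  constructor <;> linarith [abs_nonneg (w - y)]

lemma dn.mono {t t' ℓ y y' : ℝ} (h : dn t ℓ y y') (ht : t ≤ t') : dn t' ℓ y y' :=
  ⟨by linarith [h.1], by linarith [h.2]⟩

open Classical in
/-- descending blocks -/
def pa (ℓ : ℝ) (N : ℕ) (H : ℕ → ℝ) : Finset ℕ :=
  (Finset.range N).filter fun j => dn 1 ℓ (H j) (H (j + 1))

/-- an ascent that starts below `R + t` -/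
def upb (t ℓ R y y' : ℝ) : Prop := dn t ℓ y' y ∧ y < R + t

open Classical in
/-- ascending blocks -/
def pb (t ℓ R : ℝ) (N : ℕ) (H : ℕ → ℝ) : Finset ℕ :=
  (Finset.range N).filter fun j => upb t ℓ R (H j) (H (j + 1))

open Classical in
/-- times outside the part of the cusp between the heights `Y` and `R + 1` -/
def bad (Y R : ℝ) (N : ℕ) (H : ℕ → ℝ) : Finset ℕ :=
  (Finset.range N).filter fun j => ¬(Y < H j ∧ H j < R + 1)

open Classical in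
/-- the remaining blocks -/
def ot (ℓ Y R : ℝ) (N : ℕ) (H : ℕ → ℝ) : Finset ℕ :=
  (Finset.range N).filter fun j => ¬(Y < H j ∧ H j < R + 1 ∧
    (dn 1 ℓ (H j) (H (j + 1)) ∨ dn 1 ℓ (H (j + 1)) (H j)))

lemma mem_pa {ℓ : ℝ} {N j : ℕ} {H : ℕ → ℝ} :
    j ∈ pa ℓ N H ↔ j < N ∧ dn 1 ℓ (H j) (H (j + 1)) := by
  simp only [pa, Finset.mem_filter, Finset.mem_range]

lemma mem_pb {t ℓ R : ℝ} {N j : ℕ} {H : ℕ → ℝ} :
    j ∈ pb t ℓ R N H ↔ j < N ∧ upb t ℓ R (H j) (H (j + 1)) := by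
  simp only [pb, Finset.mem_filter, Finset.mem_range]

lemma mem_bad {Y R : ℝ} {N j : ℕ} {H : ℕ → ℝ} :
    j ∈ bad Y R N H ↔ j < N ∧ ¬(Y < H j ∧ H j < R + 1) := by
  simp only [bad, Finset.mem_filter, Finset.mem_range]

lemma mem_ot {ℓ Y R : ℝ} {N j : ℕ} {H : ℕ → ℝ} :
    j ∈ ot ℓ Y R N H ↔ j < N ∧ ¬(Y < H j ∧ H j < R + 1 ∧
      (dn 1 ℓ (H j) (H (j + 1)) ∨ dn 1 ℓ (H (j + 1)) (H j))) := by
  simp only [ot, Finset.mem_filter, Finset.mem_range]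

/-- length of the window before an excursion -/
def mm (p : ℕ × ℕ) : ℕ := (p.2 - p.1) / 30

/-- an ascent from a low point at `p.1` up to `p.2` that turns soon -/
def Exc (ℓ : ℝ) (H : ℕ → ℝ) (p : ℕ × ℕ) : Prop :=
  p.1 + 120 ≤ p.2 ∧ mm p ≤ p.1 ∧ 40 < H p.1 ∧ H p.1 ≤ ℓ + 40 ∧
    ((p.2 : ℝ) - p.1) * ℓ - 1 < H p.2 - H p.1 ∧
    H (p.1 + 11 * (p.2 - p.1) / 6) - H p.1 ≤ (11 * (p.2 - p.1) / 6 : ℕ) * ℓ - 1

/-- families of disjoint windows -/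
def Chn (N : ℕ) (F : Finset (ℕ × ℕ)) : Prop :=
  (∀ p ∈ F, p.1 < p.2 ∧ p.2 ≤ N) ∧
    ∀ p ∈ F, ∀ p' ∈ F, p ≠ p' → p.2 + mm p' ≤ p'.1 ∨ p'.2 + mm p ≤ p.1

/-- the score of a family -/
def sc (a : Finset ℕ) (F : Finset (ℕ × ℕ)) : ℝ :=
  ∑ p ∈ F, (cd a (p.1 - mm p) p.1 - cd a p.1 p.2 - 2)

/-- a long ascent -/
def Lng (ℓ : ℝ) (n : ℕ) (H : ℕ → ℝ) : Prop :=
  ∃ q ≤ 8 * n, 40 < H q ∧ 54 * (n * ℓ) - 1 < H (q + 54 * n) - H q

/-- the event that gives a gain -/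
def Bv (ℓ : ℝ) (n : ℕ) (H : ℕ → ℝ) : Prop :=
  Lng ℓ n H ∨ ∃ F, Chn (38 * n) F ∧ (∀ p ∈ F, Exc ℓ H p) ∧ (n : ℝ) / 2000 ≤ sc (pa ℓ (38 * n) H) F

/-- forbidden configurations -/
def Fb (N : ℕ) (y : ℝ) (a b : Finset ℕ) (F : Finset (ℕ × ℕ)) : Prop :=
  y ≤ (a ∩ b).card ∨ y + (Finset.range N \ (a ∪ b)).card ≤ sc a F

/-- a quantity that increases along an excursion -/
def Fl (ℓ R y y' : ℝ) : ℝ := -((y' - y) / ℓ) * (R - min y R)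

/-! ### the sets in the two charts -/

def nr (η : ℍ → ℝ) (t ℓ : ℝ) (g : SL2) (τ x : ℝ) : Prop :=
  dn t ℓ (η (g • pt x τ)) (η (g • pt x (τ + ℓ)))

def Zt (η : ℍ → ℝ) (t ℓ : ℝ) (g : SL2) (τ : ℝ) (a : Finset ℕ) : Set ℝ :=
  {x | ∀ j ∈ a, nr η t ℓ g (τ + j * ℓ) x}

def Zs (η : ℍ → ℝ) (t ℓ : ℝ) (g : SL2) (τ : ℝ) (b : Finset ℕ) : Set ℝ :=
  {x | ∀ j ∈ b, nr η t ℓ g (-τ - (j + 1) * ℓ) x}

lemma Cu.isOpen_nr (H : Cu Λ C η) (t ℓ : ℝ) (g : SL2) (τ : ℝ) : IsOpen {x | nr η t ℓ g τ x} := by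
  have h : ∀ s, Continuous fun x => η (g • pt x s) := fun s =>
    H.cont.comp ((continuous_pt.comp (continuous_id.prodMk continuous_const)).const_smul g)
  exact (isOpen_lt continuous_const (h _)).inter (isOpen_lt continuous_const ((h _).sub (h _)))

lemma Cu.isOpen_Zt (H : Cu Λ C η) (t ℓ : ℝ) (g : SL2) (τ : ℝ) (a : Finset ℕ) :
    IsOpen (Zt η t ℓ g τ a) := by
  have : Zt η t ℓ g τ a = ⋂ j ∈ a, {x | nr η t ℓ g (τ + j * ℓ) x} := by ext x; simp [Zt]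
  rw [this]; exact isOpen_biInter_finset fun _ _ => H.isOpen_nr _ _ _ _

lemma Cu.isOpen_Zs (H : Cu Λ C η) (t ℓ : ℝ) (g : SL2) (τ : ℝ) (a : Finset ℕ) :
    IsOpen (Zs η t ℓ g τ a) := by
  have : Zs η t ℓ g τ a = ⋂ j ∈ a, {x | nr η t ℓ g (-τ - (j + 1) * ℓ) x} := by ext x; simp [Zs]
  rw [this]; exact isOpen_biInter_finset fun _ _ => H.isOpen_nr _ _ _ _

lemma Cu.pt_move (H : Cu Λ C η) (g : SL2) {x x' τ s ρ : ℝ} (hs : τ ≤ s)
    (hx : |x' - x| ≤ ρ * Real.exp τ) : |η (g • pt x' s) - η (g • pt x s)| ≤ ρ := by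
  refine (H.lip _ _).trans ?_
  rw [dist_smul]
  refine (dist_pt_le _ _ _).trans ?_
  have h0 : 0 ≤ ρ := by
    by_contra h
    nlinarith [abs_nonneg (x' - x), Real.exp_pos τ, not_le.1 h]
  rw [Real.exp_neg, ← div_eq_mul_inv, div_le_iff₀ (Real.exp_pos s)]
  exact hx.trans (mul_le_mul_of_nonneg_left (Real.exp_le_exp.2 hs) h0)

lemma Cu.nr_move (H : Cu Λ C η) {t ℓ τ x x' ρ : ℝ} {g : SL2} (h : nr η t ℓ g τ x) (hℓ : 0 ≤ ℓ)
    (hx : |x' - x| ≤ ρ * Real.exp τ) : nr η (t + 2 * ρ) ℓ g τ x' :=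
  dn.move h (H.pt_move g le_rfl hx) (H.pt_move g (by linarith) hx)

/-- the transfer inequality for the long state -/
def Tr1 (Λ : Set SL2) (P : Measure SL2) (h θ : ℝ) : Prop :=
  ∀ T, 4 * h ≤ T → T ≤ 46 * h →
    Tr Λ P P (Real.exp (100 * h)) (Real.exp (-49 * h)) (Real.exp (52 * h + T)) T θ

/-- the transfer inequality from the short state -/
def Tr0 (Λ : Set SL2) (P₀ P : Measure SL2) (h θ : ℝ) : Prop :=
  ∀ T, 22 * h ≤ T → T ≤ 23 * h →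
    Tr Λ P₀ P (Real.exp (100 * h)) (Real.exp (-31 * h)) (Real.exp (52 * h + T)) T θ

/-- the uncertainty principle for forbidden configurations -/
def Fup (η : ℍ → ℝ) (ℓ : ℝ) : Prop :=
  ∀ (N : ℕ) (y R : ℝ) (g : SL2) (p lam : ℝ) (X Y : Set ℝ), 1 ≤ N → (N : ℝ) / 10 ^ 9 ≤ y →
    (∀ ξ ∈ Y, ∃ F, Chn N F ∧
      (∀ q ∈ F, Exc ℓ (hs η ℓ (g * vG (-(ξ / Real.exp lam)) * aG p)) q) ∧
      ∀ x ∈ X, Fb N y (pa ℓ N (hs η ℓ (g * vG (-(ξ / Real.exp lam)) * aG p)))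
        (pb 5 ℓ R N (hs η ℓ (g * uG x * aG (p + lam)))) F) →
    UP X Y (Real.exp (-N))

end Pool.Agent.Lib.MP_a52643_an.NE
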