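import Pool.Agent.Lib.MP_a52643_an.NE.Chain
import Pool.Agent.Lib.MP_a52643_an.NS.Stat
import Pool.Agent.Lib.MP_a52643_an.NS.Layer

/-!
The contradiction.
-/

open MeasureTheory Set Filter Topology Metric UpperHalfPlane
open scoped ENNReal MatrixGroups Real FourierTransform ComplexConjugate

noncomputable section

namespace Pool.Agent.Lib.MP_a52643_an.NE

open NS hiding nr Zt Zs isOpen_Zt isOpen_Zs

variable {Λ C : Set SL2} {η : ℍ → ℝ}

structure Ctx (Λ C : Set SL2) (η : ℍ → ℝ) (P : Measure SL2) (h ℓ Y : ℝ) (n : ℕ) : Prop where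
  cu : Cu Λ C η
  prob : IsProbabilityMeasure P
  l0 : 1000 ≤ ℓ
  hn : h = n * ℓ
  n1 : 10 ^ 9 ≤ n
  y0 : (10 ^ 9 + 2) * ℓ + 40 ≤ Y
  tr : Tr1 Λ P h (1 / 10 ^ 16)
  good : ∀ p, -46 * h ≤ p → p ≤ 46 * h →
    1 - 1 / 10 ^ 8 ≤ P.real (tm p {g | Y < η (bp g) ∧ η (bp g) < 100 * h + 12})
  fup : Fup η ℓ

/-! ### counting -/

section count

variable {Ω : Type} [MeasurableSpace Ω]

lemma end_fin {a : Ω → Finset ℕ} (ma : ∀ j, MeasurableSet {ω | j ∈ a ω}) (Φ : Finset ℕ → Prop) :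
    MeasurableSet {ω | Φ (a ω)} := by
  have h1 : ∀ s : Finset ℕ, MeasurableSet {ω | a ω = s} := fun s => by
    have : {ω | a ω = s} = ⋂ j : ℕ, {ω | j ∈ a ω ↔ j ∈ s} := by
      ext ω; simp [Finset.ext_iff]
    rw [this]
    refine MeasurableSet.iInter fun j => ?_
    by_cases hs : j ∈ s
    · simpa [hs] using ma j
    · simp only [hs, iff_false]
      exact (ma j).compl
  have : {ω | Φ (a ω)} = ⋃ s : Finset ℕ, ⋃ _ : Φ s, {ω | a ω = s} := by
    ext ω; simp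
  rw [this]
  exact MeasurableSet.iUnion fun s => MeasurableSet.iUnion fun _ => h1 s

variable {Q : Measure Ω} [IsProbabilityMeasure Q]

lemma end_ind {S : Set Ω} (hS : MeasurableSet S) : Integrable (S.indicator (1 : Ω → ℝ)) Q :=
  (integrable_const (1 : ℝ)).indicator hS

omit [MeasurableSpace Ω] in
lemma end_card {N : ℕ} {a : Ω → Finset ℕ} (ha : ∀ ω, a ω ⊆ Finset.range N) (ω : Ω) :
    ∑ j ∈ Finset.range N, {ω | j ∈ a ω}.indicator (1 : Ω → ℝ) ω = (a ω).card := by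
  classical
  have h : ∀ j, {ω | j ∈ a ω}.indicator (1 : Ω → ℝ) ω = if j ∈ a ω then 1 else 0 := fun j => by
    by_cases hj : j ∈ a ω <;> simp [Set.indicator, hj]
  simp only [h]
  rw [Finset.sum_boole, Finset.filter_mem_eq_inter, Finset.inter_eq_right.2 (ha ω)]

/-- the mean size of a random set -/
lemma end_mean {N : ℕ} {a : Ω → Finset ℕ} (ha : ∀ ω, a ω ⊆ Finset.range N)
    (ma : ∀ j, MeasurableSet {ω | j ∈ a ω}) : Integrable (fun ω => ((a ω).card : ℝ)) Q ∧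
      ∫ ω, ((a ω).card : ℝ) ∂Q = ∑ j ∈ Finset.range N, Q.real {ω | j ∈ a ω} := by
  simp only [← end_card ha]
  refine ⟨integrable_finsetSum _ fun i _ => end_ind (ma i), ?_⟩
  rw [integral_finsetSum _ fun i _ => end_ind (ma i)]
  exact Finset.sum_congr rfl fun i _ => integral_indicator_one (ma i)

lemma end_cake (M : ℕ) {f : Ω → ℕ} (mf : ∀ j, MeasurableSet {ω | j + 1 ≤ f ω}) :
    Integrable (fun ω => ((min M (f ω) : ℕ) : ℝ)) Q ∧ ∫ ω, ((min M (f ω) : ℕ) : ℝ) ∂Q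
      = ∑ j ∈ Finset.range M, Q.real {ω | j + 1 ≤ f ω} := by
  have e : ∀ j < M, {ω | j ∈ Finset.range (min M (f ω))} = {ω | j + 1 ≤ f ω} := fun j hj => by
    ext ω; simp [hj]
  have := end_mean (Q := Q) (N := M) (a := fun ω => Finset.range (min M (f ω)))
    (fun ω => Finset.range_mono (min_le_left _ _)) fun j => by
      by_cases hj : j < M
      · rw [e j hj]; exact mf j
      · simp [hj]
  simp only [Finset.card_range] at this
  refine ⟨this.1, this.2.trans (Finset.sum_congr rfl fun j hj => ?_)⟩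
  rw [e j (Finset.mem_range.1 hj)]

open Classical in
lemma end_layer {N K H : ℕ} {a b : Ω → Finset ℕ} (ha : ∀ ω, a ω ⊆ Finset.range N)
    (hb : ∀ ω, b ω ⊆ Finset.range N) (ma : ∀ j, MeasurableSet {ω | j ∈ a ω})
    (mb : ∀ j, MeasurableSet {ω | j ∈ b ω}) {B : Ω → Prop} (mB : MeasurableSet {ω | B ω})
    (mF : ∀ j, MeasurableSet {ω | j ≤ (a ω).card + if B ω then K else 0}) {e : ℝ}
    (h3 : ∀ j : ℕ, Q.real {ω | j ≤ (a ω).card + if B ω then K else 0}
      ≤ Q.real {ω | j + (b ω).card ≤ N + H} + e) :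
    K * Q.real {ω | B ω} + ∑ j ∈ Finset.range N, (Q.real {ω | j ∈ a ω} + Q.real {ω | j ∈ b ω})
      ≤ N + H + (N + K) * e := by
  have cN : ∀ ω, (a ω).card ≤ N := fun ω => by simpa using Finset.card_le_card (ha ω)
  have cN' : ∀ ω, (b ω).card ≤ N := fun ω => by simpa using Finset.card_le_card (hb ω)
  obtain ⟨ia, ea⟩ := end_mean (Q := Q) ha ma
  obtain ⟨ib, eb⟩ := end_mean (Q := Q) hb mb
  obtain ⟨-, ef⟩ := end_cake (Q := Q) (N + K)
    (f := fun ω => (a ω).card + if B ω then K else 0) fun j => mF (j + 1)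
  obtain ⟨ig, eg⟩ := end_cake (Q := Q) (N + K) (f := fun ω => N + H - (b ω).card)
    fun j => end_fin mb fun s => j + 1 ≤ N + H - s.card
  have e1 : ∫ ω, ((min (N + K) ((a ω).card + if B ω then K else 0) : ℕ) : ℝ) ∂Q
      = ∫ ω, ((a ω).card : ℝ) ∂Q + K * Q.real {ω | B ω} := by
    rw [← integral_indicator_one mB, ← integral_const_mul,
      ← integral_add ia ((end_ind mB).const_mul _)]
    refine integral_congr_ae (Eventually.of_forall fun ω => ?_)
    have := cN ω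
    by_cases hB : B ω
    · simp only [if_pos hB]
      rw [min_eq_right (by omega)]
      simp [Set.indicator, hB]
    · simp only [if_neg hB]
      rw [min_eq_right (by omega)]
      simp [Set.indicator, hB]
  have e2 : ∫ ω, ((min (N + K) (N + H - (b ω).card) : ℕ) : ℝ) ∂Q + ∫ ω, ((b ω).card : ℝ) ∂Q
      ≤ N + H := by
    have e : ((N : ℝ) + H) = ∫ _ω, ((N : ℝ) + H) ∂Q := by simp
    rw [← integral_add ig ib, e]
    refine integral_mono (ig.add ib) (integrable_const _) fun ω => ?_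
    have h4 := cN' ω
    have h5 : min (N + K) (N + H - (b ω).card) + (b ω).card ≤ N + H := by omega
    exact_mod_cast h5
  have e3 : ∑ j ∈ Finset.range (N + K), Q.real {ω | j + 1 ≤ (a ω).card + if B ω then K else 0}
      ≤ ∑ j ∈ Finset.range (N + K), (Q.real {ω | j + 1 ≤ N + H - (b ω).card} + e) := by
    refine Finset.sum_le_sum fun j _ => ?_
    have e : {ω | j + 1 ≤ N + H - (b ω).card} = {ω | j + 1 + (b ω).card ≤ N + H} := by
      ext ω
      simp only [Set.mem_ofPred_eq]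
      omega
    rw [e]
    exact h3 (j + 1)
  rw [Finset.sum_add_distrib, Finset.sum_const, Finset.card_range, nsmul_eq_mul] at e3
  push_cast [-Nat.cast_min] at e3
  rw [Finset.sum_add_distrib]
  linarith

lemma end_markov {N : ℕ} {a : Ω → Finset ℕ} (ha : ∀ ω, a ω ⊆ Finset.range N)
    (ma : ∀ j, MeasurableSet {ω | j ∈ a ω}) (c : ℝ) :
    c * Q.real {ω | c < (a ω).card} ≤ ∑ j ∈ Finset.range N, Q.real {ω | j ∈ a ω} := by
  obtain ⟨ia, ea⟩ := end_mean (Q := Q) ha ma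
  have mS : MeasurableSet {ω | c < (a ω).card} := end_fin ma fun s => c < s.card
  rw [← ea, ← integral_indicator_one mS, ← integral_const_mul]
  refine integral_mono ((end_ind mS).const_mul _) ia fun ω => ?_
  by_cases h : c < (a ω).card
  · simpa [Set.indicator, h] using h.le
  · simp [Set.indicator, h]

end count

/-! ### measurability -/

lemma end_dn (t ℓ : ℝ) (i j : ℕ) : MeasurableSet {H : ℕ → ℝ | dn t ℓ (H i) (H j)} :=
  (measurableSet_lt measurable_const (measurable_pi_apply j)).inter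
    (measurableSet_lt measurable_const ((measurable_pi_apply i).sub (measurable_pi_apply j)))

lemma end_and {p : Prop} {S : (ℕ → ℝ) → Prop} (h : MeasurableSet {H | S H}) :
    MeasurableSet {H | p ∧ S H} := (MeasurableSet.const p).inter h

lemma end_pa (ℓ : ℝ) (N j : ℕ) : MeasurableSet {H : ℕ → ℝ | j ∈ pa ℓ N H} := by
  simp only [mem_pa]; exact end_and (end_dn _ _ _ _)

lemma end_pb (t ℓ R : ℝ) (N j : ℕ) : MeasurableSet {H : ℕ → ℝ | j ∈ pb t ℓ R N H} := by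
  simp only [mem_pb]
  exact end_and ((end_dn _ _ _ _).inter (measurableSet_lt (measurable_pi_apply j) measurable_const))

lemma end_bad (Y R : ℝ) (N j : ℕ) : MeasurableSet {H : ℕ → ℝ | j ∈ bad Y R N H} := by
  simp only [mem_bad]
  exact end_and ((measurableSet_lt measurable_const (measurable_pi_apply j)).inter
    (measurableSet_lt (measurable_pi_apply j) measurable_const)).compl

lemma end_ot (ℓ Y R : ℝ) (N j : ℕ) : MeasurableSet {H : ℕ → ℝ | j ∈ ot ℓ Y R N H} := by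
  simp only [mem_ot]
  exact end_and ((measurableSet_lt measurable_const (measurable_pi_apply j)).inter
    ((measurableSet_lt (measurable_pi_apply j) measurable_const).inter
      ((end_dn _ _ _ _).union (end_dn _ _ _ _)))).compl

lemma end_sub (i j : ℕ) : Measurable fun H : ℕ → ℝ => H i - H j :=
  (measurable_pi_apply i).sub (measurable_pi_apply j)

lemma end_exc (ℓ : ℝ) (p : ℕ × ℕ) : MeasurableSet {H : ℕ → ℝ | Exc ℓ H p} :=
  end_and (end_and ((measurableSet_lt measurable_const (measurable_pi_apply _)).inter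
    ((measurableSet_le (measurable_pi_apply _) measurable_const).inter
      ((measurableSet_lt measurable_const (end_sub p.2 p.1)).inter
      (measurableSet_le (end_sub (p.1 + 11 * (p.2 - p.1) / 6) p.1) measurable_const)))))

variable {P : Measure SL2} {h ℓ Y : ℝ} {n : ℕ}

lemma meas_Bv (ℓ : ℝ) (n : ℕ) : MeasurableSet {H : ℕ → ℝ | Bv ℓ n H} := by
  have h1 : MeasurableSet {H : ℕ → ℝ | Lng ℓ n H} := by
    have : {H : ℕ → ℝ | Lng ℓ n H} = ⋃ q : ℕ, {H | q ≤ 8 * n ∧ 40 < H q ∧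
        54 * (n * ℓ) - 1 < H (q + 54 * n) - H q} := by ext H; simp [Lng]
    rw [this]
    exact MeasurableSet.iUnion fun q => end_and
      ((measurableSet_lt measurable_const (measurable_pi_apply _)).inter
        (measurableSet_lt measurable_const (end_sub (q + 54 * n) q)))
  have h2 : ∀ F : Finset (ℕ × ℕ), MeasurableSet {H : ℕ → ℝ | Chn (38 * n) F ∧
      (∀ p ∈ F, Exc ℓ H p) ∧ (n : ℝ) / 2000 ≤ sc (pa ℓ (38 * n) H) F} := fun F => by
    have e : {H : ℕ → ℝ | ∀ p ∈ F, Exc ℓ H p} = ⋂ p ∈ F, {H | Exc ℓ H p} := by ext H; simp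
    refine end_and (MeasurableSet.inter (s₁ := {H : ℕ → ℝ | ∀ p ∈ F, Exc ℓ H p}) ?_
      (end_fin (end_pa ℓ (38 * n)) fun a => (n : ℝ) / 2000 ≤ sc a F))
    rw [e]
    exact Finset.measurableSet_biInter F fun p _ => end_exc ℓ p
  have : {H : ℕ → ℝ | Bv ℓ n H} = {H | Lng ℓ n H} ∪ ⋃ F : Finset (ℕ × ℕ), {H | Chn (38 * n) F ∧
      (∀ p ∈ F, Exc ℓ H p) ∧ (n : ℝ) / 2000 ≤ sc (pa ℓ (38 * n) H) F} := by
    ext H; simp [Bv]
  rw [this]
  exact h1.union (MeasurableSet.iUnion h2)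

lemma Cu.end_ev (H : Cu Λ C η) (ℓ p : ℝ) {Φ : (ℕ → ℝ) → Prop} (m : MeasurableSet {u | Φ u}) :
    MeasurableSet {g | Φ (hs η ℓ (g * aG p))} :=
  ((H.meas_hs ℓ).comp (measurable_mul_const (aG p))) m

lemma Cu.end_li (H : Cu Λ C η) (ℓ p : ℝ) (Φ : (ℕ → ℝ) → Prop) :
    LI Λ {g | Φ (hs η ℓ (g * aG p))} := fun γ hγ g => by
  simp only [mem_ofPred_eq, mul_assoc, H.hs_inv ℓ hγ]

lemma end_hs (η : ℍ → ℝ) (ℓ p : ℝ) (g : SL2) (j : ℕ) :
    hs η ℓ (g * aG p) j = η (bp (g * aG (p + j * ℓ))) := by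
  rw [hs, mul_assoc, ← aG_add]

lemma Ctx.h1 (X : Ctx Λ C η P h ℓ Y n) : 1000 * n ≤ h ∧ (10 : ℝ) ^ 9 ≤ n := by
  have h2 : (10 : ℝ) ^ 9 ≤ n := by exact_mod_cast X.n1
  have := X.l0
  rw [X.hn]
  exact ⟨by nlinarith, h2⟩

/-- transport of an event that depends on one block -/
lemma Ctx.two (X : Ctx Λ C η P h ℓ Y n) {Ψ₁ Ψ₂ Ψ₃ : ℝ → ℝ → Prop}
    (m₁ : MeasurableSet {u : ℕ → ℝ | Ψ₁ (u 0) (u 1)})
    (m₂ : MeasurableSet {u : ℕ → ℝ | Ψ₂ (u 0) (u 1)})
    (m₃ : MeasurableSet {u : ℕ → ℝ | Ψ₃ (u 0) (u 1)})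
    (s₁ : ∀ y y' w w', 0 ≤ y → |w' - w| ≤ ℓ → |w - y| ≤ 1 → |w' - y'| ≤ 1 → Ψ₁ y y' → Ψ₂ w w')
    (s₂ : ∀ y y' w w', 0 ≤ y → |w' - w| ≤ ℓ → |w - y| ≤ 1 → |w' - y'| ≤ 1 → Ψ₂ y y' → Ψ₃ w w')
    {p q : ℝ} {i j : ℕ} (p0 : -46 * h ≤ p) (p1 : p ≤ 8 * h) (q0 : -46 * h ≤ q) (q1 : q ≤ 8 * h)
    (hi : i < 38 * n) (hj : j < 38 * n) :
    P.real {g | Ψ₁ (hs η ℓ (g * aG p) i) (hs η ℓ (g * aG p) (i + 1))} ≤
      P.real {g | Ψ₃ (hs η ℓ (g * aG q) j) (hs η ℓ (g * aG q) (j + 1))} + 60 * (1 / 10 ^ 16) := by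
  have := X.prob
  obtain ⟨a1, a2⟩ := X.h1
  have l0 := X.l0
  have st : ∀ {Ψ Ψ' : ℝ → ℝ → Prop},
      (∀ y y' w w', 0 ≤ y → |w' - w| ≤ ℓ → |w - y| ≤ 1 → |w' - y'| ≤ 1 → Ψ y y' → Ψ' w w') →
      Stp 1 ℓ {g | Ψ (hs η ℓ (g * aG 0) 0) (hs η ℓ (g * aG 0) 1)}
        {g | Ψ' (hs η ℓ (g * aG 0) 0) (hs η ℓ (g * aG 0) 1)} := fun s g hg g' hc => by
    obtain ⟨S, T⟩ := X.cu.ten (ℓ := ℓ) (by linarith) (g' * aG 0)
    have t1 := T.lip 0 1 (by norm_num)
    refine s _ _ _ _ ?_ (by simpa using t1) ?_ ?_ hg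
    · rw [hs]; linarith [X.cu.three (bp (g * aG 0 * aG (((0 : ℕ) : ℝ) * ℓ)))]
    · rw [end_hs, end_hs]
      exact (X.cu.lip _ _).trans (hc _ ⟨by simp, by simp; linarith⟩)
    · rw [end_hs, end_hs]
      exact (X.cu.lip _ _).trans (hc _ ⟨by simp; linarith, by simp⟩)
  have e : ∀ (Ψ : ℝ → ℝ → Prop) (p : ℝ) (i : ℕ),
      tm (p + i * ℓ) {g | Ψ (hs η ℓ (g * aG 0) 0) (hs η ℓ (g * aG 0) 1)}
      = {g | Ψ (hs η ℓ (g * aG p) i) (hs η ℓ (g * aG p) (i + 1))} := fun Ψ p i => by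
    ext g
    simp only [tm, mem_ofPred_eq, aG_zero, mul_one]
    rw [aG_add, ← mul_assoc, hs_add, hs_add, add_zero]
  have r : ∀ {i : ℕ}, i < 38 * n → 0 ≤ i * ℓ ∧ i * ℓ + ℓ ≤ 38 * h := fun {i} hi => by
    have h2 : (i : ℝ) + 1 ≤ 38 * n := by exact_mod_cast hi
    have h3 : (0 : ℝ) ≤ i := Nat.cast_nonneg i
    rw [X.hn]
    exact ⟨by nlinarith, by nlinarith⟩
  have lh : ℓ ≤ h := by rw [X.hn]; nlinarith
  rw [← e Ψ₁, ← e Ψ₃]
  exact transport (w := ℓ) (by linarith) X.tr (X.cu.end_ev ℓ 0 m₁) (X.cu.end_ev ℓ 0 m₂)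
    (X.cu.end_ev ℓ 0 m₃) (X.cu.end_li ℓ 0 fun u => Ψ₁ (u 0) (u 1))
    (X.cu.end_li ℓ 0 fun u => Ψ₂ (u 0) (u 1)) (X.cu.end_li ℓ 0 fun u => Ψ₃ (u 0) (u 1))
    (st s₁) (st s₂) (by linarith) (by linarith) (by linarith [(r hi).1]) (by linarith [(r hi).2])
    (by linarith [(r hj).1]) (by linarith [(r hj).2])

lemma Ctx.bad1 (X : Ctx Λ C η P h ℓ Y n) {j : ℕ} (hj : j < 38 * n) :
    P.real {g | j ∈ bad Y (100 * h + 11) (38 * n) (hs η ℓ (g * aG (-46 * h)))} ≤ 1 / 10 ^ 8 := by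
  have := X.prob
  obtain ⟨a1, a2⟩ := X.h1
  have l0 := X.l0
  have h2 : (j : ℝ) ≤ 38 * n := by exact_mod_cast hj.le
  have h3 : (0 : ℝ) ≤ j * ℓ := by positivity
  have h4 : (j : ℝ) * ℓ ≤ 38 * h := by rw [X.hn]; nlinarith
  have g1 := X.good (-46 * h + j * ℓ) (by linarith) (by linarith)
  have e : tm (-46 * h + j * ℓ) {g | Y < η (bp g) ∧ η (bp g) < 100 * h + 12}
      = {g | j ∈ bad Y (100 * h + 11) (38 * n) (hs η ℓ (g * aG (-46 * h)))}ᶜ := by
    ext g
    simp only [tm, mem_ofPred_eq, mem_compl_iff, mem_bad, hj, true_and, not_not, end_hs]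
    rw [show 100 * h + 11 + 1 = 100 * h + 12 by ring]
  rw [e, probReal_compl_eq_one_sub (X.cu.end_ev ℓ _ (end_bad _ _ _ _))] at g1
  linarith

/-- few blocks are neither ascents nor descents -/
theorem Ctx.few (X : Ctx Λ C η P h ℓ Y n) :
    ∑ j ∈ Finset.range (38 * n), P.real {g | j ∈ ot ℓ Y (100 * h + 11) (38 * n)
      (hs η ℓ (g * aG (-46 * h)))} ≤ 38 * n * (11 / 10 ^ 9) + 1 := by
  have := X.prob
  have l0 := X.l0
  obtain ⟨i1, e1⟩ := end_mean (Q := P) (N := 38 * n)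
    (a := fun g => ot ℓ Y (100 * h + 11) (38 * n) (hs η ℓ (g * aG (-46 * h))))
    (fun g j hj => Finset.mem_range.2 (mem_ot.1 hj).1)
    fun j => X.cu.end_ev ℓ _ (end_ot _ _ _ _ j)
  obtain ⟨i2, e2⟩ := end_mean (Q := P) (N := 38 * n)
    (a := fun g => bad Y (100 * h + 11) (38 * n) (hs η ℓ (g * aG (-46 * h))))
    (fun g j hj => Finset.mem_range.2 (mem_bad.1 hj).1)
    fun j => X.cu.end_ev ℓ _ (end_bad _ _ _ j)
  have b := Finset.sum_le_card_nsmul _ _ _ fun j hj => X.bad1 (Finset.mem_range.1 hj)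
  have c := integral_mono i1 (i2.add (integrable_const (((38 * n : ℕ) : ℝ) / 10 ^ 9 + 1)))
    fun g => by
      obtain ⟨S, T⟩ := X.cu.ten (ℓ := ℓ) (by linarith) (g * aG (-46 * h))
      have := T.turn (R := 100 * h + 11) l0 X.y0 (38 * n)
      simp only [Pi.add_apply]
      linarith
  simp only [Pi.add_apply] at c
  rw [integral_add i2 (integrable_const _), e1, e2] at c
  simp only [integral_const, probReal_univ, smul_eq_mul, one_mul] at c
  rw [Finset.card_range, nsmul_eq_mul] at b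
  push_cast at b c
  linarith

lemma end_cnt {N : ℕ} {a b : Finset ℕ} (ha : a ⊆ Finset.range N) (hb : b ⊆ Finset.range N) :
    a.card + b.card + (Finset.range N \ (a ∪ b)).card = N + (a ∩ b).card := by
  have e1 := Finset.card_union_add_card_inter a b
  have e2 := Finset.card_sdiff_add_card_eq_card (Finset.union_subset ha hb)
  rw [Finset.card_range] at e2
  omega

/-- during a long ascent some blocks are in neither name -/
lemma Ctx.gap (X : Ctx Λ C η P h ℓ Y n) (g : SL2) {x s : ℝ} (hx : |x| ≤ Real.exp (-49 * h))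
    (hξ : |s| ≤ Real.exp (-2 * h)) (L : Lng ℓ n (hs η ℓ (g * vG s * aG (-46 * h)))) :
    8 * n ≤ (Finset.range (38 * n) \ (pa ℓ (38 * n) (hs η ℓ (g * vG s * aG (-46 * h))) ∪
      pb 5 ℓ (100 * h + 11) (38 * n) (hs η ℓ (g * uG x * aG (-46 * h + 100 * h))))).card := by
  obtain ⟨a1, a2⟩ := X.h1
  have l0 := X.l0
  obtain ⟨q, hq, h1, h2⟩ := L
  obtain ⟨S, T⟩ := X.cu.ten (ℓ := ℓ) (by linarith) (g * vG s * aG (-46 * h))
  obtain ⟨S', T'⟩ := X.cu.ten (ℓ := ℓ) (by linarith) (g * uG x * aG (-46 * h))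
  have q1 : (q : ℝ) ≤ 8 * n := by exact_mod_cast hq
  have q2 : (0 : ℝ) ≤ q * ℓ := by positivity
  have q3 : (q : ℝ) * ℓ ≤ 8 * h := by rw [X.hn]; nlinarith
  have e1 : ((q + 54 * n : ℕ) : ℝ) * ℓ = q * ℓ + 54 * h := by rw [X.hn]; push_cast; ring
  have c := cls_box g (p := -46 * h + ((q + 54 * n : ℕ) : ℝ) * ℓ) (w := 0) hx hξ 0 ⟨le_rfl, le_rfl⟩
  rw [aG_zero, mul_one, mul_one, ← Real.exp_add, ← Real.exp_add] at c
  have c1 := stat_half (x := -2 * h + -(-46 * h + ((q + 54 * n : ℕ) : ℝ) * ℓ)) (by linarith)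
  have c2 := stat_half (x := -49 * h + (-46 * h + ((q + 54 * n : ℕ) : ℝ) * ℓ + 0)) (by linarith)
  have c3 := abs_le.1 ((X.cu.lip _ _).trans c)
  rw [← end_hs η ℓ, ← end_hs η ℓ] at c3
  have e2 : hs η ℓ (g * uG x * aG (-46 * h + 100 * h))
      = fun j => hs η ℓ (g * uG x * aG (-46 * h)) (100 * n + j) := by
    funext j
    rw [← hs_add, aG_add, ← mul_assoc]
    congr 3
    rw [X.hn]; push_cast; ring
  have sub : Finset.Ico q (q + 8 * n) ⊆ Finset.range (38 * n) \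
      (pa ℓ (38 * n) (hs η ℓ (g * vG s * aG (-46 * h))) ∪
      pb 5 ℓ (100 * h + 11) (38 * n) (hs η ℓ (g * uG x * aG (-46 * h + 100 * h)))) := fun j hj => by
    rw [Finset.mem_Ico] at hj
    simp only [Finset.mem_sdiff, Finset.mem_range, Finset.mem_union, not_or, mem_pa, mem_pb]
    refine ⟨by omega, fun k => T.nodn l0 (q := q) (e := q + 54 * n) ?_ hj.1 (by omega) k.2,
      fun k => T'.lng l0 (n := n) (q := q) (j := j) (by linarith [c3.1]) hj.1 hj.2 ?_⟩
    · push_cast; linarith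
    · have := k.2
      rw [e2] at this
      rw [← X.hn]
      exact this
  simpa using Finset.card_le_card sub

open Classical in
lemma end_mF (ℓ : ℝ) (n j : ℕ) : MeasurableSet {u : ℕ → ℝ | j ≤ (pa ℓ (38 * n) u).card +
    if Bv ℓ n u then n / 2000 else 0} := by
  have e : {u : ℕ → ℝ | j ≤ (pa ℓ (38 * n) u).card + if Bv ℓ n u then n / 2000 else 0}
      = {u | Bv ℓ n u} ∩ {u | j ≤ (pa ℓ (38 * n) u).card + n / 2000}
        ∪ {u | Bv ℓ n u}ᶜ ∩ {u | j ≤ (pa ℓ (38 * n) u).card} := by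
    ext u; by_cases hB : Bv ℓ n u <;> simp [hB]
  rw [e]
  exact ((meas_Bv ℓ n).inter (end_fin (end_pa ℓ _) fun a => j ≤ a.card + n / 2000)).union
    ((meas_Bv ℓ n).compl.inter (end_fin (end_pa ℓ _) fun a => j ≤ a.card))

open Classical in
lemma Ctx.jump (X : Ctx Λ C η P h ℓ Y n) (j : ℕ) :
    P.real {g | j ≤ (pa ℓ (38 * n) (hs η ℓ (g * aG (-46 * h)))).card +
        if Bv ℓ n (hs η ℓ (g * aG (-46 * h))) then n / 2000 else 0}
      ≤ P.real {g | j + (pb 5 ℓ (100 * h + 11) (38 * n) (hs η ℓ (g * aG (8 * h)))).card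
        ≤ 38 * n + (n / 10 ^ 7 + 2)} + 30 * (1 / 10 ^ 16) := by
  obtain ⟨a1, a2⟩ := X.h1
  have n1 := X.n1
  have key := X.tr (46 * h) (by linarith) le_rfl _ _ (X.cu.end_ev ℓ (-46 * h) (end_mF ℓ n j))
    (X.cu.end_ev ℓ (-46 * h + 100 * h) (end_fin (end_pb 5 ℓ (100 * h + 11) (38 * n))
      fun b => j + b.card ≤ 38 * n + (n / 10 ^ 7 + 2)))
    (X.cu.end_li ℓ _ fun u => j ≤ (pa ℓ (38 * n) u).card + if Bv ℓ n u then n / 2000 else 0)
    (X.cu.end_li ℓ _ fun u => j + (pb 5 ℓ (100 * h + 11) (38 * n) u).card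
      ≤ 38 * n + (n / 10 ^ 7 + 2)) fun g => by
      refine (X.fup (38 * n) (((n / 10 ^ 7 + 2 : ℕ) : ℝ) / 2) (100 * h + 11) g (-46 * h) (100 * h)
        _ _ (by omega) ?_ fun ξ hξ => ?_).mono subset_rfl subset_rfl ?_
      · have : n ≤ 10 ^ 7 * (n / 10 ^ 7 + 2) := by omega
        have h' : (n : ℝ) ≤ 10 ^ 7 * ((n / 10 ^ 7 + 2 : ℕ) : ℝ) := by exact_mod_cast this
        generalize ((n / 10 ^ 7 + 2 : ℕ) : ℝ) = K at *
        push_cast
        linarith
      · obtain ⟨h1, h2⟩ := hξ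
        simp only [mem_ofPred_eq] at h2
        have cnt := fun x : ℝ => end_cnt (N := 38 * n)
          (a := pa ℓ (38 * n) (hs η ℓ (g * vG (-(ξ / Real.exp (100 * h))) * aG (-46 * h))))
          (b := pb 5 ℓ (100 * h + 11) (38 * n) (hs η ℓ (g * uG x * aG (-46 * h + 100 * h))))
          (fun j hj => Finset.mem_range.2 (mem_pa.1 hj).1)
          fun j hj => Finset.mem_range.2 (mem_pb.1 hj).1
        have c0 : Chn (38 * n) ∅ := ⟨by simp, by simp⟩
        have ov : ∀ {a b : Finset ℕ}, n / 10 ^ 7 + 2 ≤ (a ∩ b).card →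
            Fb (38 * n) (((n / 10 ^ 7 + 2 : ℕ) : ℝ) / 2) a b ∅ := fun {a b} k => Or.inl (by
          have : ((n / 10 ^ 7 + 2 : ℕ) : ℝ) ≤ (a ∩ b).card := by exact_mod_cast k
          have h0 : (0 : ℝ) ≤ (a ∩ b).card := Nat.cast_nonneg _
          linarith)
        by_cases hB : Bv ℓ n (hs η ℓ (g * vG (-(ξ / Real.exp (100 * h))) * aG (-46 * h)))
        · rw [if_pos hB] at h2
          rcases hB with L | ⟨F, f1, f2, f3⟩
          · refine ⟨∅, c0, by simp, fun x hx => ov ?_⟩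
            have k1 := X.gap g hx.1 (by
              rw [abs_neg, abs_div, abs_of_pos (Real.exp_pos _), div_le_iff₀ (Real.exp_pos _),
                ← Real.exp_add]
              exact h1.trans (le_of_eq (by congr 1; ring))) L
            have k2 := cnt x
            have k3 := hx.2
            simp only [mem_ofPred_eq] at k3
            omega
          · refine ⟨F, f1, f2, fun x hx => ?_⟩
            have k2 := cnt x
            have k3 := hx.2
            simp only [mem_ofPred_eq] at k3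
            unfold Fb
            generalize pa ℓ (38 * n) _ = a at *
            generalize pb 5 ℓ (100 * h + 11) (38 * n) _ = b at *
            have k4 : (Finset.range (38 * n) \ (a ∪ b)).card + (n / 10 ^ 7 + 2)
                ≤ (a ∩ b).card + n / 2000 := by omega
            have k5 : ((Finset.range (38 * n) \ (a ∪ b)).card : ℝ) + ((n / 10 ^ 7 + 2 : ℕ) : ℝ)
                ≤ (a ∩ b).card + ((n / 2000 : ℕ) : ℝ) := by exact_mod_cast k4
            have k6 : ((n / 2000 : ℕ) : ℝ) ≤ n / 2000 := Nat.cast_div_le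
            by_contra hc
            push Not at hc
            linarith [hc.1, hc.2]
        · rw [if_neg hB] at h2
          refine ⟨∅, c0, by simp, fun x hx => ov ?_⟩
          have k2 := cnt x
          have k3 := hx.2
          simp only [mem_ofPred_eq] at k3
          omega
      · have h2 : ((38 * n : ℕ) : ℝ) ^ 4 / (Nat.factorial 4 : ℕ) ≤ Real.exp (38 * n : ℕ) :=
          Real.pow_div_factorial_le_exp _ (Nat.cast_nonneg _) 4
        have h3 : (38 * 10 ^ 9 : ℝ) ^ 4 ≤ ((38 * n : ℕ) : ℝ) ^ 4 := by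
          gcongr; push_cast; linarith
        rw [Real.exp_neg, inv_le_comm₀ (Real.exp_pos _) (by norm_num)]
        norm_num [Nat.factorial] at h2 h3 ⊢
        linarith
  refine key.trans (le_of_eq ?_)
  congr 2
  ext g
  simp only [tm, mem_ofPred_eq]
  rw [mul_assoc, ← aG_add, show -(46 * h) + (-46 * h + 100 * h) = 8 * h by ring]

/-- the gain event is rare -/
theorem Ctx.rare (X : Ctx Λ C η P h ℓ Y n) :
    P.real {g | Bv ℓ n (hs η ℓ (g * aG (-46 * h)))} ≤ 1 / 200 := by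
  classical
  have := X.prob
  obtain ⟨a1, a2⟩ := X.h1
  have n1 := X.n1
  have mB := X.cu.end_ev ℓ (-46 * h) (meas_Bv ℓ n)
  have ma := fun j => X.cu.end_ev ℓ (-46 * h) (end_pa ℓ (38 * n) j)
  have main := end_layer (Q := P) (N := 38 * n) (K := n / 2000) (H := n / 10 ^ 7 + 2)
    (a := fun g => pa ℓ (38 * n) (hs η ℓ (g * aG (-46 * h))))
    (b := fun g => pb 5 ℓ (100 * h + 11) (38 * n) (hs η ℓ (g * aG (8 * h))))
    (fun g j hj => Finset.mem_range.2 (mem_pa.1 hj).1)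
    (fun g j hj => Finset.mem_range.2 (mem_pb.1 hj).1) ma
    (fun j => X.cu.end_ev ℓ _ (end_pb _ _ _ _ j)) mB
    (fun j => X.cu.end_ev ℓ (-46 * h) (end_mF ℓ n j)) fun j => X.jump j
  have up : ∀ t, MeasurableSet {u : ℕ → ℝ | upb t ℓ (100 * h + 11) (u 0) (u 1)} := fun t =>
    (end_dn _ _ _ _).inter (measurableSet_lt (measurable_pi_apply 0) measurable_const)
  have mv : ∀ t y y' w w', 0 ≤ y → |w' - w| ≤ ℓ → |w - y| ≤ 1 → |w' - y'| ≤ 1 →
      upb t ℓ (100 * h + 11) y y' → upb (t + 2 * 1) ℓ (100 * h + 11) w w' :=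
    fun t y y' w w' _ _ k1 k2 k => ⟨k.1.move k2 k1, by linarith [k.2, (abs_le.1 k1).2]⟩
  have one : ∀ j ∈ Finset.range (38 * n), 1 - 60 * (1 / 10 ^ 16) - P.real {g | j ∈ ot ℓ Y
      (100 * h + 11) (38 * n) (hs η ℓ (g * aG (-46 * h)))}
      ≤ P.real {g | j ∈ pa ℓ (38 * n) (hs η ℓ (g * aG (-46 * h)))}
        + P.real {g | j ∈ pb 5 ℓ (100 * h + 11) (38 * n) (hs η ℓ (g * aG (8 * h)))} :=
    fun j hj => by
    rw [Finset.mem_range] at hj
    have t := X.two (up 1) (up (1 + 2 * 1)) (up (1 + 2 * 1 + 2 * 1)) (mv 1) (mv _)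
      (p := -46 * h) (q := 8 * h) le_rfl (by linarith) (by linarith) le_rfl hj hj
    rw [show (1 : ℝ) + 2 * 1 + 2 * 1 = 5 by norm_num] at t
    have u : (univ : Set SL2) ⊆ {g | j ∈ pa ℓ (38 * n) (hs η ℓ (g * aG (-46 * h)))} ∪
        ({g | j ∈ ot ℓ Y (100 * h + 11) (38 * n) (hs η ℓ (g * aG (-46 * h)))} ∪
          {g | upb 1 ℓ (100 * h + 11) (hs η ℓ (g * aG (-46 * h)) j)
            (hs η ℓ (g * aG (-46 * h)) (j + 1))}) := fun g _ => by
      simp only [mem_union, mem_ofPred_eq, mem_pa, mem_ot, hj, true_and]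
      by_contra hc
      push Not at hc
      obtain ⟨c1, ⟨-, c2, c3⟩, c4⟩ := hc
      exact c4 ⟨c3.resolve_left c1, c2⟩
    have v := (measureReal_mono (μ := P) u).trans ((measureReal_union_le _ _).trans
      (add_le_add le_rfl (measureReal_union_le _ _)))
    rw [probReal_univ] at v
    simp only [mem_pb, hj, true_and]
    linarith
  have s1 := Finset.sum_le_sum one
  rw [Finset.sum_sub_distrib, Finset.sum_const, Finset.card_range, nsmul_eq_mul] at s1
  have s2 := X.few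
  have k1 : ((n / 2000 : ℕ) : ℝ) ≤ n / 2000 := Nat.cast_div_le
  have k2 : (n : ℝ) ≤ 2000 * ((n / 2000 : ℕ) : ℝ) + 2000 := by
    exact_mod_cast (by omega : n ≤ 2000 * (n / 2000) + 2000)
  have k3 : ((n / 10 ^ 7 : ℕ) : ℝ) ≤ n / ((10 ^ 7 : ℕ) : ℝ) := Nat.cast_div_le
  rw [Nat.cast_add] at main
  generalize ((n / 2000 : ℕ) : ℝ) = K at *
  generalize ((n / 10 ^ 7 : ℕ) : ℝ) = H at *
  push_cast at main s1 k3
  by_contra hc
  have := mul_le_mul_of_nonneg_left (not_le.1 hc).le (show 0 ≤ K by linarith)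
  linarith

lemma end_Fl (ℓ R v : ℝ) : MeasurableSet {u : ℕ → ℝ | v < Fl ℓ R (u 0) (u 1)} := by
  refine measurableSet_lt measurable_const ?_
  unfold Fl
  fun_prop

/-- the gain event is frequent -/
theorem Ctx.often (X : Ctx Λ C η P h ℓ Y n) :
    1 / 100 ≤ P.real {g | Bv ℓ n (hs η ℓ (g * aG (-46 * h)))} := by
  have := X.prob
  obtain ⟨a1, a2⟩ := X.h1
  have n1 := X.n1
  have l0 := X.l0
  have y0 := X.y0
  set E : Set SL2 := {g | Bv ℓ n (hs η ℓ (g * aG (-46 * h)))} ∪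
    ({g | (n : ℝ) / 2000 < (ot ℓ Y (100 * h + 11) (38 * n) (hs η ℓ (g * aG (-46 * h)))).card} ∪
    ({g | n ∈ bad Y (100 * h + 11) (38 * n) (hs η ℓ (g * aG (-46 * h)))} ∪
      {g | 7 * n ∈ bad Y (100 * h + 11) (38 * n) (hs η ℓ (g * aG (-46 * h)))})) with hE
  have up : ∀ g, g ∉ E → Fl ℓ (110 * h) (hs η ℓ (g * aG (-46 * h)) n)
      (hs η ℓ (g * aG (-46 * h)) (n + 1)) + 5 * h ≤ Fl ℓ (110 * h)
        (hs η ℓ (g * aG (-46 * h)) (7 * n)) (hs η ℓ (g * aG (-46 * h)) (7 * n + 1)) :=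
    fun g hg => by
    simp only [hE, mem_union, mem_ofPred_eq, mem_bad, not_or, not_lt, not_not,
      show n < 38 * n by omega, show 7 * n < 38 * n by omega, true_and] at hg
    obtain ⟨b1, b2, ⟨b3, b4⟩, b5, b6⟩ := hg
    obtain ⟨S, T⟩ := X.cu.ten (ℓ := ℓ) (by linarith) (g * aG (-46 * h))
    obtain ⟨β, hβ, e⟩ := T.ex (7 * n) (by linarith)
    have c : 3 ≤ β n := by
      by_contra hc
      exact b1 (T.chain l0 y0 (by omega) hβ (not_le.1 hc) (by rwa [e]) b2)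
    have := T.lyap (Y := Y) l0 (by linarith) (by omega) hβ c (by linarith) b3
      (by rw [← X.hn]; linarith [b4]) b5 (by rw [← X.hn]; linarith [b6])
    rwa [← X.hn] at this
  have d : 2 * (110 * h) / ℓ + 1 ≤ h / 2 / 2 := by
    have : 2 * (110 * h) / ℓ = 220 * n := by rw [X.hn]; field_simp; ring
    rw [this]; linarith
  have mv : ∀ v y y' w w', 0 ≤ y → |w' - w| ≤ ℓ → |w - y| ≤ 1 → |w' - y'| ≤ 1 →
      v < Fl ℓ (110 * h) y y' → v - h / 2 < Fl ℓ (110 * h) w w' :=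
    fun v y y' w w' k0 k1 k2 k3 k => by
      linarith [Fl_move (R := 110 * h) (by linarith) k0 (by linarith) k1 k2 k3]
  set S : ℝ → Set SL2 := fun v => {g | v < Fl ℓ (110 * h) (hs η ℓ (g * aG (-46 * h)) n)
    (hs η ℓ (g * aG (-46 * h)) (n + 1))} with hS
  have step : ∀ v, P.real (S v) ≤ P.real (S (v + 4 * h)) + (P.real E + 60 * (1 / 10 ^ 16)) :=
    fun v => by
    have t := X.two (end_Fl ℓ (110 * h) (v + 5 * h)) (end_Fl ℓ (110 * h) (v + 5 * h - h / 2))
      (end_Fl ℓ (110 * h) (v + 5 * h - h / 2 - h / 2)) (mv _) (mv _) (p := -46 * h)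
      (q := -46 * h) (i := 7 * n) (j := n) le_rfl (by linarith) le_rfl (by linarith)
      (by omega) (by omega)
    rw [show v + 5 * h - h / 2 - h / 2 = v + 4 * h by ring] at t
    have u : S v ⊆ {g | v + 5 * h < Fl ℓ (110 * h) (hs η ℓ (g * aG (-46 * h)) (7 * n))
        (hs η ℓ (g * aG (-46 * h)) (7 * n + 1))} ∪ E := fun g hg => by
      by_cases k : g ∈ E
      · exact Or.inr k
      · refine Or.inl ?_
        have k1 := up g k
        simp only [hS, mem_ofPred_eq] at hg ⊢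
        linarith
    have := (measureReal_mono (μ := P) u).trans (measureReal_union_le _ _)
    linarith
  have ab : ∀ g, |Fl ℓ (110 * h) (hs η ℓ (g * aG (-46 * h)) n)
      (hs η ℓ (g * aG (-46 * h)) (n + 1))| ≤ 110 * h := fun g => by
    obtain ⟨S, T⟩ := X.cu.ten (ℓ := ℓ) (by linarith) (g * aG (-46 * h))
    refine Fl_abs (by linarith) (by linarith [T.three n]) (by linarith) ?_
    simpa using T.lip n (n + 1) (by omega)
  have ind : ∀ k : ℕ, 1 ≤ P.real (S (-111 * h + k * (4 * h)))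
      + k * (P.real E + 60 * (1 / 10 ^ 16)) := fun k => by
    induction k with
    | zero =>
      have : S (-111 * h + (0 : ℕ) * (4 * h)) = univ := eq_univ_of_forall fun g => by
        have := (abs_le.1 (ab g)).1
        simp only [hS, mem_ofPred_eq]
        push_cast; linarith
      rw [this]; simp
    | succ k ih =>
      have := step (-111 * h + k * (4 * h))
      rw [show -111 * h + ((k + 1 : ℕ) : ℝ) * (4 * h) = -111 * h + k * (4 * h) + 4 * h by
        push_cast; ring]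
      push_cast; linarith
  have fin := ind 56
  have e0 : S (-111 * h + (56 : ℕ) * (4 * h)) = ∅ := eq_empty_of_forall_notMem fun g hg => by
    have := (abs_le.1 (ab g)).2
    simp only [hS, mem_ofPred_eq] at hg
    push_cast at hg; linarith
  rw [e0, measureReal_empty] at fin
  have e1 : P.real E ≤ _ := (measureReal_union_le _ _).trans (add_le_add le_rfl
    ((measureReal_union_le _ _).trans (add_le_add le_rfl (measureReal_union_le _ _))))
  have e2 := X.bad1 (j := n) (by omega)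
  have e3 := X.bad1 (j := 7 * n) (by omega)
  have e4 := (end_markov (Q := P) (N := 38 * n)
    (a := fun g => ot ℓ Y (100 * h + 11) (38 * n) (hs η ℓ (g * aG (-46 * h))))
    (fun g j hj => Finset.mem_range.2 (mem_ot.1 hj).1)
    (fun j => X.cu.end_ev ℓ _ (end_ot _ _ _ _ j)) ((n : ℝ) / 2000)).trans X.few
  have e5 : P.real {g | (n : ℝ) / 2000 <
      (ot ℓ Y (100 * h + 11) (38 * n) (hs η ℓ (g * aG (-46 * h)))).card} ≤ 1 / 1000 := by
    by_contra hc
    have := mul_le_mul_of_nonneg_left (not_le.1 hc).le (show 0 ≤ (n : ℝ) / 2000 by positivity)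
    linarith
  push_cast at fin
  linarith

theorem Cu.endgame (H : Cu Λ C η) {ℓ₁ : ℝ} (hf : ∀ ℓ ≥ ℓ₁, Fup η ℓ) :
    ∃ Y h₀ : ℝ, ∀ h ≥ h₀, ∀ P₀ P : Measure SL2, IsProbabilityMeasure P₀ →
      IsProbabilityMeasure P → Tr1 Λ P h (1 / 10 ^ 16) → Tr0 Λ P₀ P h (1 / 10 ^ 16) →
      P₀.real {g | Y < η (bp g) ∧ η (bp g) < 100 * h + 9} ≤ 1 - 9 / 10 ^ 9 := by
  obtain ⟨l, l1, l2⟩ : ∃ l : ℝ, ℓ₁ ≤ l ∧ 1000 ≤ l := ⟨max ℓ₁ 1000, le_max_left _ _, le_max_right _ _⟩
  refine ⟨(10 ^ 9 + 2) * (2 * l) + 43, l * 10 ^ 9, fun h hh P₀ P hP₀ hP tr tr₀ => ?_⟩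
  have h1 : 1 ≤ h := by linarith
  set n := ⌊h / l⌋₊ with hn
  have n1 : 10 ^ 9 ≤ n := Nat.le_floor (by
    rw [le_div_iff₀ (by linarith)]; push_cast; linarith)
  have n1' : (10 : ℝ) ^ 9 ≤ n := by exact_mod_cast n1
  have n2 : (n : ℝ) * l ≤ h := by
    rw [← le_div_iff₀ (by linarith)]; exact Nat.floor_le (by positivity)
  have n3 : h < (n + 1) * l := by
    rw [← div_lt_iff₀ (by linarith)]; exact Nat.lt_floor_add_one _
  set ℓ := h / n with hℓ
  have e1 : h = n * ℓ := by rw [hℓ]; field_simp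
  have l3 : l ≤ ℓ := by rw [hℓ, le_div_iff₀ (by linarith)]; linarith
  have l4 : ℓ ≤ 2 * l := by rw [hℓ, div_le_iff₀ (by linarith)]; nlinarith
  by_contra hm
  push Not at hm
  have ms : ∀ a b : ℝ, MeasurableSet {g | a < η (bp g) ∧ η (bp g) < b} := fun a b =>
    (H.cont.measurable.comp measurable_bp) measurableSet_Ioo
  have li : ∀ a b : ℝ, LI Λ {g | a < η (bp g) ∧ η (bp g) < b} := fun a b γ hγ g => by
    simp only [mem_ofPred_eq, bp_mul, H.inv γ hγ]
  have st : ∀ a b : ℝ, Stp 1 0 {g | a < η (bp g) ∧ η (bp g) < b}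
      {g | a - 1 < η (bp g) ∧ η (bp g) < b + 1} := fun a b g hg g' hc => by
    have h2 := hc 0 ⟨le_rfl, le_rfl⟩
    rw [aG_zero, mul_one, mul_one] at h2
    have := abs_le.1 ((H.lip _ _).trans h2)
    exact ⟨by linarith [hg.1, this.1], by linarith [hg.2, this.2]⟩
  have s1 := (tr₀ (22 * h) le_rfl (by linarith)).stat (p := 0) (w := 0) (ρ := 1) (Real.exp_pos _)
    (ms _ _) (ms _ _) (li _ _) (li _ _) (st ((10 ^ 9 + 2) * (2 * l) + 43) (100 * h + 9)) (by
      rw [← Real.exp_sub, ← Real.exp_add, ← Real.exp_add]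
      exact (add_le_add (stat_half (by linarith)) (stat_half (by linarith))).trans (by norm_num))
  rw [show tm 0 {g | (10 ^ 9 + 2) * (2 * l) + 43 < η (bp g) ∧ η (bp g) < 100 * h + 9}
    = {g | (10 ^ 9 + 2) * (2 * l) + 43 < η (bp g) ∧ η (bp g) < 100 * h + 9} by
      ext g; simp [tm, aG_zero]] at s1
  have X : Ctx Λ C η P h ℓ ((10 ^ 9 + 2) * (2 * l) + 43 - 1 - 1 - 1) n :=
    ⟨H, hP, by linarith, e1, n1, by linarith, tr, fun p p0 p1 => by
      have := transport h1 tr (w := 0) (p := 0 - 22 * h) (q := p) (ms _ _) (ms _ _) (ms _ _)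
        (li _ _) (li _ _) (li _ _) (st ((10 ^ 9 + 2) * (2 * l) + 43 - 1) (100 * h + 9 + 1))
        (st _ _) le_rfl (by linarith) (by linarith) (by linarith) p0 (by linarith)
      rw [show 100 * h + 9 + 1 + 1 + 1 = 100 * h + 12 by ring] at this
      linarith, hf ℓ (l1.trans l3)⟩
  linarith [X.rare, X.often]

end Pool.Agent.Lib.MP_a52643_an.NE
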