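import Pool.Agent.Lib.MP_a52643_an.NE.Step
import Pool.Agent.Lib.MP_a52643_an.NS.Fou2

/-!
The uncertainty principle for forbidden configurations.
-/

open MeasureTheory Set Filter Topology Metric UpperHalfPlane
open scoped ENNReal MatrixGroups Real FourierTransform ComplexConjugate

noncomputable section

namespace Pool.Agent.Lib.MP_a52643_an.NE

open NS hiding nr Zt Zs isOpen_Zt isOpen_Zs

variable {Λ C : Set SL2} {η : ℍ → ℝ}

private lemma fup_cover {N : ℕ} (a b : Finset ℕ) {F : Finset (ℕ × ℕ)} (hF : Chn N F) :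
    sc a F - (Finset.range N \ (a ∪ b)).card
      ≤ ∑ p ∈ F, (cd a (p.1 - mm p) p.1 + cd b p.1 p.2 - (p.2 - p.1) - 2) := by
  classical
  have s1 : ∑ p ∈ F, cd (Finset.range N \ (a ∪ b)) p.1 p.2 ≤ (Finset.range N \ (a ∪ b)).card := by
    unfold cd
    rw [← Nat.cast_sum, Nat.cast_le, ← Finset.card_biUnion]
    · exact Finset.card_le_card (Finset.biUnion_subset.2 fun _ _ => Finset.inter_subset_left)
    · intro p hp q hq hpq
      have a3 := hF.2 p hp q hq hpq
      rw [Function.onFun, Finset.disjoint_left]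
      intro x hx hx'
      simp only [Finset.mem_inter, Finset.mem_Ico] at hx hx'
      omega
  refine le_trans (sub_le_sub_left s1 _) ?_
  rw [sc, ← Finset.sum_sub_distrib]
  refine Finset.sum_le_sum fun p hp => ?_
  obtain ⟨h1, h2⟩ := hF.1 p hp
  have : (p.2 : ℝ) - p.1
      ≤ cd a p.1 p.2 + cd b p.1 p.2 + cd (Finset.range N \ (a ∪ b)) p.1 p.2 := by
    unfold cd
    rw [← Nat.cast_sub h1.le, ← Nat.cast_add, ← Nat.cast_add, Nat.cast_le, ← Nat.card_Ico p.1 p.2]
    refine le_trans (Finset.card_le_card fun i hi => ?_) (le_trans (Finset.card_union_le _ _)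
      (Nat.add_le_add_right (Finset.card_union_le _ _) _))
    simp only [Finset.mem_union, Finset.mem_inter, Finset.mem_sdiff, Finset.mem_range,
      Finset.mem_Ico] at hi ⊢
    have : i < N := by omega
    tauto
  linarith

theorem Cu.fupm (H : Cu Λ C η) : ∃ ℓ₁ : ℝ, ∀ ℓ ≥ ℓ₁, ∀ (N : ℕ) (y : ℝ) (g₁ g₂ : SL2) (τ : ℝ)
    (a b : Finset ℕ) (F : Finset (ℕ × ℕ)), 1 ≤ N → (N : ℝ) / 10 ^ 9 ≤ y → a ⊆ Finset.range N →
    b ⊆ Finset.range N → Chn N F → Fb N y a b F →
    UP (Zt η 1 ℓ g₂ τ a ∩ {x | ∀ p ∈ F, Exc ℓ (hv η ℓ g₂ τ x) p}) (Zs η 5 ℓ g₁ τ b)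
      (Real.exp (-N) / 64 ^ N) := by
  classical
  obtain ⟨K₁, k1, H1⟩ := H.step_ov
  obtain ⟨K₂, k2, H2⟩ := H.step_cv
  set K := max K₁ K₂ with hK
  have c1 : 1 ≤ K := k1.trans (le_max_left _ _)
  have hl : 0 ≤ Real.log K := Real.log_nonneg c1
  refine ⟨10 ^ 9 * (Real.log K + 7), fun ℓ hℓ N y g₁ g₂ τ a b F _ hy ha _ hC hF => ?_⟩
  have l1 : 100 ≤ ℓ := by linarith
  have l0 : 0 ≤ ℓ := by linarith
  set X := Zt η 1 ℓ g₂ τ a ∩ {x | ∀ p ∈ F, Exc ℓ (hv η ℓ g₂ τ x) p} with hX
  set G : ℕ → ℝ → Prop := fun q x => UP (nb X (Real.exp (τ + q * ℓ))) (Zs η 5 ℓ g₁ τ b)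
    (K ^ (N - q) * Real.exp (-(ℓ * x))) with hG
  have top : G N 0 := by simpa [hG] using UP_one _ _
  have mono : ∀ q q' x, q' ≤ q → G q x → G q' x := fun q q' x hq h => by
    refine h.mono ?_ subset_rfl
      (mul_le_mul_of_nonneg_right (pow_le_pow_right₀ c1 (by omega)) (Real.exp_pos _).le)
    rintro z ⟨z', hz, hd⟩
    refine ⟨z', hz, hd.trans (Real.exp_le_exp.2 ?_)⟩
    have : (q' : ℝ) ≤ q := by exact_mod_cast hq
    nlinarith
  have ov : ∀ d q, q + d = N → G q (cd (a ∩ b) q N) := by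
    intro d
    induction d with
    | zero =>
      intro q hq
      obtain rfl : q = N := by omega
      have : cd (a ∩ b) q q = 0 := by simp [cd]
      rwa [this]
    | succ d ih =>
      intro q hq
      have ih := ih (q + 1) (by omega)
      unfold cd at ih ⊢
      rw [← Finset.insert_Ico_add_one_left_eq_Ico (show q < N by omega)]
      by_cases h : q ∈ a ∩ b
      · rw [Finset.inter_insert_of_mem h, Finset.card_insert_of_notMem (by simp)]
        refine (H1 ℓ l1 g₁ g₂ τ a b X _ q (by positivity) inter_subset_left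
          (Finset.mem_inter.1 h).1 (Finset.mem_inter.1 h).2 ih).mono subset_rfl subset_rfl ?_
        rw [show N - q = N - (q + 1) + 1 by omega, pow_succ]
        push_cast
        rw [mul_add, neg_add, Real.exp_add, mul_one]
        calc _ ≤ K * Real.exp (-ℓ) * _ := by gcongr; exact le_max_left _ _
          _ = _ := by ring
      · rw [Finset.inter_insert_of_notMem h]
        exact mono _ _ _ (Nat.le_succ q) ih
  have cv : ∀ E : Finset (ℕ × ℕ), E ⊆ F → ∀ q ≤ N, (∀ p ∈ E, q ≤ p.1 - mm p) →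
      G q (∑ p ∈ E, (cd a (p.1 - mm p) p.1 + cd b p.1 p.2 - (p.2 - p.1) - 2)) := by
    intro E
    induction E using Finset.induction_on_min_value (Prod.fst : ℕ × ℕ → ℕ) with
    | empty => exact fun _ q hq _ => by simpa using mono N q 0 hq top
    | insert p E hp hm ih =>
      intro hE q _ h
      have p1 := hE (Finset.mem_insert_self p E)
      obtain ⟨p2, p3⟩ := hC.1 p p1
      have ih := ih ((Finset.subset_insert p E).trans hE) p.2 p3 fun r hr => by
        have r1 := hE (Finset.mem_insert_of_mem hr)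
        have r2 := hC.1 r r1
        have r3 := hC.2 p p1 r r1 fun e => hp (e ▸ hr)
        have r4 := hm r hr
        omega
      refine mono _ _ _ (h p (Finset.mem_insert_self p E)) ?_
      refine (H2 ℓ l1 g₁ g₂ τ a b X _ p (by positivity) inter_subset_left
        (fun x hx => hx.2 p p1) ih).mono subset_rfl subset_rfl ?_
      rw [Finset.sum_insert hp, show N - (p.1 - mm p) = (p.2 - (p.1 - mm p)) + (N - p.2) by omega,
        pow_add, mul_add ℓ, neg_add, Real.exp_add]
      calc _ ≤ K ^ (p.2 - (p.1 - mm p)) * _ * _ := by gcongr; exact le_max_right _ _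
        _ = _ := by ring
  obtain ⟨x, hx, h⟩ : ∃ x : ℝ, y ≤ x ∧ G 0 x := by
    rcases hF with hF | hF
    · refine ⟨_, ?_, ov N 0 (by omega)⟩
      rwa [cd, ← Finset.range_eq_Ico, Finset.inter_eq_left.2 (Finset.inter_subset_left.trans ha)]
    · exact ⟨_, by linarith [fup_cover a b hC], cv F subset_rfl 0 (Nat.zero_le _)
        fun _ _ => Nat.zero_le _⟩
  refine h.mono (fun z hz => ⟨z, hz, by simpa using (Real.exp_pos _).le⟩) subset_rfl ?_
  have n0 : (0 : ℝ) ≤ N := Nat.cast_nonneg N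
  have e1 : K ^ (N - 0) = Real.exp (N * Real.log K) := by
    rw [Real.exp_nat_mul, Real.exp_log (by linarith), Nat.sub_zero]
  have e2 : (64 : ℝ) ^ N ≤ Real.exp (N * 6) := by
    rw [Real.exp_nat_mul]
    refine pow_le_pow_left₀ (by norm_num) ?_ N
    have h2 : (2 : ℝ) ≤ Real.exp 1 := by linarith [Real.add_one_le_exp (1 : ℝ)]
    have h3 := pow_le_pow_left₀ (by norm_num) h2 6
    rw [← Real.exp_nat_mul] at h3
    norm_num at h3 ⊢
    exact h3
  rw [le_div_iff₀ (by positivity), e1]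
  refine (mul_le_mul_of_nonneg_left e2 (by positivity)).trans ?_
  rw [← Real.exp_add, ← Real.exp_add, Real.exp_le_exp]
  have b2 := mul_le_mul_of_nonneg_left (hy.trans hx) l0
  have b3 := mul_le_mul_of_nonneg_left hℓ n0
  linarith

open Classical in
theorem card_chn (N : ℕ) :
    (((Finset.range (N + 1) ×ˢ Finset.range (N + 1)).powerset.filter (Chn N)).card : ℝ)
      ≤ 4 ^ (N + 1) := by
  have key : ∀ F, Chn N F → ∀ p ∈ F, ∀ r ∈ F, p.1 < r.2 → p.2 ≤ r.2 := fun F hF p hp r hr h => by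
    by_cases e : p = r
    · rw [e]
    · have a1 := hF.2 p hp r hr e
      have a2 := (hF.1 r hr).1
      omega
  have sub : ∀ F F' : Finset (ℕ × ℕ), Chn N F → Chn N F' → F.image Prod.fst = F'.image Prod.fst →
      F.image Prod.snd = F'.image Prod.snd → F ⊆ F' := fun F F' hF hF' e1 e2 p hp => by
    obtain ⟨p', hp', a1⟩ := Finset.mem_image.1 (e1 ▸ Finset.mem_image_of_mem Prod.fst hp)
    obtain ⟨r', hr', a2⟩ := Finset.mem_image.1 (e2 ▸ Finset.mem_image_of_mem Prod.snd hp)
    obtain ⟨r, hr, a3⟩ := Finset.mem_image.1 (e2.symm ▸ Finset.mem_image_of_mem Prod.snd hp')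
    have b1 := (hF.1 p hp).1
    have b2 := (hF'.1 p' hp').1
    have b3 := key F hF p hp r hr (by omega)
    have b4 := key F' hF' p' hp' r' hr' (by omega)
    have : p = p' := Prod.ext a1.symm (by omega)
    rwa [this]
  have h : ((Finset.range (N + 1) ×ˢ Finset.range (N + 1)).powerset.filter (Chn N)).card
      ≤ ((Finset.range (N + 1)).powerset ×ˢ (Finset.range (N + 1)).powerset).card := by
    refine Finset.card_le_card_of_injOn (fun F => (F.image Prod.fst, F.image Prod.snd))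
      (fun F hF => ?_) fun F hF F' hF' e => ?_
    · have := Finset.mem_powerset.1 (Finset.mem_filter.1 hF).1
      simp only [Finset.coe_product, Finset.coe_powerset, mem_prod, mem_preimage, mem_powerset_iff,
        Finset.coe_subset, Finset.image_subset_iff]
      exact ⟨fun p hp => (Finset.mem_product.1 (this hp)).1,
        fun p hp => (Finset.mem_product.1 (this hp)).2⟩
    · have a1 := (Finset.mem_filter.1 hF).2
      have a2 := (Finset.mem_filter.1 hF').2
      obtain ⟨e1, e2⟩ := Prod.ext_iff.1 e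
      exact Finset.Subset.antisymm (sub F F' a1 a2 e1 e2) (sub F' F a2 a1 e1.symm e2.symm)
  rw [Finset.card_product, Finset.card_powerset, Finset.card_range, ← mul_pow] at h
  exact_mod_cast h

private lemma fup_meas (H : Cu Λ C η) (ℓ : ℝ) (g : SL2) (τ : ℝ) (F : Finset (ℕ × ℕ)) :
    MeasurableSet {x | ∀ p ∈ F, Exc ℓ (hv η ℓ g τ x) p} := by
  have : {x | ∀ p ∈ F, Exc ℓ (hv η ℓ g τ x) p} = ⋂ p ∈ F, {x | Exc ℓ (hv η ℓ g τ x) p} := by
    ext x; simp
  rw [this]
  refine F.measurableSet_biInter fun p _ => ?_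
  have m := fun j => (H.cont_hv ℓ g τ j).measurable
  exact (MeasurableSet.const _).inter ((MeasurableSet.const _).inter
    ((measurableSet_lt measurable_const (m _)).inter ((measurableSet_le (m _) measurable_const).inter
      ((measurableSet_lt measurable_const ((m _).sub (m _))).inter
        (measurableSet_le ((m _).sub (m _)) measurable_const)))))

theorem Cu.fup (H : Cu Λ C η) : ∃ ℓ₁ : ℝ, ∀ ℓ ≥ ℓ₁, Fup η ℓ := by
  classical
  obtain ⟨ℓ₁, h1⟩ := H.fupm
  refine ⟨ℓ₁, fun ℓ hℓ N y R g p lam X Y hN hy hF => ?_⟩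
  have e1 : ∀ ξ, hs η ℓ (g * vG (-(ξ / Real.exp lam)) * aG p)
      = hv η ℓ (g * wG * aG lam) (p + lam) ξ := fun ξ => by
    funext j
    rw [hs, hv, mul_assoc _ (aG _), ← aG_add, bp_vG_aG, mul_smul (g * wG), aG_pt, Real.exp_neg]
    congr 3 <;> ring
  have e2 : ∀ x (j : ℕ), hs η ℓ (g * uG x * aG (p + lam)) j
      = η (g • pt x (-(p + lam) - j * ℓ)) := fun x j => by
    rw [hs, mul_assoc _ (aG _), ← aG_add, bp_uG_aG]
    congr 3; ring
  simp only [e1] at hF
  set sb := (Finset.range N).powerset.filter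
    fun b => ∃ x ∈ X, b = pb 5 ℓ R N (hs η ℓ (g * uG x * aG (p + lam))) with hsb
  set sc := (Finset.range (N + 1) ×ˢ Finset.range (N + 1)).powerset.filter (Chn N) with hsc
  set sa := ((Finset.range N).powerset ×ˢ sc).filter fun z => ∀ b ∈ sb, Fb N y z.1 b z.2 with hsa
  have k1 : ∀ z ∈ sa, UP (⋃ b ∈ sb, Zs η 5 ℓ g (p + lam) b)
      (Zt η 1 ℓ (g * wG * aG lam) (p + lam) z.1 ∩
        {x | ∀ q ∈ z.2, Exc ℓ (hv η ℓ (g * wG * aG lam) (p + lam) x) q})
      (sb.card * (Real.exp (-N) / 64 ^ N)) := fun z hz => by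
    obtain ⟨a1, a2⟩ := Finset.mem_filter.1 hz
    obtain ⟨a3, a4⟩ := Finset.mem_product.1 a1
    refine (UP.biUnion_right fun b hb => ?_).symm
      ((H.isOpen_Zt _ _ _ _ _).measurableSet.inter (fup_meas H _ _ _ _))
    exact h1 ℓ hℓ N y _ _ _ z.1 b z.2 hN hy (Finset.mem_powerset.1 a3)
      (Finset.mem_powerset.1 (Finset.mem_filter.1 hb).1) (Finset.mem_filter.1 a4).2 (a2 b hb)
  refine (UP.biUnion_right k1).mono (fun x hx => ?_) (fun ξ hξ => ?_) ?_
  · refine mem_biUnion (Finset.mem_coe.2 (Finset.mem_filter.2 ⟨Finset.mem_powerset.2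
      fun j hj => Finset.mem_range.2 (mem_pb.1 hj).1, x, hx, rfl⟩)) fun j hj => ?_
    have := (mem_pb.1 hj).2.1
    rw [e2, e2] at this
    unfold nr
    push_cast at this
    convert this using 4
    ring
  · obtain ⟨F, f1, f2, f3⟩ := hF ξ hξ
    refine mem_biUnion (x := (pa ℓ N (hv η ℓ (g * wG * aG lam) (p + lam) ξ), F))
      (Finset.mem_coe.2 (Finset.mem_filter.2 ⟨Finset.mem_product.2 ⟨Finset.mem_powerset.2
        fun j hj => Finset.mem_range.2 (mem_pa.1 hj).1, Finset.mem_filter.2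
          ⟨Finset.mem_powerset.2 fun q hq => ?_, f1⟩⟩, fun b hb => ?_⟩)) ⟨fun j hj => ?_, f2⟩
    · have := f1.1 q hq
      simp only [Finset.mem_product, Finset.mem_range]
      omega
    · obtain ⟨x, hx, rfl⟩ := (Finset.mem_filter.1 hb).2
      exact f3 x hx
    · have := (mem_pa.1 hj).2
      unfold hv at this
      unfold nr
      push_cast at this
      convert this using 4
      ring
  · have c1 : (sb.card : ℝ) ≤ 2 ^ N := by
      have := Finset.card_filter_le (Finset.range N).powerset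
        fun b => ∃ x ∈ X, b = pb 5 ℓ R N (hs η ℓ (g * uG x * aG (p + lam)))
      rw [Finset.card_powerset, Finset.card_range] at this
      exact_mod_cast this
    have c2 : (sa.card : ℝ) ≤ 2 ^ N * 4 ^ (N + 1) := by
      have := Finset.card_filter_le ((Finset.range N).powerset ×ˢ sc)
        fun z => ∀ b ∈ sb, Fb N y z.1 b z.2
      rw [Finset.card_product, Finset.card_powerset, Finset.card_range] at this
      have h' : (sa.card : ℝ) ≤ 2 ^ N * sc.card := by exact_mod_cast this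
      exact h'.trans (mul_le_mul_of_nonneg_left (card_chn N) (by positivity))
    have c3 : (4 : ℝ) ^ (N + 1) ≤ 4 ^ N * 4 ^ N := by
      rw [pow_succ]
      exact mul_le_mul_of_nonneg_left (le_self_pow₀ (by norm_num) (by omega)) (by positivity)
    have e : (64 : ℝ) ^ N = 2 ^ N * (4 ^ N * 4 ^ N) * 2 ^ N := by
      rw [← mul_pow, ← mul_pow, ← mul_pow]; norm_num
    calc _ ≤ (2 : ℝ) ^ N * (4 ^ N * 4 ^ N) * (2 ^ N * (Real.exp (-N) / 64 ^ N)) := by
          gcongr
          exact c2.trans (mul_le_mul_of_nonneg_left c3 (by positivity))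
      _ = _ := by rw [e]; field_simp

end Pool.Agent.Lib.MP_a52643_an.NE
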