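import Pool.Agent.Lib.MP_a52643_an.NE.Fup
import Pool.Agent.Lib.MP_a52643_an.NE.End
import Pool.Agent.Lib.MP_a52643_an.NE.Link
import Pool.Agent.Lib.MP_a52643_an.NE.Cusp
import Pool.Agent.Lib.MP_a52643_an.NS.Main

/-!
A fixed part of the mass stays in a compact set.
-/

open MeasureTheory Set Filter Topology Metric UpperHalfPlane
open scoped ENNReal MatrixGroups Real FourierTransform ComplexConjugate

noncomputable section

namespace Pool.Agent.Lib.MP_a52643_an.NE

open NS hiding nr Zt Zs isOpen_Zt isOpen_Zs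

variable {Λ C : Set SL2} {η : ℍ → ℝ}

theorem Cu.rep_bound (H : Cu Λ C η) : ∃ Y r₀ : ℝ, ∀ r ≥ r₀, ∀ (ν : Measure SL2) (φ : ℍ → ℝ),
    Rep Λ ν φ r → ∫ g in {g | Y ≤ η (bp g) ∧ η (bp g) ≤ Real.log r + 5}, φ (bp g) ^ 2 ∂ν
      ≤ 1 - 8 / 10 ^ 9 := by
  obtain ⟨ℓ₁, hf⟩ := H.fup
  obtain ⟨Y, h₀, E⟩ := H.endgame hf
  obtain ⟨h₁, J₁⟩ := jump_main (θ := 1 / 10 ^ 16) (by norm_num)
  obtain ⟨h₂, J₂⟩ := jump_link (θ := 1 / 10 ^ 16) (by norm_num)
  refine ⟨Y + 1, π * Real.exp (100 * max (max h₀ h₁) (max h₂ (max 1 (10 ^ 16 / 1)))),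
    fun r hr ν φ R => ?_⟩
  have hπ := Real.pi_pos
  have r0 : 0 < r := lt_of_lt_of_le (by positivity) hr
  obtain ⟨h, rfl⟩ : ∃ h, r = π * Real.exp (100 * h) := ⟨Real.log (r / π) / 100, by
    rw [mul_div_cancel₀ _ (by norm_num), Real.exp_log (by positivity)]; field_simp⟩
  have hh := le_of_mul_le_mul_left (Real.exp_le_exp.1 (le_of_mul_le_mul_left hr hπ))
    (by norm_num)
  simp only [max_le_iff] at hh
  obtain ⟨⟨a0, a1⟩, a2, a3, a4⟩ := hh
  have e : π * Real.exp (100 * h) / π = Real.exp (100 * h) := by field_simp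
  have h1 := E h a0 _ _ (R.prob (J₂ h a2 (22 * h) le_rfl (by linarith)).pos)
    (R.prob (J₁ h a1 (4 * h) le_rfl (by linarith)).pos)
    (fun T b c => by simpa only [e] using R.master (by norm_num) (J₁ h a1 T b c))
    (fun T b c => by simpa only [e] using R.master (by norm_num) (J₂ h a2 T b c))
  obtain ⟨h3, h4⟩ := main_num one_pos a3 a4
  let a : ℍ → ℝ := fun z => max 0 (min 1 (min (η z - Y) (100 * h + 9 - η z)))
  have a0' : ∀ z, 0 ≤ a z := fun z => le_max_left _ _
  have a1' : ∀ z, a z ≤ 1 := fun z => max_le zero_le_one (min_le_left _ _)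
  have la : ∀ z z', |a z - a z'| ≤ dist z z' := fun z z' => by
    have k := abs_le.1 (H.lip z z')
    refine (abs_max_sub_max_le_max _ _ _ _).trans (max_le (by simp) ?_)
    refine (abs_min_sub_min_le_max _ _ _ _).trans (max_le (by simp) ?_)
    refine (abs_min_sub_min_le_max _ _ _ _).trans (max_le ?_ ?_) <;>
      exact abs_le.2 ⟨by linarith [k.1, k.2], by linarith [k.1, k.2]⟩
  have h2 := link2 R (Real.exp_pos _) (Real.exp_le_one_iff.2 (by linarith)) h3 a0' a1' la
    fun γ hγ z => by simp only [a, H.inv γ hγ]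
  have h5 : {g : SL2 | a (bp g) ≠ 0} ⊆ {g | Y < η (bp g) ∧ η (bp g) < 100 * h + 9} := fun g hg => by
    have k : 0 < min 1 (min (η (bp g) - Y) (100 * h + 9 - η (bp g))) :=
      not_le.1 fun k => hg (max_eq_left k)
    simp only [lt_min_iff] at k
    exact ⟨by linarith [k.2.1], by linarith [k.2.2]⟩
  have := R.prob (J₂ h a2 (22 * h) le_rfl (by linarith)).pos
  have h6 := measureReal_mono (μ := Pm ν φ (π * Real.exp (100 * h)) (Real.exp (-36 * h))) h5
  have h7 : Real.log (π * Real.exp (100 * h)) ≤ 100 * h + 3 := by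
    rw [Real.log_mul hπ.ne' (Real.exp_pos _).ne', Real.log_exp]
    linarith [Real.log_le_sub_one_of_pos hπ, Real.pi_le_four]
  have mη : Measurable fun g : SL2 => η (bp g) := H.cont.measurable.comp measurable_bp
  have iφ : Integrable (fun g => φ (bp g) ^ 2) ν := integrable_of_integral_eq_one R.one
  have ca : Continuous a := by
    have := H.cont
    fun_prop
  have h8 : ∫ g in {g | Y + 1 ≤ η (bp g) ∧ η (bp g) ≤ Real.log (π * Real.exp (100 * h)) + 5},
      φ (bp g) ^ 2 ∂ν ≤ ∫ g, a (bp g) * φ (bp g) ^ 2 ∂ν := by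
    have ms : MeasurableSet
        {g | Y + 1 ≤ η (bp g) ∧ η (bp g) ≤ Real.log (π * Real.exp (100 * h)) + 5} :=
      (measurableSet_le measurable_const mη).inter (measurableSet_le mη measurable_const)
    rw [← integral_indicator ms]
    refine integral_mono (iφ.indicator ms) (iφ.bdd_mul (c := 1)
      (ca.measurable.comp measurable_bp).aestronglyMeasurable (.of_forall fun g => by
        rw [Real.norm_of_nonneg (a0' _)]; exact a1' _)) fun g => ?_
    refine indicator_apply_le' (fun hg => le_mul_of_one_le_left (sq_nonneg _) ?_)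
      fun _ => mul_nonneg (a0' _) (sq_nonneg _)
    exact le_max_of_le_right (le_min le_rfl (le_min (by linarith [hg.1]) (by linarith [hg.2])))
  linarith

open scoped ContDiff Laplacian in
theorem no_full_escape {Γ : Type} [Group Γ] [Countable Γ] [MulAction Γ ℍ] {l : Γ → SL2}
    {D : Set ℍ} (hD : FD l D) : ∃ K : Set ℍ, IsCompact K ∧ ∃ L : ℝ, ∀ (φ : ℍ → ℝ) (lam : ℝ),
      (∀ (γ : Γ) (z : ℍ), φ (γ • z) = φ z) →
      ContDiffOn ℝ ∞ (fun w : ℂ => φ (ofComplex w)) {w | 0 < w.im} →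
      (∀ z : ℍ, z.im ^ 2 * Δ (fun w : ℂ => φ (ofComplex w)) z = -lam * φ z) →
      ∫ z in D, φ z ^ 2 = 1 → L ≤ lam →
      1 / 10 ^ 9 ≤ ∫ z in D ∩ {z | ∃ γ : Γ, γ • z ∈ K}, φ z ^ 2 := by
  obtain ⟨C, η, H, hK, hd⟩ := exists_cu hD
  obtain ⟨Y, r₀, B⟩ := H.rep_bound
  obtain ⟨K, cK, hk⟩ := hK Y
  obtain ⟨r₁, T⟩ := hd (1 / 10 ^ 9) (by norm_num)
  obtain ⟨ν, Q, mp⟩ := exists_quo hD
  refine ⟨K, cK, 1 / 4 + max r₀ r₁ ^ 2, fun φ lam h1 h2 h3 h4 h5 => ?_⟩
  obtain ⟨r, hr, rfl⟩ : ∃ r, max r₀ r₁ ≤ r ∧ lam = 1 / 4 + r ^ 2 :=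
    ⟨√(lam - 1 / 4), Real.le_sqrt_of_sq_le (by linarith),
      by rw [Real.sq_sqrt (by nlinarith [sq_nonneg (max r₀ r₁)])]; ring⟩
  obtain ⟨hb, ht⟩ := T r (le_of_max_le_right hr) φ h1 h2 h3 h4
  have hφ : Continuous φ := by
    have := h2.continuousOn.comp_continuous continuous_coe fun z => z.im_pos
    simpa [Function.comp_def] using this
  have m2 : Measurable fun z => φ z ^ 2 := (hφ.pow 2).measurable
  have R : Rep (range l) ν φ r := by
    refine ⟨Q, hφ, hb, ?_, ?_, fun g h' => ?_⟩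
    · rintro _ ⟨γ, rfl⟩ z
      rw [← hD.act, h1]
    · rw [← h4, ← mp.map_eq, integral_map mp.measurable.aemeasurable m2.aestronglyMeasurable]
    · rw [mean_value h2 (fun z hz => ?_), om_eq]
      have := h3 ⟨z, hz⟩
      rwa [ofComplex_apply_of_im_pos hz]
  have mη := H.cont.measurable
  have m1 : MeasurableSet {z | η z ≤ Y} := measurableSet_le mη measurable_const
  have mt : MeasurableSet {z | Y ≤ η z ∧ η z ≤ Real.log r + 5} :=
    (measurableSet_le measurable_const mη).inter (measurableSet_le mη measurable_const)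
  have m3 : MeasurableSet {z | Real.log r + 5 ≤ η z} := measurableSet_le measurable_const mη
  have h6 : ∫ z in {z | Y ≤ η z ∧ η z ≤ Real.log r + 5}, φ z ^ 2 ∂volume.restrict D
      ≤ 1 - 8 / 10 ^ 9 := by
    refine le_of_eq_of_le ?_ (B r (le_of_max_le_left hr) ν φ R)
    rw [← mp.map_eq, setIntegral_map mt m2.aestronglyMeasurable mp.measurable.aemeasurable]
    rfl
  have iφ : IntegrableOn (fun z => φ z ^ 2) D := integrable_of_integral_eq_one h4
  have h7 : ∫ z in {z | η z ≤ Y}, φ z ^ 2 ∂volume.restrict D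
      ≤ ∫ z in D ∩ {z | ∃ γ : Γ, γ • z ∈ K}, φ z ^ 2 := by
    rw [Measure.restrict_restrict m1]
    exact setIntegral_mono_set (iφ.mono_set inter_subset_left) (.of_forall fun z => sq_nonneg _)
      (LE.le.eventuallyLE fun z hz => ⟨hz.2, hk z hz.1⟩)
  rw [inter_comm, ← Measure.restrict_restrict m3] at ht
  have i1 := Integrable.indicator iφ m1
  have i2 := Integrable.indicator iφ mt
  have i3 := Integrable.indicator iφ m3
  have h8 := integral_mono iφ ((i1.add i2).add i3) fun z => by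
    have k := sq_nonneg (φ z)
    simp only [Pi.add_apply, indicator_apply, mem_ofPred_eq]
    split_ifs with c1 c2 c3 c4 c5 c6 c7 <;> try linarith
    exact absurd ⟨(not_le.1 c1).le, (not_le.1 c7).le⟩ c5
  rw [h4, integral_add' (i1.add i2) i3, integral_add' i1 i2, integral_indicator m1,
    integral_indicator mt, integral_indicator m3] at h8
  linarith

end Pool.Agent.Lib.MP_a52643_an.NE
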