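import Pool.Agent.Lib.MP_a52643_an.NE.Vdc

/-!
Majorants of periodic sets read through a Moebius map.
-/

open MeasureTheory Set Filter Topology Metric UpperHalfPlane
open scoped ENNReal MatrixGroups Real FourierTransform ComplexConjugate

noncomputable section

namespace Pool.Agent.Lib.MP_a52643_an.NE

open NS hiding nr Zt Zs isOpen_Zt isOpen_Zs

variable {Λ C : Set SL2} {η : ℍ → ℝ}

lemma maj_int (k : ℕ) : ee (-(k : ℝ)) = 1 := by
  rw [ee, ← Complex.exp_nat_mul_two_pi_mul_I k]; congr 1; push_cast; ring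

/-- the Dirichlet sum -/
def majD (J : ℕ) (t : ℝ) : ℂ := ∑ k ∈ Finset.range J, ee (k * t)

lemma majD_cont (J : ℕ) : Continuous (majD J) := by unfold majD; fun_prop

lemma majD_per (J : ℕ) (t : ℝ) : majD J (t - 1) = majD J t := by
  refine Finset.sum_congr rfl fun k _ => ?_
  rw [mul_sub, mul_one, sub_eq_add_neg, ee_add, maj_int, mul_one]

lemma majD_sq (J : ℕ) (t : ℝ) : ((‖majD J t‖ ^ 2 : ℝ) : ℂ)
    = ∑ p ∈ Finset.range J ×ˢ Finset.range J, ee (((p.1 : ℝ) - p.2) * t) := by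
  rw [Complex.ofReal_pow, ← Complex.mul_conj', majD, map_sum, Finset.sum_mul_sum,
    Finset.sum_product]
  refine Finset.sum_congr rfl fun k _ => Finset.sum_congr rfl fun k' _ => ?_
  rw [← vdc_conj, ← ee_add]; congr 1; ring

lemma majD_low {J : ℕ} (hJ : 0 < J) {t : ℝ} (ht : |t| ≤ 1 / (13 * J)) :
    (J : ℝ) ^ 2 / 4 ≤ ‖majD J t‖ ^ 2 := by
  have hJ' : (0 : ℝ) < J := by exact_mod_cast hJ
  have h1 : (J : ℝ) / 2 ≤ (majD J t).re := by
    rw [majD, Complex.re_sum]
    have := Finset.card_nsmul_le_sum (Finset.range J) (fun k : ℕ => (ee (k * t)).re) (1 / 2)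
      fun k hk => by
        have hk' : (k : ℝ) ≤ J := by exact_mod_cast (Finset.mem_range.1 hk).le
        have h0 : (0 : ℝ) ≤ k := Nat.cast_nonneg k
        have h2 : |(k : ℝ) * t| ≤ 1 / 13 := by
          rw [abs_mul, abs_of_nonneg h0]
          refine (mul_le_mul hk' ht (abs_nonneg _) hJ'.le).trans (le_of_eq ?_)
          field_simp
        have h3 : |-2 * π * (k * t)| ≤ 1 := by
          rw [abs_mul, abs_of_neg (by linarith [Real.pi_pos] : -2 * π < 0)]
          nlinarith [Real.pi_lt_four, Real.pi_pos, abs_nonneg ((k : ℝ) * t)]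
        rw [ee, Complex.exp_ofReal_mul_I_re]
        have h4 := Real.one_sub_sq_div_two_le_cos (x := -2 * π * (k * t))
        have h5 := (sq_le_one_iff_abs_le_one _).2 h3
        linarith
    rw [Finset.card_range, nsmul_eq_mul] at this
    linarith
  have h2 := h1.trans (Complex.re_le_norm _)
  nlinarith

theorem per_maj : ∃ K : ℝ, 1 ≤ K ∧ ∀ (Z : Set ℝ) (ρ v : ℝ), MeasurableSet Z →
    (∀ s, s + 1 ∈ Z ↔ s ∈ Z) → 0 < ρ → ρ ≤ 1 → 0 ≤ v →
    volume (Z ∩ Icc 0 1) ≤ ENNReal.ofReal v →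
    ∃ (P : ℝ → ℝ) (S : Finset (ℕ × ℕ)) (c : ℕ × ℕ → ℂ), (∀ s, 0 ≤ P s) ∧
      (∀ s, (∀ s', |s' - s| ≤ ρ → s' ∈ Z) → 1 ≤ P s) ∧
      (∀ s, (P s : ℂ) = ∑ p ∈ S, c p * ee (((p.1 : ℝ) - p.2) * s)) ∧
      ∑ p ∈ S.filter (fun p => p.1 = p.2), ‖c p‖ ≤ K * v ∧ ∑ p ∈ S, ‖c p‖ ≤ K * v / ρ := by
  refine ⟨52, by norm_num, fun Z ρ v mZ pZ ρ0 ρ1 v0 hv => ?_⟩
  set J := ⌈1 / ρ⌉₊ with hJ
  have J1 : 1 / ρ ≤ J := Nat.le_ceil _
  have r1 : 1 ≤ 1 / ρ := one_le_one_div ρ0 ρ1
  have J2 : (J : ℝ) ≤ 2 / ρ := by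
    have := Nat.ceil_lt_add_one (a := 1 / ρ) (by positivity)
    rw [show 2 / ρ = 1 / ρ + 1 / ρ by ring]; linarith
  have J0 : (0 : ℝ) < J := by linarith
  have J0' : 0 < J := by exact_mod_cast J0
  have J3 : (1 : ℝ) ≤ J := r1.trans J1
  set W := Ioc (0 : ℝ) 1 ∩ Z with hW
  have W1 : volume W ≤ ENNReal.ofReal v :=
    (measure_mono fun x (hx : x ∈ W) =>
      (⟨hx.2, Ioc_subset_Icc_self hx.1⟩ : x ∈ Z ∩ Icc 0 1)).trans hv
  have W2 : volume W < ⊤ := W1.trans_lt ENNReal.ofReal_lt_top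
  have W3 : volume.real W ≤ v := ENNReal.toReal_le_of_le_ofReal v0 W1
  have cb : ∀ p : ℕ × ℕ, ‖((26 / J : ℝ) : ℂ) * ∫ s' in W, ee (-(((p.1 : ℝ) - p.2) * s'))‖
      ≤ 26 * v / J := fun p => by
    rw [norm_mul, Complex.norm_real, Real.norm_eq_abs, abs_of_pos (by positivity)]
    have := norm_setIntegral_le_of_norm_le_const (C := 1)
      (f := fun s' => ee (-(((p.1 : ℝ) - p.2) * s'))) W2 fun x _ => (norm_ee _).le
    rw [show 26 * v / J = 26 / J * v by ring]
    exact mul_le_mul_of_nonneg_left (by linarith) (by positivity)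
  refine ⟨fun s => 26 / J * ∫ s' in W, ‖majD J (s - s')‖ ^ 2, Finset.range J ×ˢ Finset.range J,
    fun p => ((26 / J : ℝ) : ℂ) * ∫ s' in W, ee (-(((p.1 : ℝ) - p.2) * s')),
    fun s => mul_nonneg (by positivity) (integral_nonneg fun _ => by positivity),
    fun s hs => ?_, fun s => ?_, ?_, ?_⟩
  · set f : ℝ → ℝ := fun s' => ‖majD J (s - s')‖ ^ 2 with hf
    have fc : Continuous f := ((majD_cont J).comp (by fun_prop)).norm.pow 2
    have per : Function.Periodic (Z.indicator f) 1 := fun x => by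
      have e : f (x + 1) = f x := by
        simp only [hf]; rw [← sub_sub, majD_per]
      by_cases hx : x ∈ Z
      · rw [indicator_of_mem hx, indicator_of_mem ((pZ x).2 hx), e]
      · rw [indicator_of_notMem hx, indicator_of_notMem fun h => hx ((pZ x).1 h)]
    have e1 : ∫ s' in W, f s' = ∫ s' in (s - 1 / 2)..(s - 1 / 2 + 1), Z.indicator f s' := by
      rw [hW, ← setIntegral_indicator mZ, ← intervalIntegral.integral_of_le zero_le_one,
        per.intervalIntegral_add_eq (s - 1 / 2) 0, zero_add]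
    set w : ℝ := 1 / (13 * J) with hw
    have w0 : 0 < w := by positivity
    have w1 : w ≤ 1 / 2 := one_div_le_one_div_of_le (by norm_num) (by linarith)
    have w2 : w ≤ ρ := by
      rw [div_le_iff₀ ρ0] at J1
      rw [hw, div_le_iff₀ (by positivity)]; nlinarith
    have ii : ∀ a b, IntervalIntegrable (Z.indicator f) volume a b := fun a b =>
      ⟨(fc.intervalIntegrable a b).1.indicator mZ, (fc.intervalIntegrable a b).2.indicator mZ⟩
    have e2 : ∫ s' in (s - w)..(s + w), Z.indicator f s'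
        ≤ ∫ s' in (s - 1 / 2)..(s - 1 / 2 + 1), Z.indicator f s' :=
      intervalIntegral.integral_mono_interval (by linarith) (by linarith) (by linarith)
        (Eventually.of_forall fun x => indicator_nonneg (fun y _ => by positivity) x) (ii _ _)
    have e3 : ∫ _ in (s - w)..(s + w), (J : ℝ) ^ 2 / 4
        ≤ ∫ s' in (s - w)..(s + w), Z.indicator f s' :=
      intervalIntegral.integral_mono_on (by linarith) intervalIntegrable_const (ii _ _)
        fun x hx => by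
          have hx' : |x - s| ≤ w := abs_le.2 ⟨by linarith [hx.1], by linarith [hx.2]⟩
          rw [indicator_of_mem (hs x (hx'.trans w2))]
          exact majD_low J0' (by rwa [abs_sub_comm])
    rw [intervalIntegral.integral_const, smul_eq_mul] at e3
    show 1 ≤ 26 / J * ∫ s' in W, f s'
    rw [e1]
    refine le_trans (le_of_eq ?_) (mul_le_mul_of_nonneg_left (e3.trans e2) (by positivity))
    rw [hw]; field_simp; ring
  · rw [Complex.ofReal_mul, ← integral_complex_ofReal]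
    have : ∀ s', ((‖majD J (s - s')‖ ^ 2 : ℝ) : ℂ) = ∑ p ∈ Finset.range J ×ˢ Finset.range J,
        ee (-(((p.1 : ℝ) - p.2) * s')) * ee (((p.1 : ℝ) - p.2) * s) := fun s' => by
      rw [majD_sq]
      refine Finset.sum_congr rfl fun p _ => ?_
      rw [← ee_add]; congr 1; ring
    simp only [this]
    rw [integral_finsetSum, Finset.mul_sum]
    · refine Finset.sum_congr rfl fun p _ => ?_
      rw [integral_mul_const, mul_assoc]
    · intro p _
      refine Measure.integrableOn_of_bounded (M := 1) W2.ne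
        (Continuous.aestronglyMeasurable (by fun_prop)) (Eventually.of_forall fun x => ?_)
      rw [norm_mul, norm_ee, norm_ee, mul_one]
  · refine (Finset.sum_le_card_nsmul _ _ _ fun p _ => cb p).trans ?_
    have : ((Finset.range J ×ˢ Finset.range J).filter fun p => p.1 = p.2).card ≤ J := by
      refine (Finset.card_le_card_of_injOn (t := Finset.range J) Prod.fst (fun p hp => ?_)
        fun p hp q hq e => ?_).trans (Finset.card_range J).le
      · exact (Finset.mem_product.1 (Finset.mem_filter.1 hp).1).1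
      · exact Prod.ext e ((Finset.mem_filter.1 hp).2.symm.trans
          (e.trans (Finset.mem_filter.1 hq).2))
    have h : (((Finset.range J ×ˢ Finset.range J).filter fun p => p.1 = p.2).card : ℝ) ≤ J := by
      exact_mod_cast this
    rw [nsmul_eq_mul]
    refine (mul_le_mul_of_nonneg_right h (by positivity)).trans ?_
    rw [mul_div_cancel₀ _ J0.ne']; linarith
  · refine (Finset.sum_le_card_nsmul _ _ _ fun p _ => cb p).trans ?_
    rw [nsmul_eq_mul, Finset.card_product, Finset.card_range, Nat.cast_mul, mul_assoc,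
      mul_div_cancel₀ _ J0.ne', show 52 * v / ρ = 2 / ρ * (26 * v) by ring]
    exact mul_le_mul_of_nonneg_right J2 (by positivity)

lemma maj_d0 (G : SL2) (z : ℝ) : HasDerivAt (fun x => ec G * x + ed G) (ec G) z := by
  simpa using ((hasDerivAt_id z).const_mul (ec G)).add_const (ed G)

lemma maj_d1 {G : SL2} {z : ℝ} (h0 : ec G * z + ed G ≠ 0) :
    HasDerivAt (mob G) (((ec G * z + ed G) ^ 2)⁻¹) z := by
  have n : HasDerivAt (fun x => ea G * x + eb G) (ea G) z := by
    simpa using ((hasDerivAt_id z).const_mul (ea G)).add_const (eb G)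
  refine (n.div (maj_d0 G z) h0).congr_deriv ?_
  rw [inv_eq_one_div]
  congr 1
  linear_combination det_eq G

lemma maj_d2 {G : SL2} {z : ℝ} (h0 : ec G * z + ed G ≠ 0) :
    HasDerivAt (fun x => ((ec G * x + ed G) ^ 2)⁻¹) (-2 * ec G / (ec G * z + ed G) ^ 3) z := by
  refine (((maj_d0 G z).pow 2).inv (pow_ne_zero 2 h0)).congr_deriv ?_
  simp only [Pi.pow_apply]
  field_simp
  ring

lemma maj_off {G : SL2} {a b δ m : ℝ} (ξ : ℝ) (hab : a ≤ b) (hδ : 0 < δ) (hc : ec G ≠ 0)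
    (H : ∀ x ∈ Icc a b, δ / 2 ≤ |ec G * x + ed G| ∧ |ec G * x + ed G| ≤ 2 * δ) (hm : 1 ≤ |m|) :
    ‖∫ x in a..b, ee (x * ξ + m * mob G x)‖ ≤ 8 * √(δ ^ 3 / |ec G|) := by
  have c0 : 0 < |ec G| := abs_pos.2 hc
  have ne : ∀ x ∈ Icc a b, ec G * x + ed G ≠ 0 := fun x hx =>
    abs_pos.1 (lt_of_lt_of_le (by positivity) (H x hx).1)
  have := vdc2 (φ := fun x => x * ξ + m * mob G x)
    (φ₁ := fun x => ξ + m * ((ec G * x + ed G) ^ 2)⁻¹)
    (φ₂ := fun x => m * (-2 * ec G / (ec G * x + ed G) ^ 3)) (μ := |ec G| / (4 * δ ^ 3)) hab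
    (by positivity)
    (fun z hz => (hasDerivAt_mul_const ξ).add ((maj_d1 (ne z hz)).const_mul m))
    (fun z hz => ((maj_d2 (ne z hz)).const_mul m).const_add ξ)
    (continuousOn_const.mul (continuousOn_const.div (by fun_prop)
      fun z hz => pow_ne_zero 3 (ne z hz)))
    fun z hz => by
      have p0 := abs_pos.2 (ne z hz)
      have p1 : |ec G * z + ed G| ^ 3 ≤ (2 * δ) ^ 3 := pow_le_pow_left₀ p0.le (H z hz).2 3
      rw [abs_mul, abs_div, abs_mul, abs_pow, abs_neg, abs_two]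
      refine le_trans ?_ (le_mul_of_one_le_left (by positivity) hm)
      rw [div_le_div_iff₀ (by positivity) (by positivity)]
      nlinarith
  refine this.trans (le_of_eq ?_)
  have e : |ec G| / (4 * δ ^ 3) = (2 ^ 2 * (δ ^ 3 / |ec G|))⁻¹ := by field_simp; ring
  rw [e, Real.sqrt_inv, Real.sqrt_mul (by positivity), Real.sqrt_sq (by norm_num), div_inv_eq_mul]
  ring

lemma maj_diag {a b ξ : ℝ} (hab : a ≤ b) (hξ : ξ ≠ 0) : ‖∫ x in a..b, ee (x * ξ)‖ ≤ 1 / |ξ| :=
  vdc1 (φ := fun x => x * ξ) (φ₁ := fun _ => ξ) (φ₂ := fun _ => 0) hab (abs_pos.2 hξ)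
    (fun _ _ => hasDerivAt_mul_const ξ) (fun z _ => hasDerivAt_const z ξ) continuousOn_const
    (fun _ _ => le_rfl) fun _ _ => le_rfl

theorem curved_maj : ∃ K : ℝ, 1 ≤ K ∧ ∀ (Z : Set ℝ) (ρ v : ℝ) (G : SL2) (x₁ L δ : ℝ),
    MeasurableSet Z → (∀ s, s + 1 ∈ Z ↔ s ∈ Z) → 0 < ρ → ρ ≤ 1 → 0 ≤ v →
    volume (Z ∩ Icc 0 1) ≤ ENNReal.ofReal v → 0 < L → 0 < δ → ec G ≠ 0 →
    (∀ x ∈ Icc x₁ (x₁ + L), δ / 2 ≤ |ec G * x + ed G| ∧ |ec G * x + ed G| ≤ 2 * δ) →
    ∃ ψ : ℝ → ℝ, Measurable ψ ∧ (∀ x, 0 ≤ ψ x) ∧ Integrable ψ ∧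
      (∀ x ∈ Icc x₁ (x₁ + L), (∀ s, |s - mob G x| ≤ ρ → s ∈ Z) → 1 ≤ ψ x) ∧
      ∫ x, ψ x ≤ K * v * (L + √(δ ^ 3 / |ec G|) / ρ) ∧
      ∀ ξ, ξ ≠ 0 →
        ‖𝓕 (fun x => (ψ x : ℂ)) ξ‖ ≤ K * v * (1 / |ξ| + √(δ ^ 3 / |ec G|) / ρ) := by
  obtain ⟨K, K1, HK⟩ := per_maj
  refine ⟨8 * K, by linarith, fun Z ρ v G x₁ L δ mZ pZ ρ0 ρ1 v0 hv L0 δ0 hc H => ?_⟩
  obtain ⟨P, S, c, P0, P1, P2, c1, c2⟩ := HK Z ρ v mZ pZ ρ0 ρ1 v0 hv
  set E := √(δ ^ 3 / |ec G|) with hE
  have E0 : 0 ≤ E := Real.sqrt_nonneg _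
  have hab : x₁ ≤ x₁ + L := by linarith
  have ne : ∀ x ∈ Icc x₁ (x₁ + L), ec G * x + ed G ≠ 0 := fun x hx =>
    abs_pos.1 (lt_of_lt_of_le (by positivity) (H x hx).1)
  have Pc : Continuous P := by
    have : P = fun s => (∑ p ∈ S, c p * ee (((p.1 : ℝ) - p.2) * s)).re := by
      ext s; rw [← P2, Complex.ofReal_re]
    rw [this]; fun_prop
  have mc : ContinuousOn (mob G) (Icc x₁ (x₁ + L)) := fun z hz =>
    (maj_d1 (ne z hz)).continuousAt.continuousWithinAt
  have mm : Measurable (mob G) := by unfold mob; fun_prop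
  set ψ : ℝ → ℝ := (Icc x₁ (x₁ + L)).indicator fun x => P (mob G x) with hψ
  have ψ0 : ∀ x, 0 ≤ ψ x := fun x => indicator_nonneg (fun y _ => P0 _) x
  have key : ∀ ξ B, 0 ≤ B → ‖∫ x in x₁..(x₁ + L), ee (x * ξ)‖ ≤ B →
      ‖∫ x, ee (x * ξ) * (ψ x : ℂ)‖ ≤ 8 * K * v * (B + E / ρ) := fun ξ B B0 hB => by
    have e1 : (fun x => ee (x * ξ) * (ψ x : ℂ)) = (Icc x₁ (x₁ + L)).indicator fun x =>
        ∑ p ∈ S, c p * ee (x * ξ + ((p.1 : ℝ) - p.2) * mob G x) := by
      ext x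
      by_cases hx : x ∈ Icc x₁ (x₁ + L)
      · rw [hψ, indicator_of_mem hx, indicator_of_mem hx, P2, Finset.mul_sum]
        refine Finset.sum_congr rfl fun p _ => ?_
        rw [ee_add]; ring
      · rw [hψ, indicator_of_notMem hx, indicator_of_notMem hx]; simp
    have ii : ∀ p ∈ S, IntervalIntegrable (fun x =>
        c p * ee (x * ξ + ((p.1 : ℝ) - p.2) * mob G x)) volume x₁ (x₁ + L) := fun p _ =>
      (continuousOn_const.mul (continuous_ee.comp_continuousOn ((continuousOn_id.mul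
        continuousOn_const).add (continuousOn_const.mul mc)))).intervalIntegrable_of_Icc hab
    rw [e1, integral_indicator measurableSet_Icc, integral_Icc_eq_integral_Ioc,
      ← intervalIntegral.integral_of_le hab, intervalIntegral.integral_finsetSum ii]
    refine (norm_sum_le _ _).trans ?_
    have b : ∀ p ∈ S, ‖∫ x in x₁..(x₁ + L), c p * ee (x * ξ + ((p.1 : ℝ) - p.2) * mob G x)‖
        ≤ (if p.1 = p.2 then ‖c p‖ else 0) * B + ‖c p‖ * (8 * E) := fun p _ => by
      rw [intervalIntegral.integral_const_mul, norm_mul]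
      split_ifs with h
      · simp only [h, sub_self, zero_mul, add_zero]
        have := mul_le_mul_of_nonneg_left hB (norm_nonneg (c p))
        have : 0 ≤ ‖c p‖ * (8 * E) := by positivity
        linarith
      · rw [zero_mul, zero_add]
        refine mul_le_mul_of_nonneg_left (maj_off ξ hab δ0 hc H ?_) (norm_nonneg _)
        have : (1 : ℤ) ≤ |(p.1 : ℤ) - p.2| := Int.one_le_abs (by omega)
        exact_mod_cast this
    refine (Finset.sum_le_sum b).trans ?_
    rw [Finset.sum_add_distrib, ← Finset.sum_mul, ← Finset.sum_mul, ← Finset.sum_filter]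
    have q1 := mul_le_mul_of_nonneg_right c1 B0
    have q2 := mul_le_mul_of_nonneg_right c2 (show 0 ≤ 8 * E by positivity)
    have q3 : 0 ≤ K * v * B := by positivity
    have q4 : 8 * K * v * (B + E / ρ) = 8 * (K * v * B) + K * v / ρ * (8 * E) := by ring
    linarith
  refine ⟨ψ, (Pc.measurable.comp mm).indicator measurableSet_Icc, ψ0, ?_, fun x hx h => ?_, ?_,
    fun ξ hξ => ?_⟩
  · exact (integrable_indicator_iff measurableSet_Icc).2
      (Pc.comp_continuousOn mc).integrableOn_Icc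
  · rw [hψ, indicator_of_mem hx]; exact P1 _ h
  · have := key 0 L L0.le (by simp [ee, abs_of_pos L0])
    simp only [mul_zero, ee, Complex.ofReal_zero, zero_mul, Complex.exp_zero, one_mul] at this
    rw [integral_complex_ofReal, Complex.norm_real, Real.norm_eq_abs] at this
    exact (le_abs_self _).trans this
  · rw [ft_eq]
    exact key ξ _ (by positivity) (maj_diag hab hξ)

end Pool.Agent.Lib.MP_a52643_an.NE
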