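import Pool.Agent.Lib.MP_a52643_an.NE.Curv
import Pool.Agent.Lib.MP_a52643_an.NS.Step

/-!
The two steps of the descent.
-/

open MeasureTheory Set Filter Topology Metric UpperHalfPlane
open scoped ENNReal MatrixGroups Real FourierTransform ComplexConjugate

noncomputable section

namespace Pool.Agent.Lib.MP_a52643_an.NE

open NS hiding nr Zt Zs isOpen_Zt isOpen_Zs

variable {Λ C : Set SL2} {η : ℍ → ℝ}

theorem step0 : ∃ K : ℝ, 1 ≤ K ∧ ∀ (X Y Y₁ : Set ℝ) (ρ₀ ρ₁ R V D v₁ v₂ ε : ℝ), 0 < ρ₀ →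
    2 * ρ₀ ≤ ρ₁ → 0 < R → 0 ≤ V → 0 ≤ D → 0 ≤ v₁ → 0 ≤ v₂ → 0 ≤ ε → MeasurableSet Y₁ →
    (∀ ξ ∈ Y, ∀ ξ', |ξ' - ξ| ≤ 1 / ρ₁ → ξ' ∈ Y₁) →
    (∀ ζ, volume (Y₁ ∩ Icc ζ (ζ + R)) ≤ ENNReal.ofReal v₁) →
    (∀ ζ, volume (Y₁ ∩ Icc ζ (ζ + 1 / ρ₀)) ≤ ENNReal.ofReal v₂) →
    (∀ xb ∈ X, ∃ ψ : ℝ → ℝ, Measurable ψ ∧ (∀ x, 0 ≤ ψ x) ∧ Integrable ψ ∧
      (∀ x, (∃ z ∈ X, |x - z| ≤ 2 * ρ₀) → |x - xb| ≤ 2 * ρ₁ → 1 ≤ ψ x) ∧ ∫ x, ψ x ≤ V ∧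
      ∀ ξ, R ≤ |ξ| → |ξ| < 1 / ρ₀ → ‖𝓕 (fun x => (ψ x : ℂ)) ξ‖ ≤ D) →
    UP (nb X ρ₁) Y ε → UP (nb X ρ₀) Y (K * (V * v₁ + D * v₂) * ε) := by
  obtain ⟨Cu, hCu, Hu⟩ := subm
  obtain ⟨Cs, hCs, Hs⟩ := schur
  refine ⟨Cu * Cs, one_le_mul_of_one_le_of_one_le hCu hCs, ?_⟩
  intro X Y Y₁ ρ₀ ρ₁ R V D v₁ v₂ ε h0 h1 hR hV hD hv₁ hv₂ hε mY hY y1 y2 hψ hUP
  rw [mul_assoc Cu]
  refine Hu (nb X ρ₀) (nb X ρ₁) Y Y₁ ρ₁ _ ε (by linarith) (by positivity) hε mY ?_ hY hUP ?_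
  · rintro x ⟨z, hz, hxz⟩ x' hx'
    exact ⟨z, hz, by linarith [abs_sub_le x' x z]⟩
  intro Ψ hΨ x₀ f hf hs
  rcases (nb X ρ₀ ∩ Icc x₀ (x₀ + ρ₁)).eq_empty_or_nonempty with e | ⟨x, ⟨xb, hxb, hx⟩, hx'⟩
  · refine Hs _ _ (fun _ => 0) Ψ ρ₀ R V D v₁ v₂ h0 hR hD hv₁ hv₂ measurable_const
      (fun _ => le_rfl) (integrable_zero _ _ _) (fun x hx => ?_) (by simpa using hV)
      (fun ξ _ _ => ?_) hΨ y1 y2 f hf hs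
    · rw [e] at hx
      exact hx.elim
    · rw [ft_eq]
      simpa using hD
  · obtain ⟨ψ, hm, hn, hi, p1, p2, p3⟩ := hψ xb hxb
    refine Hs _ _ ψ Ψ ρ₀ R V D v₁ v₂ h0 hR hD hv₁ hv₂ hm hn hi ?_ p2 p3 hΨ y1 y2 f hf hs
    rintro y ⟨⟨z, hz, hy⟩, hy'⟩ y' h'
    refine p1 y' ⟨z, hz, by linarith [abs_sub_le y' y z]⟩ (abs_le.2 ?_)
    have := abs_le.1 hx
    have := abs_le.1 h'
    constructor <;> linarith [hx'.1, hx'.2, hy'.1, hy'.2]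

lemma step_two {τ ℓ : ℝ} (hℓ : 100 ≤ ℓ) {i j : ℕ} (h : i < j) :
    2 * Real.exp (τ + i * ℓ) ≤ Real.exp (τ + j * ℓ) := by
  have h1 : (i : ℝ) + 1 ≤ j := by exact_mod_cast h
  have h2 : Real.exp (ℓ + (τ + i * ℓ)) ≤ Real.exp (τ + j * ℓ) :=
    Real.exp_le_exp.2 (by nlinarith)
  rw [Real.exp_add ℓ] at h2
  nlinarith [Real.add_one_le_exp ℓ, Real.exp_pos (τ + i * ℓ)]

lemma step_inv (τ ℓ : ℝ) (j : ℕ) : 1 / Real.exp (τ + j * ℓ) = Real.exp (-τ - j * ℓ) := by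
  rw [one_div, ← Real.exp_neg]; ring_nf

lemma Cu.step_zs (H : Cu Λ C η) {ℓ τ : ℝ} (hℓ : 0 ≤ ℓ) (g : SL2) {b b' : Finset ℕ} {k : ℕ}
    (hb : ∀ j ∈ b', j ∈ b ∧ j < k) : ∀ ξ ∈ Zs η 5 ℓ g τ b, ∀ ξ',
      |ξ' - ξ| ≤ 1 / Real.exp (τ + k * ℓ) → ξ' ∈ Zs η (5 + 2 * 1) ℓ g τ b' := by
  intro ξ hξ ξ' h j hj
  refine H.nr_move (hξ j (hb j hj).1) hℓ (h.trans ?_)
  rw [step_inv, one_mul]
  have : (j : ℝ) + 1 ≤ k := by exact_mod_cast (hb j hj).2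
  exact Real.exp_le_exp.2 (by nlinarith)

lemma Cu.step_zt (H : Cu Λ C η) {ℓ τ : ℝ} (hℓ : 0 ≤ ℓ) (g : SL2) {a a' : Finset ℕ} {k : ℕ}
    (ha : ∀ j ∈ a', j ∈ a ∧ k ≤ j) {x z : ℝ} (hz : z ∈ Zt η 1 ℓ g τ a)
    (h : |x - z| ≤ 2 * Real.exp (τ + k * ℓ)) : x ∈ Zt η 5 ℓ g τ a' := by
  intro j hj
  refine dn.mono (H.nr_move (ρ := 2) (hz j (ha j hj).1) hℓ (h.trans ?_)) (by norm_num)
  have : (k : ℝ) ≤ j := by exact_mod_cast (ha j hj).2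
  exact mul_le_mul_of_nonneg_left (Real.exp_le_exp.2 (by nlinarith)) (by norm_num)

lemma step_cd_le (b : Finset ℕ) {m m' k k' : ℕ} (h : m' ≤ m) (h' : k ≤ k' + 1) :
    cd b m k ≤ cd b m' k' + 1 := by
  unfold cd
  have : b ∩ Finset.Ico m k ⊆ insert k' (b ∩ Finset.Ico m' k') := fun j hj => by
    simp only [Finset.mem_insert, Finset.mem_inter, Finset.mem_Ico] at hj ⊢
    by_cases e : j = k'
    · exact Or.inl e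
    · exact Or.inr ⟨hj.1, by omega, by omega⟩
  exact_mod_cast (Finset.card_le_card this).trans (Finset.card_insert_le _ _)

theorem Cu.step_ov (H : Cu Λ C η) : ∃ K : ℝ, 1 ≤ K ∧ ∀ ℓ ≥ (100 : ℝ),
    ∀ (g₁ g₂ : SL2) (τ : ℝ) (a b : Finset ℕ) (X : Set ℝ) (ε : ℝ) (j : ℕ), 0 ≤ ε →
      X ⊆ Zt η 1 ℓ g₂ τ a → j ∈ a → j ∈ b →
      UP (nb X (Real.exp (τ + (j + 1 : ℕ) * ℓ))) (Zs η 5 ℓ g₁ τ b) ε →
      UP (nb X (Real.exp (τ + j * ℓ))) (Zs η 5 ℓ g₁ τ b) (K * Real.exp (-ℓ) * ε) := by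
  obtain ⟨K₀, hK₀, H₀⟩ := step0
  obtain ⟨Kv, hKv, Hv⟩ := H.vol
  refine ⟨K₀ * (5 * Kv * Kv), one_le_mul_of_one_le_of_one_le hK₀ (by nlinarith), ?_⟩
  intro ℓ hℓ g₁ g₂ τ a b X ε j hε hX ha hb hUP
  have l0 : 0 ≤ ℓ := by linarith
  have c1 : cd {j} j (j + 1) = 1 := by simp [cd]
  have v1 := fun ζ => (Hv (5 + 2 * 1) (by norm_num) ℓ (by linarith) g₁ τ {j} j (j + 1) ζ
    j.le_succ).2
  have v2 := fun ζ => (Hv 5 (by norm_num) ℓ (by linarith) g₂ τ {j} j (j + 1) ζ j.le_succ).1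
  rw [c1, Nat.add_sub_cancel_left, pow_one] at v1 v2
  have key := H₀ X (Zs η 5 ℓ g₁ τ b) (Zs η (5 + 2 * 1) ℓ g₁ τ {j}) (Real.exp (τ + j * ℓ))
    (Real.exp (τ + (j + 1 : ℕ) * ℓ)) (Real.exp (-τ - j * ℓ))
    (5 * (Kv * Real.exp (τ + (j + 1 : ℕ) * ℓ - ℓ * 1))) 0
    (Kv * Real.exp (-τ - j * ℓ - ℓ * 1)) (Kv * Real.exp (-τ - j * ℓ - ℓ * 1)) ε (Real.exp_pos _)
    (step_two hℓ j.lt_succ_self) (Real.exp_pos _) (by positivity) le_rfl (by positivity)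
    (by positivity) hε (H.isOpen_Zs _ _ _ _ _).measurableSet
    (H.step_zs l0 g₁ fun i hi => by
      rw [Finset.mem_singleton.1 hi]; exact ⟨hb, j.lt_succ_self⟩)
    v1 (by rw [step_inv]; exact v1) ?_ hUP
  · refine key.mono Subset.rfl Subset.rfl (mul_le_mul_of_nonneg_right (le_of_eq ?_) hε)
    have : Real.exp (τ + (j + 1 : ℕ) * ℓ - ℓ * 1) * Real.exp (-τ - j * ℓ - ℓ * 1) =
        Real.exp (-ℓ) := by
      rw [← Real.exp_add]; push_cast; ring_nf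
    rw [← this]
    ring
  intro xb _
  set ρ := Real.exp (τ + (j + 1 : ℕ) * ℓ) with hρ
  have ρ0 : 0 < ρ := Real.exp_pos _
  obtain ⟨s, s1, s2⟩ := neVol_grid (xb - 2 * ρ) ρ0 4
  have s3 : (s.card : ℝ) ≤ 5 := by
    rw [show (4 : ℝ) = (4 : ℕ) by norm_num, Nat.floor_natCast] at s1
    exact_mod_cast s1
  have w := neVol_step (B := Icc (xb - 2 * ρ) (xb - 2 * ρ + 4 * ρ)) (by positivity) v2 s s3
    fun x hx => s2 x hx.2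
  have mA : MeasurableSet (Zt η 5 ℓ g₂ τ {j} ∩ Icc (xb - 2 * ρ) (xb - 2 * ρ + 4 * ρ)) :=
    (H.isOpen_Zt _ _ _ _ _).measurableSet.inter measurableSet_Icc
  refine ⟨(Zt η 5 ℓ g₂ τ {j} ∩ Icc (xb - 2 * ρ) (xb - 2 * ρ + 4 * ρ)).indicator 1,
    measurable_one.indicator mA, fun x => indicator_nonneg (fun _ _ => zero_le_one) x,
    (integrable_indicator_iff mA).2 (integrableOn_const (w.trans_lt ENNReal.ofReal_lt_top).ne),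
    ?_, ?_, fun ξ h1 h2 => ?_⟩
  · rintro x ⟨z, hz, h1⟩ h2
    have := abs_le.1 h2
    rw [indicator_of_mem, Pi.one_apply]
    refine ⟨H.step_zt l0 g₂ (fun i hi => ?_) (hX hz) h1, by linarith, by linarith⟩
    rw [Finset.mem_singleton.1 hi]
    exact ⟨ha, le_rfl⟩
  · rw [integral_indicator_one mA]
    exact ENNReal.toReal_le_of_le_ofReal (by positivity) w
  · rw [step_inv] at h2
    exact absurd h1 (not_le.2 h2)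

theorem Cu.step_cv (H : Cu Λ C η) : ∃ K : ℝ, 1 ≤ K ∧ ∀ ℓ ≥ (100 : ℝ),
    ∀ (g₁ g₂ : SL2) (τ : ℝ) (a b : Finset ℕ) (X : Set ℝ) (ε : ℝ) (p : ℕ × ℕ), 0 ≤ ε →
      X ⊆ Zt η 1 ℓ g₂ τ a → (∀ x ∈ X, Exc ℓ (hv η ℓ g₂ τ x) p) →
      UP (nb X (Real.exp (τ + p.2 * ℓ))) (Zs η 5 ℓ g₁ τ b) ε →
      UP (nb X (Real.exp (τ + (p.1 - mm p : ℕ) * ℓ))) (Zs η 5 ℓ g₁ τ b)
        (K ^ (p.2 - (p.1 - mm p)) *
          Real.exp (-(ℓ * (cd a (p.1 - mm p) p.1 + cd b p.1 p.2 - (p.2 - p.1) - 2))) * ε) := by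
  obtain ⟨K₀, hK₀, H₀⟩ := step0
  obtain ⟨Kv, hKv, Hv⟩ := H.vol
  obtain ⟨Kc, hKc, Hc⟩ := H.cmaj
  have hK : 1 ≤ 2 * K₀ := by linarith
  refine ⟨2 * K₀ * (Kc * Kv), one_le_mul_of_one_le_of_one_le hK
    (one_le_mul_of_one_le_of_one_le hKc hKv), ?_⟩
  rintro ℓ hℓ g₁ g₂ τ a b X ε p hε hX hE hUP
  have l0 : 0 ≤ ℓ := by linarith
  rcases X.eq_empty_or_nonempty with rfl | ⟨x₁, hx₁⟩
  · intro f _ hs Ξ
    have : f = fun _ => 0 := funext fun x => hs x fun ⟨_, h, _⟩ => h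
    simp [this, ft_eq]
  obtain ⟨e1, e2, -⟩ := hE x₁ hx₁
  obtain ⟨q, hq⟩ : ∃ q, p.1 = q + mm p := ⟨p.1 - mm p, by omega⟩
  obtain ⟨k, hk⟩ : ∃ k, p.2 = k + 1 := ⟨p.2 - 1, by omega⟩
  have f1 : p.1 - mm p = q := by omega
  have f2 : p.2 - 1 = k := by omega
  have r1 : (p.1 : ℝ) = q + mm p := by exact_mod_cast hq
  have v := fun m ζ hm => (Hv (5 + 2 * 1) (by norm_num) ℓ (by linarith) g₁ τ
    (b ∩ Finset.Ico q k) m k ζ hm).2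
  have v1 := fun ζ => v p.1 ζ (by omega)
  have v2 := fun ζ => v q ζ (by omega)
  rw [step_cd b (by omega : q ≤ p.1)] at v1
  rw [step_cd b le_rfl] at v2
  replace Hc := fun xb hxb => Hc ℓ hℓ g₂ τ a p xb (hE xb hxb)
  rw [f1, f2] at Hc
  rw [f1]
  have key := H₀ X (Zs η 5 ℓ g₁ τ b) (Zs η (5 + 2 * 1) ℓ g₁ τ (b ∩ Finset.Ico q k))
    (Real.exp (τ + q * ℓ)) (Real.exp (τ + k * ℓ)) (Real.exp (-τ - p.1 * ℓ))
    (Kc ^ (mm p + 1) * Real.exp (τ + p.2 * ℓ - ℓ * cd a q p.1))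
    (Kc ^ (mm p + 1) * Real.exp (τ + (p.2 - mm p) * ℓ - ℓ * cd a q p.1))
    (Kv ^ (k - p.1) * Real.exp (-τ - p.1 * ℓ - ℓ * cd b p.1 k))
    (Kv ^ (k - q) * Real.exp (-τ - q * ℓ - ℓ * cd b q k)) ε (Real.exp_pos _)
    (step_two hℓ (by omega)) (Real.exp_pos _) (by positivity) (by positivity) (by positivity)
    (by positivity) hε (H.isOpen_Zs _ _ _ _ _).measurableSet
    (H.step_zs l0 g₁ fun i hi =>
      ⟨(Finset.mem_inter.1 hi).1, (Finset.mem_Ico.1 (Finset.mem_inter.1 hi).2).2⟩)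
    v1 (by rw [step_inv]; exact v2) ?_ (hUP.mono ?_ Subset.rfl le_rfl)
  · refine key.mono Subset.rfl Subset.rfl (mul_le_mul_of_nonneg_right ?_ hε)
    set M := Kc ^ (p.2 - q) * Kv ^ (p.2 - q) *
      Real.exp (-(ℓ * (cd a q p.1 + cd b p.1 p.2 - (p.2 - p.1) - 2))) with hM
    have a1 : Kc ^ (mm p + 1) ≤ Kc ^ (p.2 - q) := pow_le_pow_right₀ hKc (by omega)
    have a2 : Kv ^ (k - p.1) ≤ Kv ^ (p.2 - q) := pow_le_pow_right₀ hKv (by omega)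
    have a3 : Kv ^ (k - q) ≤ Kv ^ (p.2 - q) := pow_le_pow_right₀ hKv (by omega)
    have b1 := mul_le_mul_of_nonneg_left (step_cd_le b (le_refl p.1) hk.le) l0
    have b2 := mul_le_mul_of_nonneg_left (step_cd_le b (by omega : q ≤ p.1) hk.le) l0
    have one : ∀ {u w : ℝ} {n : ℕ}, Kv ^ n ≤ Kv ^ (p.2 - q) →
        u + w ≤ -(ℓ * (cd a q p.1 + cd b p.1 p.2 - (p.2 - p.1) - 2)) →
        Kc ^ (mm p + 1) * Real.exp u * (Kv ^ n * Real.exp w) ≤ M := by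
      intro u w n h1 h2
      rw [mul_mul_mul_comm, ← Real.exp_add, hM]
      gcongr
    have h1 := one (u := τ + p.2 * ℓ - ℓ * cd a q p.1) (w := -τ - p.1 * ℓ - ℓ * cd b p.1 k) a2
      (by linarith)
    have h2 := one (u := τ + (p.2 - mm p) * ℓ - ℓ * cd a q p.1) (w := -τ - q * ℓ - ℓ * cd b q k) a3
      (by rw [r1]; linarith)
    have h3 : 2 * K₀ ≤ (2 * K₀) ^ (p.2 - q) := le_self_pow₀ hK (by omega)
    have M0 : 0 ≤ M := by positivity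
    rw [mul_pow (2 * K₀), mul_pow Kc, mul_assoc ((2 * K₀) ^ (p.2 - q)), ← hM]
    nlinarith [mul_le_mul_of_nonneg_right h3 M0,
      mul_le_mul_of_nonneg_left (add_le_add h1 h2) (show 0 ≤ K₀ by linarith)]
  · intro xb hxb
    obtain ⟨ψ, hm, hn, hi, p1, p2, p3⟩ := Hc xb hxb
    refine ⟨ψ, hm, hn, hi, ?_, p2, fun ξ h _ => p3 ξ h⟩
    rintro x ⟨z, hz, h1⟩ h2
    exact p1 x (H.step_zt l0 g₂ (fun i hi =>
      ⟨(Finset.mem_inter.1 hi).1, (Finset.mem_Ico.1 (Finset.mem_inter.1 hi).2).1⟩) (hX hz) h1) h2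
  · rintro x ⟨z, hz, h⟩
    refine ⟨z, hz, h.trans ?_⟩
    linarith [step_two (τ := τ) hℓ (show k < p.2 by omega), Real.exp_pos (τ + k * ℓ)]

end Pool.Agent.Lib.MP_a52643_an.NE
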