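import Pool.Agent.Lib.MP_a52643_an.NE.Defs

/-!
Heights along a geodesic.
-/

open MeasureTheory Set Filter Topology Metric UpperHalfPlane
open scoped ENNReal MatrixGroups Real FourierTransform ComplexConjugate

noncomputable section

namespace Pool.Agent.Lib.MP_a52643_an.NE

open NS hiding nr Zt Zs isOpen_Zt isOpen_Zs

variable {Λ C : Set SL2} {η : ℍ → ℝ}

private lemma tent_log {x y : ℝ} (hx : 0 < x) (hy : 0 < y) (h : x ≤ 2 * y) :
    Real.log x - Real.log y < 1 := by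
  have h1 : Real.log x ≤ Real.log (2 * y) := Real.log_le_log hx h
  rw [Real.log_mul (by norm_num) hy.ne'] at h1
  linarith [Real.log_two_lt_d9]

theorem Cu.ten (H : Cu Λ C η) {ℓ : ℝ} (hℓ : 0 ≤ ℓ) (g : SL2) : ∃ S, Ten ℓ S (hs η ℓ g) := by
  have e : ∀ t : ℝ, bp (g * aG t) = (g * wG) • pt 0 t := fun t => by
    have := bp_vG_aG g 0 t
    rwa [neg_zero, vG_zero, mul_one] at this
  have d : ∀ i j : ℕ, i ≤ j → dist (bp (g * aG (j * ℓ))) (bp (g * aG (i * ℓ))) = (j - i) * ℓ :=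
    fun i j h => by
      have : (i : ℝ) ≤ j := by exact_mod_cast h
      rw [e, e, dist_smul, dist_pt_eq, ← sub_mul, abs_of_nonneg (by positivity)]
  refine ⟨{β | ∃ M ∈ C, β = fun j : ℕ => ht M (bp (g * aG (j * ℓ)))}, fun j => H.three _,
    fun i j h => (H.lip _ _).trans (d i j h).le, ?_, fun j hj => ?_, ?_, ?_, ?_⟩
  · rintro _ ⟨M, hM, rfl⟩ j
    exact H.le M hM _
  · obtain ⟨M, hM, h⟩ := H.ex _ hj
    exact ⟨_, ⟨M, hM, rfl⟩, h⟩
  · rintro _ ⟨M, hM, rfl⟩ _ ⟨M', hM', rfl⟩ j h h'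
    funext k
    exact H.sep M hM M' hM' _ h h' _
  · rintro _ ⟨M, hM, rfl⟩ i j h
    exact (ht_lip _ _ _).trans (d i j h).le
  · rintro _ ⟨M, hM, rfl⟩ j
    have p := den_pos (M * (g * wG)) 0
    simp only [e, ht_pt]
    generalize (ec (M * (g * wG)) * 0 + ed (M * (g * wG))) = D at *
    generalize ec (M * (g * wG)) = c at *
    rcases le_total (c ^ 2 * Real.exp (j * ℓ) ^ 2) (D ^ 2) with h | h
    · refine Or.inl fun i _ => ?_
      have := tent_log (p (j * ℓ)) (p (i * ℓ))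
        (by nlinarith [mul_nonneg (sq_nonneg c) (sq_nonneg (Real.exp (i * ℓ)))])
      linarith
    · refine Or.inr fun k hk => ?_
      have a1 : Real.exp (k * ℓ) = Real.exp (j * ℓ) * Real.exp ((k - j) * ℓ) := by
        rw [← Real.exp_add]; ring_nf
      have a2 : 0 < Real.exp ((k - j) * ℓ) ^ 2 := by positivity
      have := tent_log (mul_pos (p (j * ℓ)) a2) (p (k * ℓ)) (by
        rw [a1]
        nlinarith [mul_le_mul_of_nonneg_right h a2.le, sq_nonneg D])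
      rw [Real.log_mul (p _).ne' a2.ne', Real.log_pow, Real.log_exp] at this
      push_cast at this
      linarith

variable {ℓ Y R : ℝ} {S : Set (ℕ → ℝ)} {H : ℕ → ℝ}

lemma Ten.low (T : Ten ℓ S H) {β : ℕ → ℝ} (hβ : β ∈ S) {i j : ℕ} (h : i ≤ j) :
    β i - (j - i) * ℓ ≤ β j ∧ β j - (j - i) * ℓ ≤ β i := by
  have := abs_le.1 (T.blip β hβ i j h)
  constructor <;> linarith [this.1, this.2]

lemma Ten.one (T : Ten ℓ S H) (j : ℕ) : |H (j + 1) - H j| ≤ ℓ := by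
  simpa using T.lip j (j + 1) (Nat.le_succ j)

private lemma tent_far (T : Ten ℓ S H) (hℓ : 1000 ≤ ℓ) (hY : (10 ^ 9 + 2) * ℓ + 40 ≤ Y)
    {j k : ℕ} (h1 : j < k) (h2 : k ≤ j + 10 ^ 9) (a : Y < H j)
    (b : ¬dn 1 ℓ (H (j + 1)) (H j)) : dn 1 ℓ (H k) (H (k + 1)) := by
  obtain ⟨β, hβ, e⟩ := T.ex j (by linarith)
  have hi : ∀ i, j ≤ i → i ≤ j + 10 ^ 9 + 1 → 40 < β i := fun i a1 a2 => by
    have a3 : (i : ℝ) ≤ j + 10 ^ 9 + 1 := by exact_mod_cast a2
    have := (T.low hβ a1).1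
    nlinarith
  have b1 := hi (j + 1) (by omega) (by omega)
  have b2 := hi k (by omega) (by omega)
  have b3 := hi (k + 1) (by omega) (by omega)
  have hd : ¬∀ i : ℕ, i ≤ j + 1 → (((j + 1 : ℕ) : ℝ) - i) * ℓ - 1 < β (j + 1) - β i := fun h => by
    have := h j (by omega)
    push_cast at this
    refine b ⟨by linarith, ?_⟩
    rw [T.eq hβ (j := j + 1) (by linarith)]
    linarith
  have hd' := (T.tent β hβ (j + 1)).resolve_left hd
  rw [T.eq hβ (j := k) (by linarith), T.eq hβ (j := k + 1) (by linarith)]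
  rcases T.tent β hβ k with h | h
  · exfalso
    rcases (Nat.succ_le_of_lt h1).eq_or_lt with e | e
    · exact hd (by rw [← Nat.succ_eq_add_one, e]; exact h)
    · have c1 := h (j + 1) (by omega)
      have c2 := hd' k (by omega)
      have c3 : ((j + 1 : ℕ) : ℝ) + 1 ≤ k := by exact_mod_cast e
      nlinarith
  · have := h (k + 1) (by omega)
    push_cast at this
    exact ⟨by linarith, by linarith⟩

theorem Ten.turn (T : Ten ℓ S H) (hℓ : 1000 ≤ ℓ) (hY : (10 ^ 9 + 2) * ℓ + 40 ≤ Y) (N : ℕ) :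
    ((ot ℓ Y R N H).card : ℝ) ≤ (bad Y R N H).card + N / 10 ^ 9 + 1 := by
  have h1 : (ot ℓ Y R N H \ bad Y R N H).card ≤ (Finset.range (N / 10 ^ 9 + 1)).card := by
    refine Finset.card_le_card_of_injOn (fun j => j / 10 ^ 9) (fun j hj => ?_) ?_
    · have := (mem_ot.1 (Finset.mem_sdiff.1 hj).1).1
      simp only [Finset.coe_range, mem_Iio]
      omega
    · have key : ∀ j ∈ ot ℓ Y R N H \ bad Y R N H, ∀ k ∈ ot ℓ Y R N H \ bad Y R N H, j < k →
          j / 10 ^ 9 ≠ k / 10 ^ 9 := fun j hj k hk hjk e => by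
        rw [Finset.mem_sdiff, mem_ot, mem_bad] at hj hk
        have a1 := not_not.1 fun h => hj.2 ⟨hj.1.1, h⟩
        have a2 := not_not.1 fun h => hk.2 ⟨hk.1.1, h⟩
        exact hk.1.2 ⟨a2.1, a2.2, Or.inl (tent_far T hℓ hY hjk (by omega) a1.1
          fun h => hj.1.2 ⟨a1.1, a1.2, Or.inr h⟩)⟩
      intro j hj k hk e
      rcases lt_trichotomy j k with h | h | h
      · exact absurd e (key j hj k hk h)
      · exact h
      · exact absurd e.symm (key k hk j hj h)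
  have h2 := Finset.card_le_card_sdiff_add_card (s := ot ℓ Y R N H) (t := bad Y R N H)
  rw [Finset.card_range] at h1
  have h3 : ((N / 10 ^ 9 : ℕ) : ℝ) ≤ N / 10 ^ 9 := by
    have := Nat.cast_div_le (α := ℝ) (m := N) (n := 10 ^ 9)
    rwa [Nat.cast_pow, Nat.cast_ofNat] at this
  have h4 : ((ot ℓ Y R N H).card : ℝ) ≤ (N / 10 ^ 9 : ℕ) + 1 + (bad Y R N H).card := by
    exact_mod_cast h2.trans (Nat.add_le_add_right h1 _)
  linarith

theorem Ten.lyap (T : Ten ℓ S H) (hℓ : 1000 ≤ ℓ) (hY : ℓ + 3 ≤ Y) {n : ℕ} (hn : 100 ≤ n)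
    {β : ℕ → ℝ} (hβ : β ∈ S) (h1 : 3 ≤ β n) (h2 : 3 ≤ β (7 * n)) (a1 : Y < H n)
    (a2 : H n < 101 * (n * ℓ)) (b1 : Y < H (7 * n)) (b2 : H (7 * n) < 101 * (n * ℓ)) :
    Fl ℓ (110 * (n * ℓ)) (H n) (H (n + 1)) + 5 * (n * ℓ)
      ≤ Fl ℓ (110 * (n * ℓ)) (H (7 * n)) (H (7 * n + 1)) := by
  have l0 : 0 < ℓ := by linarith
  have n0 : (100 : ℝ) ≤ n := by exact_mod_cast hn
  have c1 := T.low hβ (Nat.le_succ n)
  have c2 := T.low hβ (Nat.le_succ (7 * n))
  have c3 := T.low hβ (show n + 1 ≤ 7 * n by omega)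
  simp only [Nat.succ_eq_add_one] at c1 c2
  push_cast at c1 c2 c3
  rw [T.eq hβ h1] at a1 a2 ⊢
  rw [T.eq hβ h2] at b1 b2 ⊢
  rw [T.eq hβ (j := n + 1) (by linarith [c1.1]), T.eq hβ (j := 7 * n + 1) (by linarith [c2.1])]
  have m1 : 100 * ℓ ≤ n * ℓ := mul_le_mul_of_nonneg_right n0 l0.le
  have m2 : n * 1000 ≤ n * ℓ := mul_le_mul_of_nonneg_left hℓ (by linarith)
  rw [Fl, Fl, min_eq_left (by linarith), min_eq_left (by linarith)]
  obtain ⟨s, hs⟩ : ∃ s, β (n + 1) - β n = s * ℓ := ⟨(β (n + 1) - β n) / ℓ, by field_simp⟩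
  obtain ⟨t, ht⟩ : ∃ t, β (7 * n + 1) - β (7 * n) = t * ℓ :=
    ⟨(β (7 * n + 1) - β (7 * n)) / ℓ, by field_simp⟩
  rw [hs, ht, mul_div_cancel_right₀ _ l0.ne', mul_div_cancel_right₀ _ l0.ne']
  have s1 : -1 ≤ s := le_of_mul_le_mul_right (by linarith [c1.1]) l0
  have t1 : t ≤ 1 := le_of_mul_le_mul_right (by linarith [c2.2]) l0
  have up : ℓ - 1 < s * ℓ → 999 / 1000 ≤ s := fun h => le_of_mul_le_mul_right (by linarith) l0
  have A1 : 9 * (n * ℓ) ≤ 110 * (n * ℓ) - β n := by linarith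
  have A2 : 9 * (n * ℓ) ≤ 110 * (n * ℓ) - β (7 * n) := by linarith
  have A3 : 0 ≤ 110 * (n * ℓ) - β n := by linarith
  have A4 : 0 ≤ 110 * (n * ℓ) - β (7 * n) := by linarith
  rcases T.tent β hβ (7 * n) with h | h
  · have d1 := h n (by omega)
    push_cast at d1
    have d2 := mul_le_mul_of_nonneg_right (up (by linarith [c3.2])) A3
    have d3 := mul_le_mul_of_nonneg_right t1 A4
    linarith
  · have d1 := h (7 * n + 1) (by omega)
    push_cast at d1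
    have d2 : t ≤ -(999 / 1000) := le_of_mul_le_mul_right (by linarith) l0
    have d3 := mul_le_mul_of_nonneg_right d2 A4
    rcases T.tent β hβ (n + 1) with h' | h'
    · have d4 := h' n (by omega)
      push_cast at d4
      have d5 := mul_le_mul_of_nonneg_right (up (by linarith)) A3
      linarith
    · have d4 := h' (7 * n) (by omega)
      push_cast at d4
      have d5 := mul_le_mul_of_nonneg_right s1 A3
      linarith [c1.2]

theorem Ten.lng (T : Ten ℓ S H) (hℓ : 1000 ≤ ℓ) {n q j : ℕ}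
    (h : 54 * (n * ℓ) + 37 < H (q + 54 * n)) (h1 : q ≤ j) (h2 : j < q + 8 * n) :
    ¬upb 5 ℓ (100 * (n * ℓ) + 11) (H (100 * n + j)) (H (100 * n + j + 1)) := by
  rintro ⟨⟨-, a⟩, b⟩
  have l0 : 0 ≤ ℓ := by linarith
  have n0 : 0 ≤ (n : ℝ) * ℓ := by positivity
  obtain ⟨β, hβ, e⟩ := T.ex (q + 54 * n) (by linarith)
  have j1 : (q : ℝ) * ℓ ≤ j * ℓ := mul_le_mul_of_nonneg_right (by exact_mod_cast h1) l0
  have j2 : ((j : ℝ) + 1) * ℓ ≤ (q + 8 * n) * ℓ :=
    mul_le_mul_of_nonneg_right (by exact_mod_cast h2) l0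
  have c1 := (T.low hβ (show q + 54 * n ≤ 100 * n + j by omega)).1
  have c2 := (T.low hβ (show q + 54 * n ≤ 100 * n + j + 1 by omega)).1
  push_cast at c1 c2
  rw [T.eq hβ (j := 100 * n + j) (by linarith)] at a b
  rw [T.eq hβ (j := 100 * n + j + 1) (by linarith)] at a
  rcases T.tent β hβ (100 * n + j) with k | k
  · have := k (q + 54 * n) (by omega)
    push_cast at this
    linarith
  · have := k (100 * n + j + 1) (by omega)
    push_cast at this
    linarith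

/-- no descent during a full ascent -/
theorem Ten.nodn (T : Ten ℓ S H) (hℓ : 1000 ≤ ℓ) {q e j : ℕ}
    (h : ((e : ℝ) - q) * ℓ - 1 < H e - H q) (h1 : q ≤ j) (h2 : j < e) :
    ¬dn 1 ℓ (H j) (H (j + 1)) := by
  rintro ⟨-, a⟩
  have c1 := (abs_le.1 (T.lip q j h1)).2
  have c2 := (abs_le.1 (T.lip (j + 1) e h2)).2
  push_cast at c2
  linarith

lemma Fl_abs {y y' : ℝ} (hℓ : 0 < ℓ) (h0 : 0 ≤ y) (hR : 0 ≤ R) (h : |y' - y| ≤ ℓ) :
    |Fl ℓ R y y'| ≤ R := by
  have a1 : |(y' - y) / ℓ| ≤ 1 := by rwa [abs_div, abs_of_pos hℓ, div_le_one hℓ]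
  have a2 : |R - min y R| ≤ R :=
    abs_le.2 ⟨by linarith [min_le_right y R], by linarith [le_min h0 hR]⟩
  rw [Fl, abs_mul, abs_neg]
  exact (mul_le_of_le_one_left (abs_nonneg _) a1).trans a2

lemma Fl_move {y y' w w' : ℝ} (hℓ : 0 < ℓ) (h0 : 0 ≤ y) (hR : 0 ≤ R) (h : |w' - w| ≤ ℓ)
    (h1 : |w - y| ≤ 1) (h2 : |w' - y'| ≤ 1) : Fl ℓ R y y' - (2 * R / ℓ + 1) ≤ Fl ℓ R w w' := by
  have a1 : |(w' - w) / ℓ| ≤ 1 := by rwa [abs_div, abs_of_pos hℓ, div_le_one hℓ]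
  have a2 : |min w R - min y R| ≤ 1 := (abs_min_sub_min_le_max _ _ _ _).trans (by simpa using h1)
  have a3 : -1 ≤ (w' - w) / ℓ * (min w R - min y R) := by
    have := mul_le_one₀ a1 (abs_nonneg _) a2
    rw [← abs_mul] at this
    exact (abs_le.1 this).1
  have a4 : (w' - w) / ℓ - (y' - y) / ℓ ≤ 2 / ℓ := by
    rw [← sub_div]
    exact div_le_div_of_nonneg_right (by linarith [(abs_le.1 h1).1, (abs_le.1 h2).2]) hℓ.le
  have a5 : 0 ≤ R - min y R := by linarith [min_le_right y R]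
  have a6 : R - min y R ≤ R := by linarith [le_min h0 hR]
  have a7 := mul_le_mul_of_nonneg_right a4 a5
  have a8 := mul_le_mul_of_nonneg_left a6 (show 0 ≤ 2 / ℓ by positivity)
  have a9 : 2 * R / ℓ = 2 / ℓ * R := by ring
  unfold Fl
  linarith

end Pool.Agent.Lib.MP_a52643_an.NE
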