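import Pool.Agent.Lib.MP_a52643_an.NE.Defs
import Pool.Agent.Lib.MP_a52643_an.NS.Osc

/-!
The second derivative test.
-/

open MeasureTheory Set Filter Topology Metric UpperHalfPlane
open scoped ENNReal MatrixGroups Real FourierTransform ComplexConjugate

noncomputable section

namespace Pool.Agent.Lib.MP_a52643_an.NE

open NS hiding nr Zt Zs isOpen_Zt isOpen_Zs

variable {Λ C : Set SL2} {η : ℍ → ℝ}

/-- first derivative test, convex phase -/
lemma vdc1 {φ φ₁ φ₂ : ℝ → ℝ} {α β lam : ℝ} (hab : α ≤ β) (hl : 0 < lam)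
    (h1 : ∀ z ∈ Icc α β, HasDerivAt φ (φ₁ z) z) (h2 : ∀ z ∈ Icc α β, HasDerivAt φ₁ (φ₂ z) z)
    (hc : ContinuousOn φ₂ (Icc α β)) (lo : ∀ z ∈ Icc α β, lam ≤ |φ₁ z|)
    (hi : ∀ z ∈ Icc α β, 0 ≤ φ₂ z) :
    ‖∫ z in α..β, ee (φ z)‖ ≤ 1 / lam := by
  set k : ℂ := (((-2 * π : ℝ) : ℂ) * Complex.I)⁻¹ with hk
  have hπ : (π : ℂ) ≠ 0 := by exact_mod_cast Real.pi_ne_zero
  have nk : ‖k‖ ≤ 1 / 4 := by
    rw [hk, norm_inv, norm_mul, Complex.norm_I, Complex.norm_real, mul_one, Real.norm_eq_abs,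
      abs_of_neg (by linarith [Real.pi_pos]), one_div]
    exact inv_anti₀ (by norm_num) (by linarith [Real.pi_gt_three])
  have ne : ∀ z ∈ Icc α β, φ₁ z ≠ 0 := fun z hz => abs_pos.1 (hl.trans_le (lo z hz))
  have c0 : ContinuousOn (fun z => ee (φ z)) (Icc α β) := fun z hz =>
    (osc_ee (h1 z hz)).continuousAt.continuousWithinAt
  have c1 : ContinuousOn φ₁ (Icc α β) := fun z hz => (h2 z hz).continuousAt.continuousWithinAt
  have c3 : ContinuousOn (fun z => -φ₂ z / φ₁ z ^ 2) (Icc α β) :=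
    hc.neg.div (c1.pow 2) fun z hz => pow_ne_zero 2 (ne z hz)
  have c2 : ContinuousOn (fun z => k * ee (φ z) * ((-φ₂ z / φ₁ z ^ 2 : ℝ) : ℂ)) (Icc α β) :=
    (continuousOn_const.mul c0).mul (Complex.continuous_ofReal.comp_continuousOn c3)
  have i0 := c0.intervalIntegrable_of_Icc (μ := volume) hab
  have i2 := c2.intervalIntegrable_of_Icc (μ := volume) hab
  have i3 := c3.intervalIntegrable_of_Icc (μ := volume) hab
  have d : ∀ z ∈ uIcc α β, HasDerivAt (fun x => k * ee (φ x) * (((φ₁ x)⁻¹ : ℝ) : ℂ))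
      (ee (φ z) + k * ee (φ z) * ((-φ₂ z / φ₁ z ^ 2 : ℝ) : ℂ)) z := fun z hz => by
    rw [uIcc_of_le hab] at hz
    have h0 : (φ₁ z : ℂ) ≠ 0 := by exact_mod_cast ne z hz
    refine (((osc_ee (h1 z hz)).const_mul k).mul
      ((h2 z hz).inv (ne z hz)).ofReal_comp).congr_deriv ?_
    congr 1
    simp only [hk, Pi.inv_apply]; push_cast; field_simp
  have d' : ∀ z ∈ uIcc α β, HasDerivAt (fun x => (φ₁ x)⁻¹) (-φ₂ z / φ₁ z ^ 2) z := fun z hz => by
    rw [uIcc_of_le hab] at hz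
    exact (h2 z hz).inv (ne z hz)
  have e := intervalIntegral.integral_eq_sub_of_hasDerivAt d (i0.add i2)
  have e' := intervalIntegral.integral_eq_sub_of_hasDerivAt d' i3
  rw [intervalIntegral.integral_add i0 i2, ← eq_sub_iff_add_eq] at e
  have b0 : ∀ z ∈ Icc α β, |(φ₁ z)⁻¹| ≤ 1 / lam := fun z hz => by
    rw [abs_inv, one_div]; exact inv_anti₀ hl (lo z hz)
  have b1 : ∀ z ∈ Icc α β, ‖k * ee (φ z) * (((φ₁ z)⁻¹ : ℝ) : ℂ)‖ ≤ 1 / 4 * (1 / lam) :=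
    fun z hz => by
      rw [norm_mul, norm_mul, norm_ee, mul_one, Complex.norm_real, Real.norm_eq_abs]
      exact mul_le_mul nk (b0 z hz) (abs_nonneg _) (by norm_num)
  have b2 : ‖∫ z in α..β, k * ee (φ z) * ((-φ₂ z / φ₁ z ^ 2 : ℝ) : ℂ)‖
      ≤ ∫ z in α..β, -(1 / 4) * (-φ₂ z / φ₁ z ^ 2) := by
    refine intervalIntegral.norm_integral_le_of_norm_le hab
      (Eventually.of_forall fun z hz => ?_) (i3.const_mul _)
    have hz' := Ioc_subset_Icc_self hz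
    have h3 : 0 ≤ φ₂ z / φ₁ z ^ 2 := div_nonneg (hi z hz') (sq_nonneg _)
    rw [norm_mul, norm_mul, norm_ee, mul_one, Complex.norm_real, Real.norm_eq_abs, neg_div,
      abs_neg, abs_of_nonneg h3, neg_mul_neg]
    exact mul_le_mul_of_nonneg_right nk h3
  rw [intervalIntegral.integral_const_mul, e'] at b2
  rw [e]
  have a1 := abs_le.1 (b0 α (left_mem_Icc.2 hab))
  have a2 := abs_le.1 (b0 β (right_mem_Icc.2 hab))
  refine (norm_sub_le _ _).trans ((add_le_add ((norm_sub_le _ _).trans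
    (add_le_add (b1 β (right_mem_Icc.2 hab)) (b1 α (left_mem_Icc.2 hab)))) b2).trans ?_)
  linarith [a1.2, a2.1]

lemma vdc_cross {f : ℝ → ℝ} {α β : ℝ} (hab : α ≤ β) (hf : ContinuousOn f (Icc α β)) (c : ℝ) :
    ∃ a ∈ Icc α β, (a = α ∨ f a ≤ c) ∧ (a = β ∨ c ≤ f a) := by
  rcases le_total c (f α) with h | h
  · exact ⟨α, left_mem_Icc.2 hab, Or.inl rfl, Or.inr h⟩
  rcases le_total (f β) c with h' | h'
  · exact ⟨β, right_mem_Icc.2 hab, Or.inr h', Or.inl rfl⟩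
  obtain ⟨a, ha, e⟩ := intermediate_value_Icc hab hf ⟨h, h'⟩
  exact ⟨a, ha, Or.inr e.le, Or.inr e.ge⟩

/-- second derivative test, convex phase -/
lemma vdc2_pos {φ φ₁ φ₂ : ℝ → ℝ} {α β μ : ℝ} (hab : α ≤ β) (hμ : 0 < μ)
    (h1 : ∀ z ∈ Icc α β, HasDerivAt φ (φ₁ z) z) (h2 : ∀ z ∈ Icc α β, HasDerivAt φ₁ (φ₂ z) z)
    (hc : ContinuousOn φ₂ (Icc α β)) (lo : ∀ z ∈ Icc α β, μ ≤ φ₂ z) :
    ‖∫ z in α..β, ee (φ z)‖ ≤ 4 / √μ := by
  have hs : 0 < √μ := Real.sqrt_pos.2 hμ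
  have hq : √μ * √μ = μ := Real.mul_self_sqrt hμ.le
  have c0 : ContinuousOn (fun z => ee (φ z)) (Icc α β) := fun z hz =>
    (osc_ee (h1 z hz)).continuousAt.continuousWithinAt
  have c1 : ContinuousOn φ₁ (Icc α β) := fun z hz => (h2 z hz).continuousAt.continuousWithinAt
  have gr : ∀ x ∈ Icc α β, ∀ y ∈ Icc α β, x ≤ y → μ * (y - x) ≤ φ₁ y - φ₁ x :=
    (convex_Icc α β).mul_sub_le_image_sub_of_le_deriv c1
      (fun z hz => (h2 z (interior_subset hz)).differentiableAt.differentiableWithinAt)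
      fun z hz => by
        rw [(h2 z (interior_subset hz)).deriv]; exact lo z (interior_subset hz)
  obtain ⟨a, ha, a1, a2⟩ := vdc_cross hab c1 (-√μ)
  obtain ⟨b, hb, b1, b2⟩ := vdc_cross ha.2 (c1.mono (Icc_subset_Icc_left ha.1)) √μ
  have hb' : b ∈ Icc α β := ⟨ha.1.trans hb.1, hb.2⟩
  have ii : ∀ x y, α ≤ x → x ≤ y → y ≤ β → IntervalIntegrable (fun z => ee (φ z)) volume x y :=
    fun x y p q r => (c0.mono (Icc_subset_Icc p r)).intervalIntegrable_of_Icc q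
  have side : ∀ x y, α ≤ x → x ≤ y → y ≤ β → (x = y ∨ ∀ z ∈ Icc x y, √μ ≤ |φ₁ z|) →
      ‖∫ z in x..y, ee (φ z)‖ ≤ 1 / √μ := fun x y p q r H => by
    rcases H with rfl | H
    · simp
    have sb := Icc_subset_Icc p r
    exact vdc1 q hs (fun z hz => h1 z (sb hz)) (fun z hz => h2 z (sb hz)) (hc.mono sb) H
      fun z hz => hμ.le.trans (lo z (sb hz))
  have s1 := side α a le_rfl ha.1 ha.2 (a1.imp Eq.symm fun h z hz => by
    have := gr z ⟨hz.1, hz.2.trans ha.2⟩ a ha hz.2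
    have := mul_nonneg hμ.le (sub_nonneg.2 hz.2)
    exact le_abs.2 (Or.inr (by linarith)))
  have s3 := side b β hb'.1 hb.2 le_rfl (b2.imp id fun h z hz => by
    have := gr b hb' z ⟨hb'.1.trans hz.1, hz.2⟩ hz.1
    have := mul_nonneg hμ.le (sub_nonneg.2 hz.1)
    exact le_abs.2 (Or.inl (by linarith)))
  have s2 : ‖∫ z in a..b, ee (φ z)‖ ≤ 2 / √μ := by
    refine (intervalIntegral.norm_integral_le_of_norm_le_const (C := 1)
      fun z _ => (norm_ee _).le).trans ?_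
    rw [one_mul, abs_of_nonneg (sub_nonneg.2 hb.1), le_div_iff₀ hs]
    rcases eq_or_lt_of_le hb.1 with e | e
    · rw [← e]; simp
    have p1 := b1.resolve_left e.ne'
    have p2 := a2.resolve_left (e.trans_le hb.2).ne
    have := gr a ha b hb' hb.1
    refine le_of_mul_le_mul_right ?_ hs
    rw [mul_assoc, hq]; linarith
  rw [← intervalIntegral.integral_add_adjacent_intervals (ii α a le_rfl ha.1 ha.2)
    (ii a β ha.1 ha.2 le_rfl), ← intervalIntegral.integral_add_adjacent_intervals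
    (ii a b ha.1 hb.1 hb.2) (ii b β hb'.1 hb.2 le_rfl)]
  refine (norm_add_le _ _).trans ((add_le_add s1 ((norm_add_le _ _).trans
    (add_le_add s2 s3))).trans (le_of_eq (by ring)))

lemma vdc_conj (t : ℝ) : ee (-t) = conj (ee t) := by
  rw [ee, ee, ← Complex.exp_conj, map_mul, Complex.conj_ofReal, Complex.conj_I]
  congr 1; push_cast; ring

/-- second derivative test of van der Corput -/
theorem vdc2 {φ φ₁ φ₂ : ℝ → ℝ} {α β μ : ℝ} (hab : α ≤ β) (hμ : 0 < μ)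
    (h1 : ∀ z ∈ Icc α β, HasDerivAt φ (φ₁ z) z) (h2 : ∀ z ∈ Icc α β, HasDerivAt φ₁ (φ₂ z) z)
    (hc : ContinuousOn φ₂ (Icc α β)) (lo : ∀ z ∈ Icc α β, μ ≤ |φ₂ z|) :
    ‖∫ z in α..β, ee (φ z)‖ ≤ 4 / √μ := by
  by_cases H : ∀ z ∈ Icc α β, 0 ≤ φ₂ z
  · exact vdc2_pos hab hμ h1 h2 hc fun z hz => by
      have := lo z hz; rwa [abs_of_nonneg (H z hz)] at this
  push Not at H
  obtain ⟨w, hw, hw0⟩ := H
  have H' : ∀ z ∈ Icc α β, φ₂ z ≤ 0 := fun z hz => by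
    by_contra hz0
    obtain ⟨y, hy, e⟩ := isPreconnected_Icc.intermediate_value hw hz hc
      (show (0 : ℝ) ∈ Icc (φ₂ w) (φ₂ z) from ⟨hw0.le, (not_le.1 hz0).le⟩)
    have := lo y hy
    rw [e, abs_zero] at this
    linarith
  have := vdc2_pos (φ := fun z => -φ z) (φ₁ := fun z => -φ₁ z) (φ₂ := fun z => -φ₂ z) hab hμ
    (fun z hz => (h1 z hz).neg) (fun z hz => (h2 z hz).neg) hc.neg fun z hz => by
      have := lo z hz; rwa [abs_of_nonpos (H' z hz)] at this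
  simp only [vdc_conj] at this
  rwa [intervalIntegral.integral_of_le hab, integral_conj, Complex.norm_conj,
    ← intervalIntegral.integral_of_le hab] at this

theorem vdc {φ φ₁ φ₂ : ℝ → ℝ} {α β μ : ℝ} (hab : α ≤ β) (hμ : 0 < μ)
    (h1 : ∀ z ∈ Icc α β, HasDerivAt φ (φ₁ z) z) (h2 : ∀ z ∈ Icc α β, HasDerivAt φ₁ (φ₂ z) z)
    (hc : ContinuousOn φ₂ (Icc α β))
    (lo : (∀ z ∈ Icc α β, μ ≤ φ₂ z) ∨ ∀ z ∈ Icc α β, φ₂ z ≤ -μ) :
    ‖∫ z in α..β, ee (φ z)‖ ≤ 8 / √μ := by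
  refine (vdc2 hab hμ h1 h2 hc fun z hz => ?_).trans ?_
  · rcases lo with lo | lo
    · exact (lo z hz).trans (le_abs_self _)
    · exact le_abs.2 (Or.inr (by linarith [lo z hz]))
  · gcongr; norm_num

end Pool.Agent.Lib.MP_a52643_an.NE
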